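import Pool.Agent.Q308.BS.Pair

/-!
Cyclic coverings of the line over `K(S)` with many constant branch points which the moving branch
points meet at few closed points: the classes of the quotients `(x - t) / (x - t')`.
-/

set_option autoImplicit false
set_option linter.unusedSectionVars false

open Polynomial IsDedekindDomain NumberField

namespace Pool.Agent.Q308.BS

open Pool.Agent.TH954 Pool.Agent.Y791.BS Pool.Agent.Y791.BF Pool.Agent.Y791.BF.Types
  Pool.Agent.Y791.BC Pool.Agent.Y791.BF.Level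

section conj

variable {K : Type} [Field K] [CharZero K]

theorem mu_conj (p : K[X]) {ρ ρ' : AlgebraicClosure K} (h : IsConjRoot K ρ ρ') :
    mu p ρ = mu p ρ' := by
  obtain ⟨σ, hσ⟩ := isConjRoot_iff_exists_algEquiv.1 h
  have h1 : mu p ρ' = (p.map (algebraMap K (AlgebraicClosure K))).rootMultiplicity ρ' := rfl
  have h2 := eq_rootMultiplicity_map (p := p.map (algebraMap K (AlgebraicClosure K)))
    (f := (σ : AlgebraicClosure K →+* AlgebraicClosure K)) σ.injective ρ'
  have h3 : (p.map (algebraMap K (AlgebraicClosure K))).map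
      (σ : AlgebraicClosure K →+* AlgebraicClosure K) =
      p.map (algebraMap K (AlgebraicClosure K)) := by
    rw [Polynomial.map_map]
    congr 1
    ext c
    exact σ.commutes c
  rw [h3] at h2
  rw [h1, h2]
  unfold mu
  congr 1
  exact hσ.symm

end conj

section main

variable {K : Type} [Field K] [CharZero K] [hess : Algebra.EssFiniteType ℚ K] {M : Type} [Field M]
  [CharZero M] [IsAlgClosed M] [Algebra (RatFunc K) M] (A : SAct (RatFunc K) M)

/-- Kummer classes -/
theorem kummer_poly {l : ℕ} (hl0 : 0 < l) {z : M} (hz : z ∈ A.fix) (hz0 : z ≠ 0) :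
    ∃ (P : K[X]) (g : M), P ≠ 0 ∧ g ∈ A.fix ∧ z = co K M P * g ^ l := by
  obtain ⟨r, hr, g, hg, h⟩ := A.kummer (f := z) hz hz0 hl0
  have hd0 : r.denom ≠ 0 := r.denom_ne_zero
  have hd0' : algebraMap K[X] (RatFunc K) r.denom ≠ 0 :=
    (map_ne_zero_iff _ (RatFunc.algebraMap_injective K)).2 hd0
  have hd0'' : algebraMap (RatFunc K) M (algebraMap K[X] (RatFunc K) r.denom) ≠ 0 :=
    (_root_.map_ne_zero _).2 hd0'
  refine ⟨r.num * r.denom ^ (l - 1),
    g / algebraMap (RatFunc K) M (algebraMap K[X] (RatFunc K) r.denom), ?_, ?_, ?_⟩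
  · exact mul_ne_zero (RatFunc.num_ne_zero hr) (pow_ne_zero _ hd0)
  · exact div_mem hg (A.fix.algebraMap_mem _)
  · change z = algebraMap (RatFunc K) M (algebraMap K[X] (RatFunc K) _) * _
    rw [h, div_pow]
    have e1 : algebraMap K[X] (RatFunc K) (r.num * r.denom ^ (l - 1)) =
        r * (algebraMap K[X] (RatFunc K) r.denom) ^ l := by
      have h1 := RatFunc.num_div_denom r
      rw [div_eq_iff hd0'] at h1
      rw [map_mul, map_pow, h1, mul_assoc, ← pow_succ', Nat.sub_add_cancel hl0]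
    rw [e1, map_mul, map_pow]
    field_simp

variable (hEmb : S_EmbFG)
    (pl : ∀ i : PlF (RatFunc K), Plc (RatFunc K) M (AlgebraicClosure i.Lv))
    (hpl : ∀ i, GeoPlc A (pl i)) {l : ℕ} (hl : l.Prime) {R : Finset K} {m : K → ℕ} {H : K[X][X]}
    (hm : ∀ t ∈ R, ¬ l ∣ m t) {x y : M} (hx : x ∈ A.fix) (hy : y ∈ A.fix)
    (hxt : ∀ t ∈ R, x ≠ algebraMap (RatFunc K) M (cc t))
    (hxy : y ^ l = (∏ t ∈ R, (x - algebraMap (RatFunc K) M (cc t)) ^ m t) * eval₂ (co K M) x H)
    {P : K → K[X]} {g : K → M} (hP : ∀ t ∈ R, P t ≠ 0) (hg : ∀ t ∈ R, g t ∈ A.fix)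
    (hPg : ∀ t ∈ R, x - algebraMap (RatFunc K) M (cc t) = co K M (P t) * g t ^ l)

include hEmb hpl hl hm hx hy hxt hxy hP hg hPg

/-- a good point -/
theorem good_pair {ρ : AlgebraicClosure K} (hρ : ∀ t ∈ R, aeval ρ (H.eval (C t)) ≠ 0) {t t' : K}
    (ht : t ∈ R) (ht' : t' ∈ R) : (l : ℤ) ∣ (mu (P t) ρ : ℤ) - mu (P t') ρ := by
  classical
  have one : ∀ t ∈ R, ∀ t' ∈ R, l ∣ mu (P t) ρ ∨ (l : ℤ) ∣ (mu (P t) ρ : ℤ) - mu (P t') ρ := by
    intro t ht t' ht'
    set z : M := x - algebraMap (RatFunc K) M (cc t) with hzd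
    set G : K[X][X] := cof R m H t with hG
    set G' : K[X][X] := G.comp (X + C (C t)) with hG'
    have hc0 : G'.coeff 0 = G.eval (C t) := by
      rw [coeff_zero_eq_eval_zero, hG', eval_comp, eval_add, eval_X, eval_C, zero_add]
    have hev : eval₂ (co K M) z G' = eval₂ (co K M) x G := by
      rw [hG', eval₂_comp, eval₂_add, eval₂_X, eval₂_C]
      congr 1
      change z + algebraMap (RatFunc K) M (algebraMap K[X] (RatFunc K) (C t)) = x
      rw [RatFunc.algebraMap_C]
      exact sub_add_cancel _ _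
    have hxy' : y ^ l = z ^ m t * eval₂ (co K M) z G' := by
      rw [hev, hxy, hG, cof, eval₂_mul, ← Finset.mul_prod_erase R _ ht, eval₂_finsetProd, mul_assoc]
      congr 2
      refine Finset.prod_congr rfl (fun s _ => ?_)
      rw [eval₂_pow, eval₂_sub, eval₂_X, eval₂_C]
      congr 2
    have e : z + algebraMap (RatFunc K) M (cc (t - t')) = x - algebraMap (RatFunc K) M (cc t') := by
      have h1 : (cc (t - t') : RatFunc K) = cc t - cc t' := map_sub _ _ _
      rw [hzd, h1, map_sub]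
      ring
    refine pair_at A hEmb pl hpl hl (z := z) (y := y) (g := g t)
      (sub_mem hx (A.fix.algebraMap_mem _)) hy (hg t ht) (sub_ne_zero.2 (hxt t ht)) (hP t ht)
      (hPg t ht) hxy' (hm t ht) ρ ?_ (c := t - t') (hP t' ht') (hg t' ht') ?_ ?_
    · rw [hc0]
      exact cof_eval R m H t (hρ t ht)
    · rw [e]
      exact sub_ne_zero.2 (hxt t' ht')
    · rw [e]
      exact hPg t' ht'
  rcases one t ht t' ht' with h | h
  · rcases one t' ht' t ht with h' | h'
    · exact dvd_sub (by exact_mod_cast h) (by exact_mod_cast h')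
    · rw [← dvd_neg, neg_sub]
      exact h'
  · exact h

/-- **few bad points** -/
theorem few_types {S : Finset K[X]}
    (hS : ∀ π : K[X], π.Monic → Irreducible π → (∃ t ∈ R, π ∣ H.eval (C t)) → π ∈ S) :
    ∃ J : Finset K, J.card ≤ S.card ∧ ∀ t ∈ R, t ∉ J → ∀ t' ∈ R, t' ∉ J →
      ∃ (d : K) (h : M), d ≠ 0 ∧ h ∈ A.fix ∧ x - algebraMap (RatFunc K) M (cc t) =
        algebraMap (RatFunc K) M (cc d) * (x - algebraMap (RatFunc K) M (cc t')) * h ^ l := by
  classical
  have hl0 := hl.pos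
  have h1 : ∀ ρ : AlgebraicClosure K, ∃ θ0 : K, ∀ t ∈ R, t ≠ θ0 → ∀ t' ∈ R, t' ≠ θ0 →
      (l : ℤ) ∣ (mu (P t) ρ : ℤ) - mu (P t') ρ := by
    intro ρ
    rcases types_at A hEmb pl hpl hl0 R x hx P hP g hg hxt hPg ρ with h | ⟨θ0, h⟩
    · exact ⟨0, fun t ht _ t' ht' _ => h t ht t' ht'⟩
    · exact ⟨θ0, fun t ht hne t' ht' hne' => dvd_sub (by exact_mod_cast h t ht hne)
        (by exact_mod_cast h t' ht' hne')⟩
  choose θ0 hθ0 using h1
  have h2 : ∀ q : K[X], ∃ ρ : AlgebraicClosure K, Irreducible q → aeval ρ q = 0 := by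
    intro q
    by_cases hq : Irreducible q
    · obtain ⟨ρ, hρ⟩ := IsAlgClosed.exists_aeval_eq_zero (AlgebraicClosure K) q
        (degree_pos_of_irreducible hq).ne'
      exact ⟨ρ, fun _ => hρ⟩
    · exact ⟨0, fun h => absurd h hq⟩
  choose rt hrt using h2
  refine ⟨S.image fun q => θ0 (rt q), Finset.card_image_le, ?_⟩
  intro t ht htJ t' ht' htJ'
  have key : ∀ ρ : AlgebraicClosure K, (l : ℤ) ∣ (mu (P t) ρ : ℤ) - mu (P t') ρ := by
    intro ρ
    by_cases hρ : ∀ t ∈ R, aeval ρ (H.eval (C t)) ≠ 0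
    · exact good_pair A hEmb pl hpl hl hm hx hy hxt hxy hP hg hPg hρ ht ht'
    · push Not at hρ
      obtain ⟨s, hs, hs0⟩ := hρ
      have hint : IsIntegral K ρ := Algebra.IsIntegral.isIntegral ρ
      have hirr := minpoly.irreducible hint
      have hmem := hS (minpoly K ρ) (minpoly.monic hint) hirr ⟨s, hs, minpoly.dvd K ρ hs0⟩
      have hcr : IsConjRoot K ρ (rt (minpoly K ρ)) := by
        have h3 := hrt (minpoly K ρ) hirr
        have h4 := minpoly.eq_of_irreducible_of_monic hirr h3 (minpoly.monic hint)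
        exact h4
      rw [mu_conj (P t) hcr, mu_conj (P t') hcr]
      refine hθ0 _ t ht ?_ t' ht' ?_
      · rintro rfl
        exact htJ (Finset.mem_image.2 ⟨_, hmem, rfl⟩)
      · rintro rfl
        exact htJ' (Finset.mem_image.2 ⟨_, hmem, rfl⟩)
  have hpow : P t' ^ (l - 1) ≠ 0 := pow_ne_zero _ (hP t' ht')
  have hprod : P t * P t' ^ (l - 1) ≠ 0 := mul_ne_zero (hP t ht) hpow
  obtain ⟨d, h, hd, hdh⟩ := pow_const (l := l) _ (P t * P t' ^ (l - 1)) hprod rfl (by
    intro ρ
    have e1 : ((P t * P t' ^ (l - 1)).map (algebraMap K (AlgebraicClosure K))).rootMultiplicity ρ =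
        mu (P t) ρ + (l - 1) * mu (P t') ρ := by
      change mu (P t * P t' ^ (l - 1)) ρ = _
      rw [mu_mul (hP t ht) hpow]
      congr 1
      rw [mu, Polynomial.map_pow, rootMult_pow]
      rfl
    rw [e1]
    have h3 := key ρ
    have h4 : (l : ℤ) ∣ ((mu (P t) ρ + (l - 1) * mu (P t') ρ : ℕ) : ℤ) := by
      have h5 : ((mu (P t) ρ + (l - 1) * mu (P t') ρ : ℕ) : ℤ) =
          ((mu (P t) ρ : ℤ) - mu (P t') ρ) + l * mu (P t') ρ := by
        push_cast [Nat.cast_sub hl.one_le]
        ring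
      rw [h5]
      exact dvd_add h3 (dvd_mul_right _ _)
    exact_mod_cast h4)
  have hz0 : x - algebraMap (RatFunc K) M (cc t) ≠ 0 := sub_ne_zero.2 (hxt t ht)
  have hz0' : x - algebraMap (RatFunc K) M (cc t') ≠ 0 := sub_ne_zero.2 (hxt t' ht')
  refine ⟨d, co K M h * g t * g t' ^ (l - 1) / (x - algebraMap (RatFunc K) M (cc t')), hd, ?_, ?_⟩
  · exact div_mem (mul_mem (mul_mem (A.fix.algebraMap_mem _) (hg t ht)) (pow_mem (hg t' ht') _))
      (sub_mem hx (A.fix.algebraMap_mem _))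
  · have h5 := congrArg (co K M) hdh
    rw [map_mul, map_pow, map_mul, map_pow] at h5
    have h6 : co K M (C d) = algebraMap (RatFunc K) M (cc d) := by
      change algebraMap (RatFunc K) M (algebraMap K[X] (RatFunc K) (C d)) = _
      rw [RatFunc.algebraMap_C]
      rfl
    rw [h6] at h5
    have e2 : (x - algebraMap (RatFunc K) M (cc t)) * (x - algebraMap (RatFunc K) M (cc t')) ^ (l - 1) =
        algebraMap (RatFunc K) M (cc d) * (co K M h * g t * g t' ^ (l - 1)) ^ l := by
      rw [hPg t ht, hPg t' ht', mul_pow, ← pow_mul]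
      calc co K M (P t) * g t ^ l * (co K M (P t') ^ (l - 1) * g t' ^ (l * (l - 1)))
          = (co K M (P t) * co K M (P t') ^ (l - 1)) * (g t ^ l * g t' ^ (l * (l - 1))) := by ring
        _ = (algebraMap (RatFunc K) M (cc d) * co K M h ^ l) *
            (g t ^ l * g t' ^ (l * (l - 1))) := by rw [h5]
        _ = _ := by
          rw [mul_pow, mul_pow, ← pow_mul (g t'), mul_comm (l - 1) l]
          ring
    rw [div_pow, mul_div_assoc', eq_div_iff (pow_ne_zero _ hz0')]
    have e3 : (x - algebraMap (RatFunc K) M (cc t')) ^ l =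
        (x - algebraMap (RatFunc K) M (cc t')) ^ (l - 1) *
          (x - algebraMap (RatFunc K) M (cc t')) := by
      rw [← pow_succ, Nat.sub_add_cancel hl.one_le]
    rw [e3, ← mul_assoc, e2]
    ring

end main

end Pool.Agent.Q308.BS
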