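import Pool.Agent.Q308.BS.HypE

/-!
Local classes near a node, and pairs of elements one of which is a square at all places.
-/

set_option autoImplicit false
set_option linter.unusedSectionVars false

open Polynomial IsDedekindDomain NumberField

namespace Pool.Agent.Q308.BS

open Pool.Agent.TH954 Pool.Agent.Y791.BS Pool.Agent.Y791.BF Pool.Agent.Y791.BF.Types
  Pool.Agent.Y791.BC Pool.Agent.Y791.BC.LegCls

section loc

variable {L : Type} [NormedField L] [IsUltrametricDist L]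

/-- the exponents of a family of elements of one class, in odd number -/
theorem even_far {ι : Type} (s : Finset ι) (c : ι → L) (hs : Odd s.card)
    (h : ∀ a ∈ s, ∀ b ∈ s, Sq (c a * c b)) {ε : L} (hε0 : ε ≠ 0) (hε1 : ‖ε‖ < 1)
    (hdv : ∀ w : L, w ≠ 0 → ∃ n : ℤ, ‖w‖ = ‖ε‖ ^ n) (m : ι → ℕ)
    (hm : ∀ a ∈ s, ‖c a‖ = ‖ε‖ ^ m a) (hsum : Even (∑ a ∈ s, m a)) : ∀ a ∈ s, Even (m a) := by
  classical
  have h1 : ∀ a ∈ s, ∀ b ∈ s, Even (m a + m b) := by
    intro a ha b hb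
    refine sq_even' hε0 hε1 hdv (h a ha b hb) ?_
    rw [norm_mul, hm a ha, hm b hb, pow_add]
  intro a ha
  by_contra hcon
  rw [Nat.not_even_iff_odd] at hcon
  have h2 : ∀ b ∈ s, Odd (m b) := by
    intro b hb
    have := h1 a ha b hb
    rw [Nat.even_add, ← not_iff_not, Nat.not_even_iff_odd, Nat.not_even_iff_odd] at this
    exact this.1 hcon
  have h4 : Even (∑ a ∈ s, (m a + 1)) := Finset.even_sum _ fun a ha => (h2 a ha).add_one
  rw [Finset.sum_add_distrib, Finset.sum_const, smul_eq_mul, mul_one, Nat.even_add] at h4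
  exact Nat.not_even_iff_odd.2 hs (h4.1 hsum)

theorem sum_even {ι : Type} (s : Finset ι) (c : ι → L) {ε : L} (hε0 : ε ≠ 0) (hε1 : ‖ε‖ < 1)
    (hdv : ∀ w : L, w ≠ 0 → ∃ n : ℤ, ‖w‖ = ‖ε‖ ^ n) (m : ι → ℕ)
    (hm : ∀ a ∈ s, ‖c a‖ = ‖ε‖ ^ m a) {d : L} (hd0 : ‖d‖ = 1) (hprod : Sq (d * ∏ a ∈ s, c a)) :
    Even (∑ a ∈ s, m a) := by
  refine sq_even' hε0 hε1 hdv hprod ?_
  rw [norm_mul, hd0, one_mul, norm_prod_pow s c m hm]

/-- all the classes are equal far away -/
theorem far_classes {ι : Type} (s : Finset ι) (α c : ι → L) (hc : ∀ a ∈ s, c a ≠ 0)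
    (hd : ∀ a ∈ s, ∀ b ∈ s, ‖α a - α b‖ ≤ 1) {u : L} (hu : ∀ a ∈ s, IsSquare (c a * (u - α a)))
    {a : ι} (ha : a ∈ s) (h1 : 1 < ‖u - α a‖) : ∀ b ∈ s, ∀ b' ∈ s, Sq (c b * c b') := by
  have key : ∀ b ∈ s, Sq ((u - α a) * (u - α b)) := by
    intro b hb
    have e : u - α b = (u - α a) + (α a - α b) := by ring
    rw [e]
    exact Sq.dom ((hd a ha b hb).trans_lt h1)
  have hne : ∀ b ∈ s, Sq (c b * (u - α b)) := by
    intro b hb
    exact LegSel.sq_of (mul_ne_zero (hc b hb) (right_ne_zero_of_mul (key b hb).ne_zero)) (hu b hb)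
  intro b hb b' hb'
  have k1 : Sq ((u - α b) * (u - α b')) := (key b hb).congr (key b' hb')
  refine Sq.of_mul k1 ?_
  have e : c b * c b' * ((u - α b) * (u - α b')) = c b * (u - α b) * (c b' * (u - α b')) := by
    ring
  rw [e]
  exact (hne b hb).mul (hne b' hb')

/-- the exponent of a branch point which is separated from the others -/
theorem even_sep {ι : Type} (s : Finset ι) (hs : Odd s.card) (α c : ι → L)
    (hc : ∀ a ∈ s, c a ≠ 0) (hd : ∀ a ∈ s, ∀ b ∈ s, ‖α a - α b‖ ≤ 1) {k : ι} (hk : k ∈ s)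
    (hkd : ∀ a ∈ s, a ≠ k → ‖α k - α a‖ = 1)
    (halt : (∃ u : L, ∀ a ∈ s, IsSquare (c a * (u - α a))) ∨
      ∀ a ∈ s, ∀ b ∈ s, IsSquare (c a * c b)) {ε : L} (hε0 : ε ≠ 0) (hε1 : ‖ε‖ < 1)
    (hdv : ∀ w : L, w ≠ 0 → ∃ n : ℤ, ‖w‖ = ‖ε‖ ^ n) (m : ι → ℕ)
    (hm : ∀ a ∈ s, ‖c a‖ = ‖ε‖ ^ m a) {d : L} (hd0 : ‖d‖ = 1)
    (hprod : Sq (d * ∏ a ∈ s, c a)) : Even (m k) := by
  classical
  have hsum := sum_even s c hε0 hε1 hdv m hm hd0 hprod
  rcases halt with ⟨u, hu⟩ | h
  · rcases lt_trichotomy ‖u - α k‖ 1 with h1 | h1 | h1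
    · have h2 : ∀ a ∈ s, a ≠ k → Even (m a) := by
        intro a ha hne
        have h3 := hkd a ha hne
        have h4 : Sq ((α k - α a) * (u - α a)) := by
          have e : u - α a = (α k - α a) + (u - α k) := by ring
          rw [e]
          exact Sq.dom (by rw [h3]; exact h1)
        have h5 : Sq (c a * (u - α a)) :=
          LegSel.sq_of (mul_ne_zero (hc a ha) (right_ne_zero_of_mul h4.ne_zero)) (hu a ha)
        have h6 : ‖u - α a‖ = 1 := by
          have e : u - α a = (α k - α a) + (u - α k) := by ring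
          rw [e, IsUltrametricDist.norm_add_eq_max_of_norm_ne_norm (by rw [h3]; exact h1.ne'), h3]
          exact max_eq_left h1.le
        refine sq_even' hε0 hε1 hdv h5 ?_
        rw [norm_mul, hm a ha, h6, mul_one]
      rw [← Finset.add_sum_erase s m hk, Nat.even_add] at hsum
      refine hsum.2 ?_
      exact Finset.even_sum _ fun a ha => h2 a (Finset.mem_of_mem_erase ha) (Finset.ne_of_mem_erase ha)
    · have h5 : Sq (c k * (u - α k)) := by
        refine LegSel.sq_of (mul_ne_zero (hc k hk) ?_) (hu k hk)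
        rw [← norm_ne_zero_iff, h1]
        exact one_ne_zero
      refine sq_even' hε0 hε1 hdv h5 ?_
      rw [norm_mul, hm k hk, h1, mul_one]
    · exact even_far s c hs (far_classes s α c hc hd hu hk h1) hε0 hε1 hdv m hm hsum k hk
  · refine even_far s c hs (fun a ha b hb => ?_) hε0 hε1 hdv m hm hsum k hk
    exact LegSel.sq_of (mul_ne_zero (hc a ha) (hc b hb)) (h a ha b hb)

/-- the alternatives at a node -/
theorem node_alt {ι : Type} (s : Finset ι) (hs : Odd s.card) (α c : ι → L)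
    (hc : ∀ a ∈ s, c a ≠ 0) {i j : ι} (hi : i ∈ s) (hj : j ∈ s) (hij : i ≠ j)
    (hnode : ‖α i - α j‖ < 1)
    (hd : ∀ a ∈ s, ∀ b ∈ s, a ≠ b → ¬ (a = i ∧ b = j) → ¬ (a = j ∧ b = i) → ‖α a - α b‖ = 1)
    (halt : (∃ u : L, ∀ a ∈ s, IsSquare (c a * (u - α a))) ∨
      ∀ a ∈ s, ∀ b ∈ s, IsSquare (c a * c b)) {ε : L} (hε0 : ε ≠ 0) (hε1 : ‖ε‖ < 1)
    (hdv : ∀ w : L, w ≠ 0 → ∃ n : ℤ, ‖w‖ = ‖ε‖ ^ n) (m : ι → ℕ)
    (hm : ∀ a ∈ s, ‖c a‖ = ‖ε‖ ^ m a) {d : L} (hd0 : ‖d‖ = 1)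
    (hprod : Sq (d * ∏ a ∈ s, c a)) :
    (Even (m i) ∧ Sq (c i * c j)) ∨ ∀ l ∈ s, l ≠ i → l ≠ j → Sq (c l * (α i - α l)) := by
  classical
  have hsum := sum_even s c hε0 hε1 hdv m hm hd0 hprod
  have hle : ∀ a ∈ s, ∀ b ∈ s, ‖α a - α b‖ ≤ 1 := by
    intro a ha b hb
    by_cases h1 : a = b
    · rw [h1, sub_self, norm_zero]; exact zero_le_one
    · by_cases h2 : a = i ∧ b = j
      · rw [h2.1, h2.2]; exact hnode.le
      · by_cases h3 : a = j ∧ b = i
        · rw [h3.1, h3.2, norm_sub_rev]; exact hnode.le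
        · exact (hd a ha b hb h1 h2 h3).le
  have hdi : ∀ l ∈ s, l ≠ i → l ≠ j → ‖α i - α l‖ = 1 := fun l hl h1 h2 =>
    hd i hi l hl h1.symm (fun h => h2 h.2) (fun h => hij h.1)
  have hdl : ∀ l ∈ s, l ≠ i → l ≠ j → ∀ a ∈ s, a ≠ l → ‖α l - α a‖ = 1 := fun l hl h1 h2 a ha h3 =>
    hd l hl a ha h3.symm (fun h => h1 h.1) (fun h => h2 h.1)
  rcases halt with ⟨u, hu⟩ | h
  · by_cases h1 : ∃ a ∈ s, 1 < ‖u - α a‖
    · obtain ⟨a, ha, h1⟩ := h1
      left
      have h2 := far_classes s α c hc hle hu ha h1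
      exact ⟨even_far s c hs h2 hε0 hε1 hdv m hm hsum i hi, h2 i hi j hj⟩
    · push Not at h1
      by_cases h2 : ∃ k ∈ s, k ≠ i ∧ k ≠ j ∧ ‖u - α k‖ < 1
      · obtain ⟨k, hk, hki, hkj, h2⟩ := h2
        left
        have cls : ∀ a ∈ s, a ≠ k → Sq ((α k - α a) * (u - α a)) ∧ Sq (c a * (u - α a)) ∧
            ‖u - α a‖ = 1 := by
          intro a ha hne
          have h3 := hdl k hk hki hkj a ha hne
          have e : u - α a = (α k - α a) + (u - α k) := by ring
          have h4 : Sq ((α k - α a) * (u - α a)) := by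
            rw [e]
            exact Sq.dom (by rw [h3]; exact h2)
          refine ⟨h4, LegSel.sq_of (mul_ne_zero (hc a ha) (right_ne_zero_of_mul h4.ne_zero))
            (hu a ha), ?_⟩
          rw [e, IsUltrametricDist.norm_add_eq_max_of_norm_ne_norm (by rw [h3]; exact h2.ne'), h3]
          exact max_eq_left h2.le
        obtain ⟨p1, p2, p3⟩ := cls i hi (Ne.symm hki)
        obtain ⟨q1, q2, q3⟩ := cls j hj (Ne.symm hkj)
        refine ⟨?_, ?_⟩
        · refine sq_even' hε0 hε1 hdv p2 ?_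
          rw [norm_mul, hm i hi, p3, mul_one]
        · have h5 : Sq ((α k - α i) * (α k - α j)) := by
            have e : α k - α j = (α k - α i) + (α i - α j) := by ring
            rw [e]
            refine Sq.dom ?_
            rw [hdl k hk hki hkj i hi (Ne.symm hki)]
            exact hnode
          -- `(u - α i) (u - α j)` is a square
          have h6 : Sq ((u - α i) * (u - α j)) := by
            have h7 : Sq ((u - α i) * (α k - α j)) := h5.congr p1 |> fun h => by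
              rw [mul_comm]
              exact h
            rw [mul_comm] at h7
            exact (h7.congr q1)
          refine Sq.of_mul h6 ?_
          have e : c i * c j * ((u - α i) * (u - α j)) = c i * (u - α i) * (c j * (u - α j)) := by
            ring
          rw [e]
          exact p2.mul q2
      · push Not at h2
        rcases lt_or_ge ‖u - α i‖ 1 with h3 | h3
        · right
          intro l hl hli hlj
          have h4 := hdi l hl hli hlj
          have e : u - α l = (α i - α l) + (u - α i) := by ring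
          have h5 : Sq ((α i - α l) * (u - α l)) := by
            rw [e]
            exact Sq.dom (by rw [h4]; exact h3)
          have h6 : Sq (c l * (u - α l)) :=
            LegSel.sq_of (mul_ne_zero (hc l hl) (right_ne_zero_of_mul h5.ne_zero)) (hu l hl)
          refine Sq.of_mul (Sq.sq (right_ne_zero_of_mul h5.ne_zero)) ?_
          have e : c l * (α i - α l) * (u - α l) ^ 2 =
              c l * (u - α l) * ((α i - α l) * (u - α l)) := by ring
          rw [e]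
          exact h6.mul h5
        · left
          have h4 : ‖u - α i‖ = 1 := le_antisymm (h1 i hi) h3
          have h5 : Sq ((u - α i) * (u - α j)) := by
            have e : u - α j = (u - α i) + (α i - α j) := by ring
            rw [e]
            exact Sq.dom (by rw [h4]; exact hnode)
          have p : Sq (c i * (u - α i)) :=
            LegSel.sq_of (mul_ne_zero (hc i hi) (left_ne_zero_of_mul h5.ne_zero)) (hu i hi)
          have q : Sq (c j * (u - α j)) :=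
            LegSel.sq_of (mul_ne_zero (hc j hj) (right_ne_zero_of_mul h5.ne_zero)) (hu j hj)
          refine ⟨?_, ?_⟩
          · refine sq_even' hε0 hε1 hdv p ?_
            rw [norm_mul, hm i hi, h4, mul_one]
          · refine Sq.of_mul h5 ?_
            have e : c i * c j * ((u - α i) * (u - α j)) = c i * (u - α i) * (c j * (u - α j)) := by
              ring
            rw [e]
            exact p.mul q
  · left
    have h2 : ∀ a ∈ s, ∀ b ∈ s, Sq (c a * c b) := fun a ha b hb =>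
      LegSel.sq_of (mul_ne_zero (hc a ha) (hc b hb)) (h a ha b hb)
    exact ⟨even_far s c hs h2 hε0 hε1 hdv m hm hsum i hi, h2 i hi j hj⟩

end loc

section two

/-- a place at which two elements moved by an automorphism are not squares -/
theorem exists_nonsq (hF : S_FrobRes) (K : Type) [Field K] [CharZero K]
    (hess : Algebra.EssFiniteType ℚ K) {d1 d2 : K} (h1 : d1 ≠ 0) (h2 : d2 ≠ 0) (Y : Finset K)
    {δ1 δ2 : AlgebraicClosure K} (e1 : δ1 ^ 2 = algebraMap K (AlgebraicClosure K) d1)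
    (e2 : δ2 ^ 2 = algebraMap K (AlgebraicClosure K) d2)
    {σ : AlgebraicClosure K ≃ₐ[K] AlgebraicClosure K} (s1 : σ δ1 ≠ δ1) (s2 : σ δ2 ≠ δ2) :
    ∃ i : PlF K, (∀ c ∈ Y, ‖i.φ c‖ ≤ 1 ∧ (c ≠ 0 → ‖i.φ c‖ = 1)) ∧ ¬ Sq (i.φ d1) ∧
      ¬ Sq (i.φ d2) := by
  classical
  obtain ⟨p, hp, B, χ, i, res, hp2, hZ, hσB, hres, hres0, hY⟩ := hF K hess
    (insert δ1 (insert δ2 (Y.image (algebraMap K (AlgebraicClosure K)))))
    (insert d1 (insert d2 Y)) σ 2
  have hult := ultra i.v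
  set Z : Finset (AlgebraicClosure K) :=
    insert δ1 (insert δ2 (Y.image (algebraMap K (AlgebraicClosure K)))) with hZdef
  have hunit : ∀ z ∈ Z, z ≠ 0 → ∀ hz : z ∈ B, χ ⟨z, hz⟩ ≠ 0 := by
    intro z hzZ hz0 hz h0
    have h1 := (hZ z hzZ).2 hz0
    have h2 : (⟨z, hz⟩ : B) * ⟨z⁻¹, h1⟩ = 1 := Subtype.ext (mul_inv_cancel₀ hz0)
    have h3 := congrArg χ h2
    rw [map_mul, h0, zero_mul, map_one] at h3
    exact zero_ne_one h3
  have hnorm : ∀ c ∈ insert d1 (insert d2 Y), c ≠ 0 →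
      (∀ hc : algebraMap K (AlgebraicClosure K) c ∈ B, χ ⟨_, hc⟩ ≠ 0) → ‖i.φ c‖ = 1 := by
    intro c hc hc0 hχ
    obtain ⟨hcB, hc1, hcr⟩ := hY c hc
    refine le_antisymm hc1 (not_lt.1 (fun hlt => hχ hcB ?_))
    rw [← hcr]
    exact (hres0 _).2 hlt
  have main : ∀ (d : K) (δ : AlgebraicClosure K), d ∈ insert d1 (insert d2 Y) → δ ∈ Z → d ≠ 0 →
      δ ^ 2 = algebraMap K (AlgebraicClosure K) d → σ δ ≠ δ → ¬ Sq (i.φ d) := by
    rintro d δ hdY hδZ hd hδ hσ ⟨s, u, hs0, hu, hsu⟩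
    have hδ0 : δ ≠ 0 := by
      rintro rfl
      rw [zero_pow two_ne_zero] at hδ
      exact (_root_.map_ne_zero (algebraMap K (AlgebraicClosure K))).2 hd hδ.symm
    have hσ' : σ δ = -δ := by
      have h1 : (σ δ) ^ 2 = δ ^ 2 := by rw [← map_pow, hδ, σ.commutes]
      rcases sq_eq_sq_iff_eq_or_eq_neg.1 h1 with h2 | h2
      · exact absurd h2 hσ
      · exact h2
    have hδB : δ ∈ B := (hZ δ hδZ).1
    obtain ⟨hdB, hd1', hdr⟩ := hY d hdY
    have hχδ : χ ⟨δ, hδB⟩ ≠ 0 := hunit δ hδZ hδ0 hδB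
    have hχd : χ ⟨_, hdB⟩ = χ ⟨δ, hδB⟩ ^ 2 := by
      rw [← map_pow]
      congr 1
      exact Subtype.ext hδ.symm
    have hnd : ‖i.φ d‖ = 1 := hnorm d hdY hd (fun hc => by
      have e : (⟨_, hc⟩ : B) = ⟨_, hdB⟩ := rfl
      rw [e, hχd]
      exact pow_ne_zero _ hχδ)
    have hs1 : ‖s‖ = 1 := by
      have h1 := congrArg norm hsu
      rw [hnd, norm_mul, norm_near hu, mul_one, norm_pow] at h1
      exact (pow_eq_one_iff_of_nonneg (norm_nonneg _) two_ne_zero).1 h1.symm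
    have hu1 : ‖u‖ ≤ 1 := (norm_near hu).le
    have hsub : res ⟨u, hu1⟩ = 1 := by
      have h1 : res (⟨u, hu1⟩ - 1) = 0 := (hres0 _).2 hu
      rwa [map_sub, map_one, sub_eq_zero] at h1
    have hrs : (res ⟨s, hs1.le⟩) ^ 2 = χ ⟨δ, hδB⟩ ^ 2 := by
      rw [← hχd, ← hdr]
      have e : (⟨i.φ d, hd1'⟩ : Pool.Agent.Y791.BF.ball1 i.Lv) = ⟨s, hs1.le⟩ ^ 2 * ⟨u, hu1⟩ :=
        Subtype.ext hsu
      rw [e, map_mul, map_pow, hsub, mul_one]
    have hfrob : χ ⟨δ, hδB⟩ ^ p = -χ ⟨δ, hδB⟩ := by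
      obtain ⟨h1, h2⟩ := hσB δ hδB
      rw [← h2, ← map_neg]
      congr 1
      exact Subtype.ext hσ'
    have hodd : Odd p := hp.out.odd_of_ne_two (by omega)
    have h2p : (2 : AlgebraicClosure (ZMod p)) ≠ 0 := by
      have hch : CharP (AlgebraicClosure (ZMod p)) p := inferInstance
      intro h0
      have h1 : ((2 : ℕ) : AlgebraicClosure (ZMod p)) = 0 := by exact_mod_cast h0
      rw [CharP.cast_eq_zero_iff _ p] at h1
      exact absurd (Nat.le_of_dvd two_pos h1) (by omega)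
    have hfin : χ ⟨δ, hδB⟩ = -χ ⟨δ, hδB⟩ := by
      have h3 := hres ⟨s, hs1.le⟩
      rcases sq_eq_sq_iff_eq_or_eq_neg.1 hrs with h4 | h4
      · rw [h4, hfrob] at h3
        exact h3.symm
      · rw [h4, hodd.neg_pow, hfrob, neg_neg] at h3
        exact h3
    have h5 : 2 * χ ⟨δ, hδB⟩ = 0 := by
      rw [two_mul]
      nth_rw 1 [hfin]
      exact neg_add_cancel _
    rcases mul_eq_zero.1 h5 with h6 | h6
    · exact h2p h6
    · exact hχδ h6
  refine ⟨i, fun c hc => ?_, main d1 δ1 (by simp) (by simp [hZdef]) h1 e1 s1,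
    main d2 δ2 (by simp) (by simp [hZdef]) h2 e2 s2⟩
  have hc' : c ∈ insert d1 (insert d2 Y) :=
    Finset.mem_insert_of_mem (Finset.mem_insert_of_mem hc)
  refine ⟨(hY c hc').2.1, fun hc0 => hnorm c hc' hc0 (fun hcB => hunit _ ?_
    ((_root_.map_ne_zero _).2 hc0) hcB)⟩
  exact Finset.mem_insert_of_mem (Finset.mem_insert_of_mem (Finset.mem_image_of_mem _ hc))

/-- if one of two elements is a square at the places at which finitely many elements are units, then
one of them is a square -/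
theorem isSquare_or (hF : S_FrobRes) (K : Type) [Field K] [CharZero K]
    (hess : Algebra.EssFiniteType ℚ K) {d1 d2 : K} (h1 : d1 ≠ 0) (h2 : d2 ≠ 0) (Y : Finset K)
    (h : ∀ i : PlF K, (∀ c ∈ Y, ‖i.φ c‖ ≤ 1 ∧ (c ≠ 0 → ‖i.φ c‖ = 1)) →
      Sq (i.φ d1) ∨ Sq (i.φ d2)) : IsSquare d1 ∨ IsSquare d2 := by
  classical
  by_contra hns
  push Not at hns
  have ex : ∀ {d : K}, ¬ IsSquare d → ∃ (δ : AlgebraicClosure K)
      (σ : AlgebraicClosure K ≃ₐ[K] AlgebraicClosure K),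
      δ ^ 2 = algebraMap K (AlgebraicClosure K) d ∧ σ δ ≠ δ := by
    intro d hd
    obtain ⟨δ, hδ⟩ := IsAlgClosed.exists_pow_nat_eq (algebraMap K (AlgebraicClosure K) d)
      (n := 2) two_pos
    refine ⟨δ, ?_⟩
    by_contra hcon
    push Not at hcon
    obtain ⟨c, hc⟩ := base_of_fixed (fun σ => hcon σ hδ)
    apply hd
    refine ⟨c, ?_⟩
    apply (algebraMap K (AlgebraicClosure K)).injective
    rw [map_mul, hc, ← hδ, pow_two]
  obtain ⟨δ1, σ1, e1, s1⟩ := ex hns.1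
  obtain ⟨δ2, σ2, e2, s2⟩ := ex hns.2
  have sgn : ∀ {d : K} {δ : AlgebraicClosure K}, δ ^ 2 = algebraMap K (AlgebraicClosure K) d →
      ∀ σ : AlgebraicClosure K ≃ₐ[K] AlgebraicClosure K, σ δ = δ ∨ σ δ = -δ := by
    intro d δ hδ σ
    have h1 : (σ δ) ^ 2 = δ ^ 2 := by rw [← map_pow, hδ, σ.commutes]
    exact sq_eq_sq_iff_eq_or_eq_neg.1 h1
  obtain ⟨σ, t1, t2⟩ : ∃ σ : AlgebraicClosure K ≃ₐ[K] AlgebraicClosure K, σ δ1 ≠ δ1 ∧ σ δ2 ≠ δ2 := by
    by_cases a : σ1 δ2 ≠ δ2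
    · exact ⟨σ1, s1, a⟩
    · by_cases b : σ2 δ1 ≠ δ1
      · exact ⟨σ2, b, s2⟩
      · rw [not_not] at a b
        refine ⟨σ1 * σ2, ?_, ?_⟩
        · rw [AlgEquiv.mul_apply, b]
          exact s1
        · rw [AlgEquiv.mul_apply]
          rcases sgn e2 σ2 with h3 | h3
          · exact absurd h3 s2
          · rw [h3, map_neg, a]
            rw [h3] at s2
            exact s2
  obtain ⟨i, hi, n1, n2⟩ := exists_nonsq hF K hess h1 h2 Y e1 e2 t1 t2
  rcases h i hi with h3 | h3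
  · exact n1 h3
  · exact n2 h3

end two

end Pool.Agent.Q308.BS
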