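import Pool.Agent.Q308.BS.GenA

/-!
Generic families of branch points in `K[S]`: the classes of the points of the hyperelliptic curve.
-/

set_option autoImplicit false
set_option linter.unusedSectionVars false

open Polynomial IsDedekindDomain NumberField

namespace Pool.Agent.Q308.BS

open Pool.Agent.TH954 Pool.Agent.Y791.BS Pool.Agent.Y791.BF Pool.Agent.Y791.BF.Types
  Pool.Agent.Y791.BC Pool.Agent.Y791.BC.LegCls Pool.Agent.H918R3 Pool.Agent.H918R3.TB1

variable {K : Type} [Field K]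

open scoped Classical in
/-- the product of powers of the differences -/
noncomputable def PP (S : Finset K[X]) (E : K[X] → K[X] → ℕ) : K[X] :=
  ∏ k ∈ S, ∏ l ∈ S.erase k, (k - l) ^ E k l

open scoped Classical in
/-- generic families of branch points -/
structure Generic (A : Finset K[X]) : Prop where
  irr : ∀ a ∈ A, ∀ b ∈ A, a ≠ b → Irreducible (a - b)
  odd : ∀ a ∈ A, ∀ b ∈ A, a ≠ b → Odd (a - b).natDegree
  ind : ∀ a ∈ A, ∀ b ∈ A, a ≠ b → ∀ (u : K) (E : K[X] → K[X] → ℕ) (z : K[X]), u ≠ 0 →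
    a - b ∣ C u * PP (A.erase b) E - z ^ 2 →
    ∀ k ∈ A.erase b, ∀ l ∈ A.erase b, k ≠ l → Even (E k l + E l k)

section prod

theorem PP_add (S : Finset K[X]) (E E' : K[X] → K[X] → ℕ) :
    PP S (fun k l => E k l + E' k l) = PP S E * PP S E' := by
  classical
  unfold PP
  rw [← Finset.prod_mul_distrib]
  refine Finset.prod_congr rfl fun k _ => ?_
  rw [← Finset.prod_mul_distrib]
  exact Finset.prod_congr rfl fun l _ => pow_add _ _ _

open scoped Classical in
/-- the exponents in one row -/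
noncomputable def row (k : K[X]) (f : K[X] → ℕ) : K[X] → K[X] → ℕ := fun k' l => if k' = k then f l else 0

open scoped Classical in
theorem PP_row (S : Finset K[X]) {k : K[X]} (hk : k ∈ S) (f : K[X] → ℕ) :
    PP S (row k f) = ∏ l ∈ S.erase k, (k - l) ^ f l := by
  unfold PP row
  rw [Finset.prod_eq_single_of_mem k hk]
  · simp only [if_true]
  · intro b _ hb
    refine Finset.prod_eq_one fun l _ => ?_
    rw [if_neg hb, pow_zero]

open scoped Classical in
/-- the exponents with one entry -/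
noncomputable def sing (k l : K[X]) : K[X] → K[X] → ℕ := row k (fun m => if m = l then 1 else 0)

theorem PP_sing (S : Finset K[X]) {k l : K[X]} (hk : k ∈ S) (hl : l ∈ S) (hkl : k ≠ l) :
    PP S (sing k l) = k - l := by
  classical
  have := PP_row S hk (fun m => if m = l then 1 else 0)
  unfold sing
  rw [this, Finset.prod_eq_single_of_mem l (Finset.mem_erase.2 ⟨hkl.symm, hl⟩)]
  · simp only [if_true, pow_one]
  · intro b _ hb
    rw [if_neg hb, pow_zero]

theorem sing_self (k l : K[X]) : sing k l k l = 1 := by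
  unfold sing row
  simp

theorem sing_swap {k l : K[X]} (h : k ≠ l) : sing k l l k = 0 := by
  unfold sing row
  rw [if_neg h.symm]

end prod

variable {A : Finset K[X]}

/-- different differences do not divide each other -/
theorem Generic.ndvd (hA : Generic A) {a b k l : K[X]} (ha : a ∈ A) (hb : b ∈ A) (hab : a ≠ b)
    (hk : k ∈ A) (hl : l ∈ A) (hkl : k ≠ l) (h1 : ¬ (k = a ∧ l = b)) (h2 : ¬ (k = b ∧ l = a)) :
    ¬ a - b ∣ k - l := by
  classical
  have key : ∀ {k l : K[X]}, k ∈ A → l ∈ A → k ≠ l → k ≠ b → l ≠ b → ¬ a - b ∣ k - l := by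
    intro k l hk hl hkl hkb hlb hd
    have h3 := hA.ind a ha b hb hab 1 (sing k l) 0 one_ne_zero (by
      rw [PP_sing _ (Finset.mem_erase.2 ⟨hkb, hk⟩) (Finset.mem_erase.2 ⟨hlb, hl⟩) hkl, C_1, one_mul,
        zero_pow two_ne_zero, sub_zero]
      exact hd) k (Finset.mem_erase.2 ⟨hkb, hk⟩) l (Finset.mem_erase.2 ⟨hlb, hl⟩) hkl
    rw [sing_self, sing_swap hkl] at h3
    exact absurd h3 (by decide)
  intro hd
  by_cases hkb : k = b
  · subst hkb
    have hla : l ≠ a := fun h => h2 ⟨rfl, h⟩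
    refine key ha hl hla.symm hab (Ne.symm hkl) ?_
    have e : a - l = (a - k) + (k - l) := by ring
    rw [e]
    exact dvd_add dvd_rfl hd
  · by_cases hlb : l = b
    · subst hlb
      have hka : k ≠ a := fun h => h1 ⟨h, rfl⟩
      refine key hk ha hka hkb hab ?_
      have e : k - a = (k - l) - (a - l) := by ring
      rw [e]
      exact dvd_sub hd dvd_rfl
    · exact key hk hl hkl hkb hlb hd

section mu

variable [CharZero K]

theorem mu_prod (S : Finset K[X]) (f : K[X] → K[X]) (hf : ∀ l ∈ S, f l ≠ 0)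
    (ρ : AlgebraicClosure K) : mu (∏ l ∈ S, f l) ρ = ∑ l ∈ S, mu (f l) ρ := by
  classical
  induction S using Finset.induction_on with
  | empty =>
    rw [Finset.prod_empty, Finset.sum_empty]
    exact mu_eq_zero (by rw [map_one]; exact one_ne_zero)
  | insert a S ha ih =>
    rw [Finset.prod_insert ha, Finset.sum_insert ha, mu_mul (hf a (Finset.mem_insert_self _ _))
      (Finset.prod_ne_zero_iff.2 fun l hl => hf l (Finset.mem_insert_of_mem hl)),
      ih fun l hl => hf l (Finset.mem_insert_of_mem hl)]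

theorem conj_of_irr {D : K[X]} (hD : Irreducible D) {ρ ρ' : AlgebraicClosure K}
    (h : aeval ρ D = 0) (h' : aeval ρ' D = 0) : IsConjRoot K ρ ρ' := by
  have hi : IsIntegral K ρ := Algebra.IsIntegral.isIntegral ρ
  have hi' : IsIntegral K ρ' := Algebra.IsIntegral.isIntegral ρ'
  have h1 : Associated (minpoly K ρ) D :=
    (minpoly.irreducible hi).associated_of_dvd hD (minpoly.dvd K ρ h)
  have h2 : Associated (minpoly K ρ') D :=
    (minpoly.irreducible hi').associated_of_dvd hD (minpoly.dvd K ρ' h')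
  exact eq_of_monic_of_associated (minpoly.monic hi) (minpoly.monic hi') (h1.trans h2.symm)

end mu

section glob

variable [CharZero K] [hess : Algebra.EssFiniteType ℚ K]

/-- the parities of the exponents at a closed point -/
theorem loc_par (hEmb : S_EmbFG) {P : K[X] → K[X]} (hP : ∀ a ∈ A, P a ≠ 0)
    (halt : Alt A P) {E : K[X]} (hE : E ≠ 0)
    (hprod : IsSquare (algebraMap K[X] (RatFunc K) (E * ∏ a ∈ A, P a))) (hodd : Odd A.card)
    {ρ : AlgebraicClosure K} (hEρ : aeval ρ E ≠ 0) :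
    Even (∑ a ∈ A, mu (P a) ρ) ∧
      ∀ k ∈ A, (∀ l ∈ A, l ≠ k → aeval ρ (k - l) ≠ 0) → Even (mu (P k) ρ) := by
  classical
  obtain ⟨i, ε, hε0, hε1, hεn, hpoly⟩ := exists_near_polys hEmb
    (A.image P ∪ {E} ∪ (A ×ˢ A).image (fun p => p.1 - p.2)) ρ
  have hu := ultra i.v
  have hinj := RatFunc.algebraMap_injective K
  have hne : ∀ {p : K[X]}, p ≠ 0 → i.φ (algebraMap K[X] (RatFunc K) p) ≠ 0 := fun h =>
    (_root_.map_ne_zero _).2 ((map_ne_zero_iff _ hinj).2 h)
  have hm : ∀ a ∈ A, ‖i.φ (algebraMap K[X] (RatFunc K) (P a))‖ = ‖ε‖ ^ mu (P a) ρ := fun a ha =>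
    hpoly (P a) (Finset.mem_union_left _ (Finset.mem_union_left _
      (Finset.mem_image_of_mem _ ha))) (hP a ha)
  have hd0 : ‖i.φ (algebraMap K[X] (RatFunc K) E)‖ = 1 := by
    rw [hpoly E (Finset.mem_union_left _ (Finset.mem_union_right _ (Finset.mem_singleton_self _)))
      hE, mu_eq_zero hEρ, pow_zero]
  have hs : Sq (i.φ (algebraMap K[X] (RatFunc K) E) *
      ∏ a ∈ A, i.φ (algebraMap K[X] (RatFunc K) (P a))) := by
    rw [← map_prod, ← map_prod, ← map_mul, ← map_mul]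
    refine sq_of_isSq ?_ hprod
    exact (map_ne_zero_iff _ hinj).2 (mul_ne_zero hE (Finset.prod_ne_zero_iff.2 hP))
  have hdiff : ∀ a ∈ A, ∀ b ∈ A, a ≠ b → ‖i.φ (algebraMap K[X] (RatFunc K) a) -
      i.φ (algebraMap K[X] (RatFunc K) b)‖ = ‖ε‖ ^ mu (a - b) ρ := by
    intro a ha b hb hab
    have h1 : a - b ≠ 0 := sub_ne_zero.2 hab
    have h2 := hpoly (a - b) (Finset.mem_union_right _ (Finset.mem_image.2
      ⟨(a, b), Finset.mem_product.2 ⟨ha, hb⟩, rfl⟩)) h1
    rw [← h2, map_sub, map_sub]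
  refine ⟨sum_even A (fun a => i.φ (algebraMap K[X] (RatFunc K) (P a))) hε0 hε1 hεn
    (fun a => mu (P a) ρ) hm hd0 hs, fun k hk hkl => ?_⟩
  refine even_sep A hodd (fun a => i.φ (algebraMap K[X] (RatFunc K) a))
    (fun a => i.φ (algebraMap K[X] (RatFunc K) (P a))) (fun a ha => hne (hP a ha)) ?_ hk ?_
    (halt i) hε0 hε1 hεn (fun a => mu (P a) ρ) hm hd0 hs
  · intro a ha b hb
    by_cases hab : a = b
    · rw [hab, sub_self, norm_zero]
      exact zero_le_one
    · rw [hdiff a ha b hb hab]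
      exact pow_le_one₀ (norm_nonneg _) hε1.le
  · intro a ha hak
    rw [hdiff k hk a ha hak.symm, mu_eq_zero (hkl a ha hak), pow_zero]

end glob

section near

variable [CharZero K]

/-- the alternatives near a root of the difference of two branch points -/
theorem near_node {D : K[X]} [hDf : Fact (Irreducible D)] (hodd : Odd A.card) {i j : K[X]}
    (hi : i ∈ A) (hj : j ∈ A) (hij : i ≠ j) (hDij : D = i - j) {P P' : K[X] → K[X]}
    {m : K[X] → ℕ} (hPP : ∀ a ∈ A, P a = D ^ m a * P' a) (hP' : ∀ a ∈ A, ¬ D ∣ P' a) {c : K[X]}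
    (hc : ¬ D ∣ c) (hd : ∀ a ∈ A, ∀ b ∈ A, a ≠ b → ¬ (a = i ∧ b = j) → ¬ (a = j ∧ b = i) →
      ¬ D ∣ a - b) (halt : Alt A P)
    (hprod : IsSquare (algebraMap K[X] (RatFunc K) (c * ∏ a ∈ A, P a))) :
    ∃ Y : Finset (AdjoinRoot D), ∀ (i0 : PlF (AdjoinRoot D)) (φ : RatFunc K →+* i0.Lv) (ε : i0.Lv),
      UnitOn Y i0 → Near (AdjoinRoot.root D) i0 φ ε →
      (Even (m i) ∧ Sq (φ (algebraMap K[X] (RatFunc K) (P i * P j)))) ∨
      ∀ l ∈ A, l ≠ i → l ≠ j → Sq (φ (algebraMap K[X] (RatFunc K) (P l * (i - l)))) := by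
  classical
  have hD : Irreducible D := hDf.out
  set ρ := AdjoinRoot.root D with hρ
  have hmk : ∀ p : K[X], aeval ρ p = AdjoinRoot.mk D p := fun p => AdjoinRoot.aeval_eq p
  refine ⟨Yp ρ D ∪ Yp ρ c ∪ A.biUnion (fun a => Yp ρ (P' a)) ∪
    A.biUnion (fun a => A.biUnion fun b => Yp ρ (a - b)), ?_⟩
  intro i0 φ ε hY hn
  have hu := ultra i0.v
  have hinj := RatFunc.algebraMap_injective K
  have yD : UnitOn (Yp ρ D) i0 := fun z hz => hY z (by
    simp only [Finset.mem_union, hz, true_or])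
  have yc : UnitOn (Yp ρ c) i0 := fun z hz => hY z (by
    simp only [Finset.mem_union, hz, true_or, or_true])
  have yP : ∀ a ∈ A, UnitOn (Yp ρ (P' a)) i0 := fun a ha z hz => hY z (by
    rw [Finset.mem_union, Finset.mem_union]
    exact Or.inl (Or.inr (Finset.mem_biUnion.2 ⟨a, ha, hz⟩)))
  have yd : ∀ a ∈ A, ∀ b ∈ A, UnitOn (Yp ρ (a - b)) i0 := fun a ha b hb z hz => hY z (by
    rw [Finset.mem_union]
    exact Or.inr (Finset.mem_biUnion.2 ⟨a, ha, Finset.mem_biUnion.2 ⟨b, hb, hz⟩⟩))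
  have hne : ∀ {p : K[X]}, ¬ D ∣ p → aeval ρ p ≠ 0 := by
    intro p hp h
    rw [hmk, AdjoinRoot.mk_eq_zero] at h
    exact hp h
  have nD : ‖φ (algebraMap K[X] (RatFunc K) D)‖ = ‖ε‖ := (norm_near_pow (m := 0) hc hn yD yc).1
  have nc : ‖φ (algebraMap K[X] (RatFunc K) c)‖ = 1 := (near_unit yc hn (hne hc)).1
  have hP0 : ∀ a ∈ A, P a ≠ 0 := by
    intro a ha
    rw [hPP a ha]
    refine mul_ne_zero (pow_ne_zero _ hD.ne_zero) ?_
    intro h
    exact hP' a ha (by rw [h]; exact dvd_zero _)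
  have hφ : ∀ {p : K[X]}, p ≠ 0 → φ (algebraMap K[X] (RatFunc K) p) ≠ 0 := fun h =>
    (_root_.map_ne_zero _).2 ((map_ne_zero_iff _ hinj).2 h)
  have hc0 : c ≠ 0 := by
    rintro rfl
    exact hc (dvd_zero _)
  have key := node_alt (L := i0.Lv) A hodd (fun a => φ (algebraMap K[X] (RatFunc K) a))
    (fun a => φ (algebraMap K[X] (RatFunc K) (P a))) (fun a ha => hφ (hP0 a ha)) hi hj hij ?_ ?_
    (halt ⟨i0.L, i0.v, φ⟩) hn.ne hn.lt hn.dv m ?_
    (d := φ (algebraMap K[X] (RatFunc K) c)) nc ?_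
  · rcases key with ⟨h1, h2⟩ | h
    · left
      refine ⟨h1, ?_⟩
      rw [map_mul, map_mul]
      exact h2
    · right
      intro l hl h1 h2
      rw [map_mul, map_mul, map_sub, map_sub]
      exact h l hl h1 h2
  · rw [← map_sub, ← map_sub, ← hDij, nD]
    exact hn.lt
  · intro a ha b hb hab h1 h2
    have h3 := (near_unit (yd a ha b hb) hn (hne (hd a ha b hb hab h1 h2))).1
    rw [← h3, map_sub, map_sub]
  · intro a ha
    change ‖φ (algebraMap K[X] (RatFunc K) (P a))‖ = ‖ε‖ ^ m a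
    rw [hPP a ha]
    exact (norm_near_pow (hP' a ha) hn yD (yP a ha)).2
  · rw [← map_prod, ← map_prod, ← map_mul, ← map_mul]
    refine sq_of_isSq (i := ⟨i0.L, i0.v, φ⟩) ?_ hprod
    exact (map_ne_zero_iff _ hinj).2 (mul_ne_zero hc0 (Finset.prod_ne_zero_iff.2 hP0))

/-- from the local points near a root of `D` to the residue field -/
theorem near_or [hess : Algebra.EssFiniteType ℚ K] (hF : S_FrobRes) {D : K[X]}
    [hDf : Fact (Irreducible D)] {p1 p2 : K[X]} (h1 : ¬ D ∣ p1) (h2 : ¬ D ∣ p2)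
    (Y : Finset (AdjoinRoot D))
    (h : ∀ (i0 : PlF (AdjoinRoot D)) (φ : RatFunc K →+* i0.Lv) (ε : i0.Lv), UnitOn Y i0 →
      Near (AdjoinRoot.root D) i0 φ ε → Sq (φ (algebraMap K[X] (RatFunc K) p1)) ∨
        Sq (φ (algebraMap K[X] (RatFunc K) p2))) :
    (∃ z, D ∣ p1 - z ^ 2) ∨ ∃ z, D ∣ p2 - z ^ 2 := by
  classical
  have hD : Irreducible D := hDf.out
  set ρ := AdjoinRoot.root D with hρ
  haveI : CharZero (AdjoinRoot D) :=
    charZero_of_injective_algebraMap (AdjoinRoot.of D).injective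
  have hmk : ∀ p : K[X], aeval ρ p = AdjoinRoot.mk D p := fun p => AdjoinRoot.aeval_eq p
  haveI : Module.Finite K (AdjoinRoot D) := (AdjoinRoot.powerBasis hD.ne_zero).finite
  have hessL : Algebra.EssFiniteType ℚ (AdjoinRoot D) := by
    have h1 : Algebra.EssFiniteType K (AdjoinRoot D) := inferInstance
    exact Algebra.EssFiniteType.comp ℚ K (AdjoinRoot D)
  have hne : ∀ {p : K[X]}, ¬ D ∣ p → aeval ρ p ≠ 0 := by
    intro p hp h
    rw [hmk, AdjoinRoot.mk_eq_zero] at h
    exact hp h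
  have key : IsSquare (aeval ρ p1) ∨ IsSquare (aeval ρ p2) := by
    refine isSquare_or hF (AdjoinRoot D) hessL (hne h1) (hne h2) (Y ∪ Yp ρ p1 ∪ Yp ρ p2) ?_
    intro i0 hi0
    have hu := ultra i0.v
    obtain ⟨φ, ε, n1, n2, n3, n4⟩ := exists_near_root (K := K) i0 (i0.φ ρ)
    have hn : Near ρ i0 φ ε := ⟨n1, n2, n3, n4⟩
    have hY : UnitOn Y i0 := fun c hc => hi0 c (by simp [hc])
    have hY1 : UnitOn (Yp ρ p1) i0 := fun c hc => hi0 c (by
      simp only [Finset.mem_union, hc, true_or, or_true])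
    have hY2 : UnitOn (Yp ρ p2) i0 := fun c hc => hi0 c (by
      simp only [Finset.mem_union, hc, or_true])
    rcases h i0 φ ε hY hn with s | s
    · exact Or.inl (Sq.congr' (near_unit hY1 hn (hne h1)).2 s)
    · exact Or.inr (Sq.congr' (near_unit hY2 hn (hne h2)).2 s)
  have fin : ∀ {p : K[X]}, IsSquare (aeval ρ p) → ∃ z, D ∣ p - z ^ 2 := by
    rintro p ⟨w, hw⟩
    obtain ⟨z, rfl⟩ := AdjoinRoot.mk_surjective w
    refine ⟨z, ?_⟩
    rw [← AdjoinRoot.mk_eq_zero, map_sub, map_pow, ← hmk, hw]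
    ring
  rcases key with h | h
  · exact Or.inl (fin h)
  · exact Or.inr (fin h)

end near

end Pool.Agent.Q308.BS
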