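import Pool.Agent.Q308.BS.GenB

/-!
Generic families of branch points in `K[S]`: the classes of the points of the hyperelliptic curve.
-/

set_option autoImplicit false
set_option linter.unusedSectionVars false

open Polynomial IsDedekindDomain NumberField

namespace Pool.Agent.Q308.BS

open Pool.Agent.TH954 Pool.Agent.Y791.BS Pool.Agent.Y791.BF Pool.Agent.Y791.BF.Types
  Pool.Agent.Y791.BC Pool.Agent.Y791.BC.LegCls Pool.Agent.H918R3 Pool.Agent.H918R3.TB1

/-- stars -/
theorem star_lemma {ι : Type} (s : Finset ι) (hs : 2 < s.card) (e : ι → ι → ℕ)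
    (h01 : ∀ k l, e k l = 0 ∨ e k l = 1)
    (hsymm : ∀ k ∈ s, ∀ l ∈ s, k ≠ l → e k l = e l k)
    (hT : ∀ i ∈ s, ∀ j ∈ s, i ≠ j → e i j = 1 → ∀ l ∈ s, l ≠ i → l ≠ j →
      (∀ m ∈ s, m ≠ l → m ≠ i → m ≠ j → e l m = 0) ∧ e l i + e l j = 1) :
    (∀ k ∈ s, ∀ l ∈ s, k ≠ l → e k l = 0) ∨
      ∃ t ∈ s, ∀ k ∈ s, k ≠ t → e k t = 1 ∧ ∀ l ∈ s, l ≠ t → l ≠ k → e k l = 0 := by
  classical
  by_cases h : ∀ k ∈ s, ∀ l ∈ s, k ≠ l → e k l = 0
  · exact Or.inl h
  · right
    push Not at h
    obtain ⟨i, hi, j, hj, hij, hne⟩ := h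
    have hij1 : e i j = 1 := (h01 i j).resolve_left hne
    have key : ∀ i ∈ s, ∀ j ∈ s, i ≠ j → e i j = 1 → ∀ l ∈ s, l ≠ i → l ≠ j → e l i = 1 →
        ∃ t ∈ s, ∀ k ∈ s, k ≠ t → e k t = 1 ∧ ∀ l ∈ s, l ≠ t → l ≠ k → e k l = 0 := by
      intro i hi j hj hij hij1 l hl hli hlj hle
      have h1 : ∀ k ∈ s, k ≠ i → e k i = 1 := by
        intro k hk hki
        by_cases hkj : k = j
        · rw [hkj, ← hsymm i hi j hj hij]
          exact hij1
        · by_cases hkl : k = l
          · rw [hkl]; exact hle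
          · have h2 := hT i hi l hl hli.symm (by rw [hsymm i hi l hl hli.symm]; exact hle) k hk hki hkl
            have h3 := (hT i hi j hj hij hij1 l hl hli hlj).1 k hk hkl hki hkj
            rw [hsymm l hl k hk (Ne.symm hkl)] at h3
            omega
      refine ⟨i, hi, fun k hk hki => ⟨h1 k hk hki, fun l' hl' h2 h3 => ?_⟩⟩
      have h4 := hT i hi l' hl' h2.symm (by rw [hsymm i hi l' hl' h2.symm]; exact h1 l' hl' h2) k hk
        hki (Ne.symm h3)
      have h5 := h1 k hk hki
      omega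
    obtain ⟨l, hl, hne'⟩ : ∃ l ∈ s, l ∉ ({i, j} : Finset ι) := by
      by_contra hcon
      push Not at hcon
      have h4 := Finset.card_le_card (fun t ht => hcon t ht : s ⊆ {i, j})
      have h5 : ({i, j} : Finset ι).card ≤ 2 := Finset.card_le_two
      omega
    simp only [Finset.mem_insert, Finset.mem_singleton, not_or] at hne'
    obtain ⟨hli, hlj⟩ := hne'
    have h2 := (hT i hi j hj hij hij1 l hl hli hlj).2
    rcases h01 l i with h3 | h3
    · refine key j hj i hi hij.symm (by rw [← hsymm i hi j hj hij]; exact hij1) l hl hlj hli ?_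
      omega
    · exact key i hi j hj hij hij1 l hl hli hlj h3

variable {K : Type} [Field K] [CharZero K] [hess : Algebra.EssFiniteType ℚ K]

theorem const_of_mod {D : K[X]} (hD : Irreducible D) (hodd : Odd D.natDegree) {d : K} {w z : K[X]}
    (hw : ¬ D ∣ w) (h : D ∣ C d * w ^ 2 - z ^ 2) : IsSquare d := by
  haveI : Fact (Irreducible D) := ⟨hD⟩
  refine Pool.Agent.TH115.GD.const_sq hD hodd ?_
  rw [Pool.Agent.TH115.GD.sqMod_iff]
  refine ⟨AdjoinRoot.mk D z / AdjoinRoot.mk D w, ?_⟩
  have hDw : AdjoinRoot.mk D w ≠ 0 := by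
    rw [Ne, AdjoinRoot.mk_eq_zero]
    exact hw
  have h5 : AdjoinRoot.mk D (C d) * AdjoinRoot.mk D w ^ 2 = AdjoinRoot.mk D z ^ 2 := by
    have := (AdjoinRoot.mk_eq_mk).2 h
    rw [map_mul, map_pow, map_pow] at this
    exact this
  field_simp
  linear_combination h5

/-- **The classes of a point of a generic hyperelliptic curve.** -/
theorem gen_squares {A : Finset K[X]} (hA : Generic A) (hodd : Odd A.card) (hcard : 2 < A.card)
    {c : K} (hc : c ≠ 0) {P : K[X] → K[X]} (hP : ∀ a ∈ A, P a ≠ 0) (halt : Alt A P)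
    (hprod : IsSquare (algebraMap K[X] (RatFunc K) (C c * ∏ a ∈ A, P a))) :
    (∀ a ∈ A, ∀ b ∈ A, IsSquare (algebraMap K[X] (RatFunc K) (P a * P b))) ∨
      ∃ s ∈ A, ∀ k ∈ A, k ≠ s → IsSquare (algebraMap K[X] (RatFunc K) (P k * (s - k))) := by
  classical
  have hF : S_FrobRes := FrobRes.main
  have hEmb : S_EmbFG := EmbFG.main hF
  have hinj := RatFunc.algebraMap_injective K
  set cx : K[X] →+* RatFunc K := algebraMap K[X] (RatFunc K) with hcx
  have hcC : (C c : K[X]) ≠ 0 := C_ne_zero.2 hc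
  have hcρ : ∀ ρ : AlgebraicClosure K, aeval ρ (C c : K[X]) ≠ 0 := fun ρ => by
    rw [aeval_C]
    exact (_root_.map_ne_zero _).2 hc
  have hs0 : ∀ {a b : K[X]}, a ≠ b → a - b ≠ 0 := fun h => sub_ne_zero.2 h
  -- roots
  have hrt : ∀ q : K[X], ∃ ρ : AlgebraicClosure K, Irreducible q → aeval ρ q = 0 := by
    intro q
    by_cases hq : Irreducible q
    · obtain ⟨ρ, hρ⟩ := IsAlgClosed.exists_aeval_eq_zero (AlgebraicClosure K) q
        (degree_pos_of_irreducible hq).ne'
      exact ⟨ρ, fun _ => hρ⟩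
    · exact ⟨0, fun h => absurd h hq⟩
  choose rt hrt using hrt
  set e : K[X] → K[X] → ℕ := fun k l => mu (P k) (rt (k - l)) % 2 with he
  have h01 : ∀ k l, e k l = 0 ∨ e k l = 1 := fun k l => by
    have := Nat.mod_lt (mu (P k) (rt (k - l))) two_pos
    change mu (P k) (rt (k - l)) % 2 = 0 ∨ mu (P k) (rt (k - l)) % 2 = 1
    omega
  have hE : ∀ k ∈ A, ∀ l ∈ A, k ≠ l → ∀ ρ : AlgebraicClosure K, aeval ρ (k - l) = 0 →
      mu (P k) ρ % 2 = e k l := by
    intro k hk l hl hkl ρ hρ
    have hirr := hA.irr k hk l hl hkl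
    rw [mu_conj (P k) (conj_of_irr hirr hρ (hrt _ hirr))]
  have hnv : ∀ k ∈ A, ∀ l ∈ A, k ≠ l → ∀ ρ : AlgebraicClosure K, aeval ρ (k - l) = 0 →
      ∀ a ∈ A, ∀ b ∈ A, a ≠ b → ¬ (a = k ∧ b = l) → ¬ (a = l ∧ b = k) → aeval ρ (a - b) ≠ 0 := by
    intro k hk l hl hkl ρ hρ a ha b hb hab h1 h2 h0
    have hirr := hA.irr k hk l hl hkl
    have hi : IsIntegral K ρ := Algebra.IsIntegral.isIntegral ρ
    have h3 : Associated (minpoly K ρ) (k - l) :=
      (minpoly.irreducible hi).associated_of_dvd hirr (minpoly.dvd K ρ hρ)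
    exact hA.ndvd hk hl hkl ha hb hab h1 h2 (h3.symm.dvd.trans (minpoly.dvd K ρ h0))
  have hneg : ∀ {ρ : AlgebraicClosure K} {k l : K[X]}, aeval ρ (k - l) = 0 → aeval ρ (l - k) = 0 := by
    intro ρ k l h
    rw [← neg_sub, map_neg, h, neg_zero]
  have hsymm : ∀ k ∈ A, ∀ l ∈ A, k ≠ l → e k l = e l k := by
    intro k hk l hl hkl
    have hirr := hA.irr k hk l hl hkl
    have hρ := hrt _ hirr
    set ρ := rt (k - l) with hρd
    obtain ⟨h1, h2⟩ := loc_par hEmb hP halt hcC hprod hodd (hcρ ρ)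
    have h3 : ∀ m ∈ A, m ≠ k → m ≠ l → Even (mu (P m) ρ) := by
      intro m hm hmk hml
      refine h2 m hm fun l' hl' h4 => ?_
      exact hnv k hk l hl hkl ρ hρ m hm l' hl' h4.symm (fun h => hmk h.1) (fun h => hml h.1)
    rw [← Finset.add_sum_erase A _ hk, ← Finset.add_sum_erase (A.erase k) _
      (Finset.mem_erase.2 ⟨hkl.symm, hl⟩), ← add_assoc, Nat.even_add] at h1
    have h4 : Even (mu (P k) ρ + mu (P l) ρ) := by
      refine h1.2 (Finset.even_sum _ fun m hm => ?_)
      obtain ⟨m1, m2⟩ := Finset.mem_erase.1 hm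
      obtain ⟨m3, m4⟩ := Finset.mem_erase.1 m2
      exact h3 m m4 m3 m1
    have h5 := hE k hk l hl hkl ρ hρ
    have h6 := hE l hl k hk hkl.symm ρ (hneg hρ)
    rw [← h5, ← h6]
    obtain ⟨n, hn⟩ := h4
    omega
  -- representatives
  set W : K[X] → K[X] := fun k => ∏ l ∈ A.erase k, (k - l) ^ e k l with hW
  have hW0 : ∀ k, W k ≠ 0 := by
    intro k
    refine Finset.prod_ne_zero_iff.2 fun l hl => pow_ne_zero _ (hs0 ?_)
    exact (Finset.ne_of_mem_erase hl).symm
  have hrep : ∀ k : K[X], ∃ (d : K) (h : K[X]), k ∈ A → d ≠ 0 ∧ P k * W k = C d * h ^ 2 := by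
    intro k
    by_cases hk : k ∈ A
    · obtain ⟨d, h, hd, hh⟩ := pow_const (l := 2) _ (P k * W k) (mul_ne_zero (hP k hk) (hW0 k)) rfl (by
        intro ρ
        change 2 ∣ mu (P k * W k) ρ
        have hmuW : mu (W k) ρ = ∑ l ∈ A.erase k, e k l * mu (k - l) ρ := by
          rw [hW, mu_prod _ (fun l => (k - l) ^ e k l) (fun l hl => pow_ne_zero _
            (hs0 (Finset.ne_of_mem_erase hl).symm))]
          exact Finset.sum_congr rfl fun l _ => mu_pow _ _ _
        rw [mu_mul (hP k hk) (hW0 k), hmuW]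
        by_cases hex : ∃ l0 ∈ A.erase k, aeval ρ (k - l0) = 0
        · obtain ⟨l0, hl0, h0⟩ := hex
          obtain ⟨hne, hl0A⟩ := Finset.mem_erase.1 hl0
          have hirr := hA.irr k hk l0 hl0A hne.symm
          rw [Finset.sum_eq_single_of_mem l0 hl0, mu_irr hirr h0, mul_one]
          · have h5 := hE k hk l0 hl0A hne.symm ρ h0
            omega
          · intro b hb hbl
            obtain ⟨hbk, hbA⟩ := Finset.mem_erase.1 hb
            rw [mu_eq_zero (hnv k hk l0 hl0A hne.symm ρ h0 k hk b hbA hbk.symm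
              (fun h => hbl h.2) (fun h => hne h.1.symm)), mul_zero]
        · push Not at hex
          rw [Finset.sum_eq_zero, add_zero]
          · obtain ⟨-, h2⟩ := loc_par hEmb hP halt hcC hprod hodd (hcρ ρ)
            exact (h2 k hk fun l hl hlk => hex l (Finset.mem_erase.2 ⟨hlk, hl⟩)).two_dvd
          · intro l hl
            rw [mu_eq_zero (hex l hl), mul_zero])
      exact ⟨d, h, fun _ => ⟨hd, hh⟩⟩
    · exact ⟨1, 0, fun h => absurd h hk⟩
  choose d h hdh using hrep
  set R : K[X] → K[X] := fun k => C (d k) * W k with hR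
  have hh0 : ∀ k ∈ A, h k ≠ 0 := by
    intro k hk h0
    have h1 := (hdh k hk).2
    rw [h0, zero_pow two_ne_zero, mul_zero] at h1
    exact mul_ne_zero (hP k hk) (hW0 k) h1
  have hRP : ∀ k ∈ A, R k * (h k) ^ 2 = P k * (W k) ^ 2 := by
    intro k hk
    have h1 := (hdh k hk).2
    change C (d k) * W k * (h k) ^ 2 = _
    linear_combination (-W k) * h1
  -- transfer
  have trS : ∀ k ∈ A, ∀ {Lv : Type} [NormedField Lv] [IsUltrametricDist Lv] (φ : RatFunc K →+* Lv)
      (t : K[X]), Sq (φ (cx (P k * t))) → Sq (φ (cx (R k * t))) := by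
    intro k hk Lv _ _ φ t hS
    have hφ : ∀ {p : K[X]}, p ≠ 0 → φ (cx p) ≠ 0 := fun h =>
      (_root_.map_ne_zero _).2 ((map_ne_zero_iff _ hinj).2 h)
    refine Sq.of_mul (Sq.sq (hφ (hh0 k hk))) ?_
    have e1 : φ (cx (R k * t)) * φ (cx (h k)) ^ 2 = φ (cx (P k * t)) * φ (cx (W k)) ^ 2 := by
      rw [← map_pow, ← map_pow, ← map_mul, ← map_mul, ← map_pow, ← map_pow, ← map_mul, ← map_mul]
      congr 2
      linear_combination t * hRP k hk
    rw [e1]
    exact hS.mul (Sq.sq (hφ (hW0 k)))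
  have trI : ∀ k ∈ A, ∀ t : K[X], IsSquare (cx (R k * t)) → IsSquare (cx (P k * t)) := by
    rintro k hk t ⟨r, hr⟩
    refine ⟨r * cx (h k) / cx (W k), ?_⟩
    have hWk : cx (W k) ≠ 0 := (map_ne_zero_iff _ hinj).2 (hW0 k)
    have e1 : cx (R k * t) * cx (h k) ^ 2 = cx (P k * t) * cx (W k) ^ 2 := by
      rw [← map_pow, ← map_pow, ← map_mul, ← map_mul]
      congr 1
      linear_combination t * hRP k hk
    rw [hr] at e1
    field_simp
    linear_combination -e1
  -- the alternatives at the nodes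
  have hnode : ∀ i ∈ A, ∀ j ∈ A, i ≠ j → ∀ [Fact (Irreducible (i - j))],
      ∃ Y : Finset (AdjoinRoot (i - j)),
      ∀ (i0 : PlF (AdjoinRoot (i - j))) (φ : RatFunc K →+* i0.Lv) (ε : i0.Lv), UnitOn Y i0 →
      Near (AdjoinRoot.root (i - j)) i0 φ ε →
      (e i j = 0 ∧ Sq (φ (cx (P i * P j)))) ∨
      ∀ l ∈ A, l ≠ i → l ≠ j → Sq (φ (cx (P l * (i - l)))) := by
    intro i hi j hj hij _
    have hirr := hA.irr i hi j hj hij
    have hex : ∀ a : K[X], ∃ Q : K[X], a ∈ A → P a = (i - j) ^ multiplicity (i - j) (P a) * Q ∧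
        ¬ (i - j) ∣ Q := by
      intro a
      by_cases ha : a ∈ A
      · obtain ⟨Q, q1, q2⟩ :=
          (FiniteMultiplicity.of_prime_left hirr.prime (hP a ha)).exists_eq_pow_mul_and_not_dvd
        exact ⟨Q, fun _ => ⟨q1, q2⟩⟩
      · exact ⟨0, fun h => absurd h ha⟩
    choose P' hP' using hex
    obtain ⟨Y, hY⟩ := near_node (D := i - j) hodd hi hj hij rfl
      (m := fun a => multiplicity (i - j) (P a)) (fun a ha => (hP' a ha).1)
      (fun a ha => (hP' a ha).2) (c := C c) (fun hd => hirr.not_isUnit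
        (isUnit_of_dvd_unit hd (isUnit_C.2 (isUnit_iff_ne_zero.2 hc))))
      (fun a ha b hb hab h1 h2 => hA.ndvd hi hj hij ha hb hab h1 h2) halt hprod
    refine ⟨Y, fun i0 φ ε hu hn => ?_⟩
    rcases hY i0 φ ε hu hn with ⟨h1, h2⟩ | h1
    · refine Or.inl ⟨?_, h2⟩
      have h3 := hrt _ hirr
      have h4 : mu (P i) (rt (i - j)) = multiplicity (i - j) (P i) :=
        mu_of_irr hirr (hP' i hi).1 (hP' i hi).2 h3
      change mu (P i) (rt (i - j)) % 2 = 0
      rw [h4]
      exact Nat.even_iff.1 h1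
    · exact Or.inr h1
  -- the representatives are not divisible
  have hRnd : ∀ i ∈ A, ∀ j ∈ A, i ≠ j → ∀ l ∈ A, l ≠ i → l ≠ j → ¬ (i - j) ∣ R l * (i - l) := by
    intro i hi j hj hij l hl hli hlj hd
    have hirr := hA.irr i hi j hj hij
    rcases hirr.prime.dvd_or_dvd hd with h1 | h1
    · rcases hirr.prime.dvd_or_dvd h1 with h2 | h2
      · exact hirr.not_isUnit (isUnit_of_dvd_unit h2
          (isUnit_C.2 (isUnit_iff_ne_zero.2 (hdh l hl).1)))
      · obtain ⟨m, hm, h3⟩ := (Prime.dvd_finsetProd_iff hirr.prime _).1 h2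
        obtain ⟨hml, hmA⟩ := Finset.mem_erase.1 hm
        exact hA.ndvd hi hj hij hl hmA hml.symm (fun h => hli h.1) (fun h => hlj h.1)
          (hirr.prime.dvd_of_dvd_pow h3)
    · exact hA.ndvd hi hj hij hi hl hli.symm (fun h => hlj h.2) (fun h => hij h.1) h1
  -- the pattern given by a square
  have pat : ∀ i ∈ A, ∀ j ∈ A, i ≠ j → ∀ l ∈ A, l ≠ i → l ≠ j →
      (∃ z, (i - j) ∣ R l * (i - l) - z ^ 2) →
      (∀ m ∈ A, m ≠ l → m ≠ i → m ≠ j → e l m = 0) ∧ e l i + e l j = 1 := by
    rintro i hi j hj hij l hl hli hlj ⟨z, hz⟩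
    have hirr := hA.irr i hi j hj hij
    have hlm : l ∈ A.erase j := Finset.mem_erase.2 ⟨hlj, hl⟩
    have him : i ∈ A.erase j := Finset.mem_erase.2 ⟨hij, hi⟩
    let f : K[X] → ℕ := fun m => e l m + if m = i then e l j else 0
    let E : K[X] → K[X] → ℕ := fun k m => row l f k m + sing i l k m
    have hmk : AdjoinRoot.mk (i - j) j = AdjoinRoot.mk (i - j) i := by
      rw [eq_comm, ← sub_eq_zero, ← map_sub, AdjoinRoot.mk_self]
    have hPP : AdjoinRoot.mk (i - j) (R l * (i - l)) =
        AdjoinRoot.mk (i - j) (C (d l) * PP (A.erase j) E) := by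
      have e1 : PP (A.erase j) E = (∏ m ∈ (A.erase j).erase l, (l - m) ^ f m) * (i - l) := by
        change PP (A.erase j) (fun k m => row l f k m + sing i l k m) = _
        rw [PP_add, PP_row _ hlm, PP_sing _ him hlm (Ne.symm hli)]
      have e2 : ∏ m ∈ (A.erase j).erase l, (l - m) ^ f m =
          (∏ m ∈ (A.erase j).erase l, (l - m) ^ e l m) * (l - i) ^ e l j := by
        change ∏ m ∈ (A.erase j).erase l, (l - m) ^ (e l m + if m = i then e l j else 0) = _
        simp_rw [pow_add]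
        rw [Finset.prod_mul_distrib]
        congr 1
        rw [Finset.prod_eq_single_of_mem i (Finset.mem_erase.2 ⟨Ne.symm hli, him⟩)]
        · rw [if_pos rfl]
        · intro b _ hb
          rw [if_neg hb, pow_zero]
      have e3 : W l = (l - j) ^ e l j * ∏ m ∈ (A.erase j).erase l, (l - m) ^ e l m := by
        rw [hW, Finset.erase_right_comm]
        exact (Finset.mul_prod_erase (A.erase l) (fun m => (l - m) ^ e l m)
          (Finset.mem_erase.2 ⟨hlj.symm, hj⟩)).symm
      change AdjoinRoot.mk (i - j) (C (d l) * W l * (i - l)) = _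
      rw [e1, e2, e3]
      simp only [map_mul, map_pow, map_sub, hmk]
      ring
    have hdvd : (i - j) ∣ C (d l) * PP (A.erase j) E - z ^ 2 := by
      rw [← AdjoinRoot.mk_eq_mk, ← hPP, AdjoinRoot.mk_eq_mk]
      exact hz
    have hev := hA.ind i hi j hj hij (d l) E z (hdh l hl).1 hdvd
    constructor
    · intro m hm hml hmi hmj
      have h1 := hev l hlm m (Finset.mem_erase.2 ⟨hmj, hm⟩) hml.symm
      have h2 : E l m = e l m := by
        change (row l f l m + sing i l l m) = _
        unfold row sing row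
        rw [if_pos rfl, if_neg hli, add_zero]
        change e l m + (if m = i then e l j else 0) = _
        rw [if_neg hmi, add_zero]
      have h3 : E m l = 0 := by
        change (row l f m l + sing i l m l) = _
        unfold row sing row
        rw [if_neg hml, if_neg hmi]
      rw [h2, h3, add_zero] at h1
      rcases h01 l m with h4 | h4
      · exact h4
      · rw [h4] at h1
        exact absurd h1 (by decide)
    · have h1 := hev l hlm i him hli
      have h2 : E l i = e l i + e l j := by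
        change (row l f l i + sing i l l i) = _
        unfold row sing row
        rw [if_pos rfl, if_neg hli, add_zero]
        change e l i + (if i = i then e l j else 0) = _
        rw [if_pos rfl]
      have h3 : E i l = 1 := by
        change (row l f i l + sing i l i l) = _
        rw [sing_self]
        unfold row
        rw [if_neg (Ne.symm hli)]
      rw [h2, h3] at h1
      rcases h01 l i with h4 | h4 <;> rcases h01 l j with h5 | h5 <;> rw [h4, h5] at h1 ⊢
      · exact absurd h1 (by decide)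
      · exact absurd h1 (by decide)
  -- the edges
  have edge : ∀ i ∈ A, ∀ j ∈ A, i ≠ j → e i j = 1 → ∀ l ∈ A, l ≠ i → l ≠ j →
      ∃ z, (i - j) ∣ R l * (i - l) - z ^ 2 := by
    intro i hi j hj hij hij1 l hl hli hlj
    have hirr := hA.irr i hi j hj hij
    haveI : Fact (Irreducible (i - j)) := ⟨hirr⟩
    obtain ⟨Y, hY⟩ := hnode i hi j hj hij
    have h1 := near_or hF (hRnd i hi j hj hij l hl hli hlj) (hRnd i hi j hj hij l hl hli hlj) Y
      (fun i0 φ ε hu hn => by
        have hul := ultra i0.v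
        rcases hY i0 φ ε hu hn with ⟨h2, -⟩ | h2
        · rw [hij1] at h2
          exact absurd h2 one_ne_zero
        · exact Or.inl (trS l hl φ _ (h2 l hl hli hlj)))
    rcases h1 with h1 | h1 <;> exact h1
  have third : ∀ i j : K[X], ∃ l ∈ A, l ≠ i ∧ l ≠ j := by
    intro i j
    by_contra hcon
    push Not at hcon
    have h4 := Finset.card_le_card (fun t ht => by
      rw [Finset.mem_insert, Finset.mem_singleton]
      by_cases hti : t = i
      · exact Or.inl hti
      · exact Or.inr (hcon t ht hti) : A ⊆ {i, j})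
    have h5 : ({i, j} : Finset K[X]).card ≤ 2 := Finset.card_le_two
    omega
  rcases star_lemma A hcard e h01 hsymm (fun i hi j hj hij hij1 l hl hli hlj =>
    pat i hi j hj hij l hl hli hlj (edge i hi j hj hij hij1 l hl hli hlj)) with hz | ⟨t, ht, hst⟩
  · -- no edges
    left
    have hW1 : ∀ k ∈ A, W k = 1 := by
      intro k hk
      refine Finset.prod_eq_one fun l hl => ?_
      obtain ⟨hlk, hlA⟩ := Finset.mem_erase.1 hl
      rw [hz k hk l hlA hlk.symm, pow_zero]
    intro i hi j hj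
    by_cases hij : i = j
    · rw [hij, map_mul]
      exact ⟨_, rfl⟩
    · have hirr := hA.irr i hi j hj hij
      haveI : Fact (Irreducible (i - j)) := ⟨hirr⟩
      obtain ⟨Y, hY⟩ := hnode i hi j hj hij
      obtain ⟨l, hl, hli, hlj⟩ := third i j
      have hRi : R i = C (d i) := by
        change C (d i) * W i = _
        rw [hW1 i hi, mul_one]
      have hRj : R j = C (d j) := by
        change C (d j) * W j = _
        rw [hW1 j hj, mul_one]
      have hdd : d i * d j ≠ 0 := mul_ne_zero (hdh i hi).1 (hdh j hj).1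
      have hnd : ¬ (i - j) ∣ R i * R j := by
        rw [hRi, hRj, ← C_mul]
        exact fun hd => hirr.not_isUnit
          (isUnit_of_dvd_unit hd (isUnit_C.2 (isUnit_iff_ne_zero.2 hdd)))
      have h1 := near_or hF hnd (hRnd i hi j hj hij l hl hli hlj) Y
        (fun i0 φ ε hu hn => by
          have hul := ultra i0.v
          rcases hY i0 φ ε hu hn with ⟨-, h2⟩ | h2
          · left
            have h3 := trS i hi φ _ h2
            rw [mul_comm (R i)] at h3
            have h4 := trS j hj φ _ h3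
            rw [mul_comm (R j)] at h4
            exact h4
          · exact Or.inr (trS l hl φ _ (h2 l hl hli hlj)))
      rcases h1 with ⟨z, h1⟩ | h1
      · have hsq : IsSquare (d i * d j) := by
          refine const_of_mod hirr (hA.odd i hi j hj hij) (w := 1) (z := z) ?_ ?_
          · exact fun hd => hirr.not_isUnit (isUnit_of_dvd_one hd)
          · rw [one_pow, mul_one, C_mul, ← hRi, ← hRj]
            exact h1
        obtain ⟨r, hr⟩ := hsq
        have h2 : IsSquare (cx (R i * R j)) := by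
          refine ⟨cx (C r), ?_⟩
          rw [hRi, hRj, ← C_mul, hr, C_mul, map_mul]
        have h3 := trI i hi _ h2
        rw [mul_comm (P i)] at h3
        have h4 := trI j hj _ h3
        rwa [mul_comm (P j)] at h4
      · obtain ⟨-, h2⟩ := pat i hi j hj hij l hl hli hlj h1
        rw [hz l hl i hi hli, hz l hl j hj hlj] at h2
        exact absurd h2 (by norm_num)
  · -- a star
    right
    refine ⟨t, ht, fun k hk hkt => ?_⟩
    obtain ⟨j, hj, hjt, hjk⟩ := third t k
    have hirr := hA.irr t ht j hj (Ne.symm hjt)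
    have hetj : e t j = 1 := by
      rw [hsymm t ht j hj (Ne.symm hjt)]
      exact (hst j hj hjt).1
    obtain ⟨z, hz⟩ := edge t ht j hj (Ne.symm hjt) hetj k hk hkt (Ne.symm hjk)
    have hWk : W k = k - t := by
      change ∏ l ∈ A.erase k, (k - l) ^ e k l = _
      rw [Finset.prod_eq_single_of_mem t (Finset.mem_erase.2 ⟨Ne.symm hkt, ht⟩),
        (hst k hk hkt).1, pow_one]
      intro b hb hbt
      obtain ⟨hbk, hbA⟩ := Finset.mem_erase.1 hb
      rw [(hst k hk hkt).2 b hbA hbt hbk, pow_zero]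
    have hRk : R k * (t - k) = C (-d k) * (t - k) ^ 2 := by
      change C (d k) * W k * (t - k) = _
      rw [hWk, C_neg]
      ring
    rw [hRk] at hz
    have hsq : IsSquare (-d k) := by
      refine const_of_mod hirr (hA.odd t ht j hj (Ne.symm hjt)) (w := t - k) (z := z) ?_ hz
      exact hA.ndvd ht hj (Ne.symm hjt) ht hk (Ne.symm hkt) (fun h => hjk h.2.symm)
        (fun h => hjt h.1.symm)
    obtain ⟨r, hr⟩ := hsq
    refine trI k hk _ ?_
    rw [hRk, hr]
    refine ⟨cx (C r * (t - k)), ?_⟩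
    rw [← map_mul]
    congr 1
    rw [C_mul]
    ring

end Pool.Agent.Q308.BS
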