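import Pool.Agent.Q308.BS.GenC

/-!
The two-Selmer group of an elliptic curve with generic rational points of order two.
-/

set_option autoImplicit false
set_option linter.unusedSectionVars false

open Polynomial IsDedekindDomain NumberField WeierstrassCurve

namespace Pool.Agent.Q308.BS

open Pool.Agent.TH954 Pool.Agent.Y791.BS Pool.Agent.Y791.BF Pool.Agent.Y791.BF.Types
  Pool.Agent.Y791.BC Pool.Agent.Y791.BC.LegCls Pool.Agent.H918R3 Pool.Agent.H918R3.TB1

section alg

variable {L : Type} [Field L]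

theorem isSq_div {u r : L} (hr : r ≠ 0) (h : IsSquare (u * r ^ 2)) : IsSquare u := by
  obtain ⟨s, hs⟩ := h
  refine ⟨s / r, ?_⟩
  field_simp
  linear_combination hs

/-- the classes of a point -/
theorem pt_alt {f1 f2 f3 : L} (h12 : f1 ≠ f2) (h13 : f1 ≠ f3) (h23 : f2 ≠ f3) (P : Pt f1 f2 f3)
    {c1 c2 : L} (k1 : IsSquare (c1 * dl f1 f2 f3 P)) (k2 : IsSquare (c2 * dl f2 f1 f3 P)) :
    (∃ x : L, IsSquare (c1 * (x - f1)) ∧ IsSquare (c2 * (x - f2)) ∧
      IsSquare (c1 * c2 * (x - f3))) ∨ (IsSquare c1 ∧ IsSquare c2) := by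
  rw [dl_eq] at k1 k2
  cases P with
  | zero =>
    change IsSquare (c1 * 1) at k1
    change IsSquare (c2 * 1) at k2
    rw [mul_one] at k1 k2
    exact Or.inr ⟨k1, k2⟩
  | some x y h =>
    left
    have hxy := crv_eqn.1 h.1
    rw [dlW_some] at k1 k2
    have hz : IsSquare (0 : L) := ⟨0, by rw [mul_zero]⟩
    by_cases hx1 : x = f1
    · rw [if_pos hx1] at k1
      rw [if_neg (by rw [hx1]; exact h12), hx1] at k2
      refine ⟨f1, by rw [sub_self, mul_zero]; exact hz, k2, ?_⟩
      refine isSq_div (sub_ne_zero.2 h12) ?_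
      have e : c1 * c2 * (f1 - f3) * (f1 - f2) ^ 2 =
          c1 * ((f1 - f2) * (f1 - f3)) * (c2 * (f1 - f2)) := by ring
      rw [e]
      exact k1.mul k2
    rw [if_neg hx1] at k1
    by_cases hx2 : x = f2
    · rw [if_pos hx2] at k2
      rw [hx2] at k1
      refine ⟨f2, k1, by rw [sub_self, mul_zero]; exact hz, ?_⟩
      refine isSq_div (sub_ne_zero.2 h12.symm) ?_
      have e : c1 * c2 * (f2 - f3) * (f2 - f1) ^ 2 =
          c2 * ((f2 - f1) * (f2 - f3)) * (c1 * (f2 - f1)) := by ring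
      rw [e]
      exact k2.mul k1
    rw [if_neg hx2] at k2
    refine ⟨x, k1, k2, ?_⟩
    refine isSq_div (mul_ne_zero (sub_ne_zero.2 hx1) (sub_ne_zero.2 hx2)) ?_
    have e : c1 * c2 * (x - f3) * ((x - f1) * (x - f2)) ^ 2 =
        c1 * (x - f1) * (c2 * (x - f2)) * (y * y) := by
      have : y * y = (x - f1) * (x - f2) * (x - f3) := by rw [← hxy]; ring
      rw [this]
      ring
    rw [e]
    exact (k1.mul k2).mul ⟨y, rfl⟩

end alg

variable {K : Type} [Field K] [CharZero K] [hess : Algebra.EssFiniteType ℚ K]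

/-- **The two-Selmer group of a generic curve.** -/
theorem sel_triple {a1 a2 a3 : K[X]} (n12 : a1 ≠ a2) (n13 : a1 ≠ a3) (n23 : a2 ≠ a3)
    {A : Finset K[X]} (hAe : ∀ a, a ∈ A ↔ a = a1 ∨ a = a2 ∨ a = a3) (hA : Generic A) {c : K}
    (hc : c ≠ 0) :
    SelTor (RatFunc K) 1 (algebraMap K[X] (RatFunc K) (C c * a1))
      (algebraMap K[X] (RatFunc K) (C c * a2)) (algebraMap K[X] (RatFunc K) (C c * a3)) := by
  classical
  intro c1 c2 hc1 hc2 hloc
  have hAeq : A = {a1, a2, a3} := by
    ext a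
    rw [hAe, Finset.mem_insert, Finset.mem_insert, Finset.mem_singleton]
  have hcard : A.card = 3 := by
    rw [hAeq]
    exact Finset.card_eq_three.2 ⟨a1, a2, a3, n12, n13, n23, rfl⟩
  have hchR : CharZero (RatFunc K) :=
    charZero_of_injective_algebraMap (algebraMap K (RatFunc K)).injective
  have h2R : (2 : RatFunc K) ≠ 0 := two_ne_zero
  have hinj := RatFunc.algebraMap_injective K
  set cx : K[X] →+* RatFunc K := algebraMap K[X] (RatFunc K) with hcx
  have hcC : (C c : K[X]) ≠ 0 := C_ne_zero.2 hc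
  have hcc : cx (C c) ≠ 0 := (map_ne_zero_iff _ hinj).2 hcC
  obtain ⟨Q1, w1, hQ1, hw1, k1⟩ := num_form hc1
  obtain ⟨Q2, w2, hQ2, hw2, k2⟩ := num_form hc2
  have hw1' : cx w1 ≠ 0 := (map_ne_zero_iff _ hinj).2 hw1
  have hw2' : cx w2 ≠ 0 := (map_ne_zero_iff _ hinj).2 hw2
  have hQ1' : cx Q1 ≠ 0 := (map_ne_zero_iff _ hinj).2 hQ1
  have hQ2' : cx Q2 ≠ 0 := (map_ne_zero_iff _ hinj).2 hQ2
  let P : K[X] → K[X] := fun a =>
    if a = a1 then C c * Q1 else if a = a2 then C c * Q2 else C c * (Q1 * Q2)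
  have P1 : P a1 = C c * Q1 := if_pos rfl
  have P2 : P a2 = C c * Q2 := by
    change (if a2 = a1 then C c * Q1 else if a2 = a2 then C c * Q2 else C c * (Q1 * Q2)) = _
    rw [if_neg n12.symm, if_pos rfl]
  have P3 : P a3 = C c * (Q1 * Q2) := by
    change (if a3 = a1 then C c * Q1 else if a3 = a2 then C c * Q2 else C c * (Q1 * Q2)) = _
    rw [if_neg n13.symm, if_neg n23.symm]
  have m1 : a1 ∈ A := (hAe _).2 (Or.inl rfl)
  have m2 : a2 ∈ A := (hAe _).2 (Or.inr (Or.inl rfl))
  have m3 : a3 ∈ A := (hAe _).2 (Or.inr (Or.inr rfl))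
  have hall : ∀ {p : K[X] → Prop}, p a1 → p a2 → p a3 → ∀ a ∈ A, p a := by
    intro p h1 h2 h3 a ha
    rcases (hAe a).1 ha with rfl | rfl | rfl
    · exact h1
    · exact h2
    · exact h3
  have hP : ∀ a ∈ A, P a ≠ 0 := by
    refine hall ?_ ?_ ?_
    · rw [P1]; exact mul_ne_zero hcC hQ1
    · rw [P2]; exact mul_ne_zero hcC hQ2
    · rw [P3]; exact mul_ne_zero hcC (mul_ne_zero hQ1 hQ2)
  have l12 : cx (C c * a1) ≠ cx (C c * a2) := fun h => n12 (mul_left_cancel₀ hcC (hinj h))
  have l13 : cx (C c * a1) ≠ cx (C c * a3) := fun h => n13 (mul_left_cancel₀ hcC (hinj h))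
  have l23 : cx (C c * a2) ≠ cx (C c * a3) := fun h => n23 (mul_left_cancel₀ hcC (hinj h))
  have halt : Alt A P := by
    intro i
    have hφ : Function.Injective i.φ := i.φ.injective
    obtain ⟨Pt0, hk1, hk2⟩ := hloc i
    have hκ : i.φ (cx (C c)) ≠ 0 := (_root_.map_ne_zero _).2 hcc
    have hf : ∀ a : K[X], i.φ (cx (C c * a)) = i.φ (cx (C c)) * i.φ (cx a) := fun a => by
      rw [map_mul, map_mul]
    rcases pt_alt (fun h => l12 (hφ h)) (fun h => l13 (hφ h)) (fun h => l23 (hφ h)) Pt0 hk1 hk2 with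
      ⟨x, x1, x2, x3⟩ | ⟨x1, x2⟩
    · left
      refine ⟨x / i.φ (cx (C c)), ?_⟩
      have key : ∀ (a Q : K[X]) (cc : RatFunc K) (w : K[X]), cc * cx w ^ 2 = cx Q →
          IsSquare (i.φ cc * (x - i.φ (cx (C c * a)))) →
          IsSquare (i.φ (cx (C c * Q)) * (x / i.φ (cx (C c)) - i.φ (cx a))) := by
        intro a Q cc w hw hs
        have e : i.φ (cx (C c * Q)) * (x / i.φ (cx (C c)) - i.φ (cx a)) =
            i.φ cc * (x - i.φ (cx (C c * a))) * (i.φ (cx w) * i.φ (cx w)) := by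
          rw [hf, hf, ← hw, map_mul i.φ, map_pow i.φ]
          field_simp
        rw [e]
        exact hs.mul ⟨_, rfl⟩
      refine hall ?_ ?_ ?_
      · rw [P1]; exact key a1 Q1 c1 w1 k1 x1
      · rw [P2]; exact key a2 Q2 c2 w2 k2 x2
      · rw [P3]
        refine key a3 (Q1 * Q2) (c1 * c2) (w1 * w2) ?_ ?_
        · rw [map_mul, map_mul, ← k1, ← k2]; ring
        · rw [map_mul]; exact x3
    · right
      have key : ∀ a ∈ A, ∃ r, i.φ (cx (P a)) = i.φ (cx (C c)) * (r * r) := by
        have one : ∀ (Q : K[X]) (cc : RatFunc K) (w : K[X]), cc * cx w ^ 2 = cx Q →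
            IsSquare (i.φ cc) → ∃ r, i.φ (cx (C c * Q)) = i.φ (cx (C c)) * (r * r) := by
          rintro Q cc w hw ⟨r, hr⟩
          refine ⟨r * i.φ (cx w), ?_⟩
          rw [hf, ← hw, map_mul i.φ, map_pow i.φ, hr]
          ring
        refine hall ?_ ?_ ?_
        · rw [P1]; exact one Q1 c1 w1 k1 x1
        · rw [P2]; exact one Q2 c2 w2 k2 x2
        · rw [P3]
          refine one (Q1 * Q2) (c1 * c2) (w1 * w2) ?_ ?_
          · rw [map_mul, map_mul, ← k1, ← k2]; ring
          · rw [map_mul]; exact x1.mul x2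
      intro a ha b hb
      obtain ⟨r, hr⟩ := key a ha
      obtain ⟨r', hr'⟩ := key b hb
      refine ⟨i.φ (cx (C c)) * r * r', ?_⟩
      rw [hr, hr']
      ring
  have hprod : IsSquare (cx (C c * ∏ a ∈ A, P a)) := by
    refine ⟨cx (C c * C c * Q1 * Q2), ?_⟩
    rw [hAeq, Finset.prod_insert (by
      simp only [Finset.mem_insert, Finset.mem_singleton, not_or]; exact ⟨n12, n13⟩),
      Finset.prod_insert (by rw [Finset.mem_singleton]; exact n23), Finset.prod_singleton, P1, P2,
      P3, ← map_mul]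
    congr 1
    ring
  have f12 : cx (C c * a1) - cx (C c * a2) = cx (C c * (a1 - a2)) := by rw [mul_sub, map_sub]
  have f13 : cx (C c * a1) - cx (C c * a3) = cx (C c * (a1 - a3)) := by rw [mul_sub, map_sub]
  have f23 : cx (C c * a2) - cx (C c * a3) = cx (C c * (a2 - a3)) := by rw [mul_sub, map_sub]
  have f21 : cx (C c * a2) - cx (C c * a1) = cx (C c * (a2 - a1)) := by rw [mul_sub, map_sub]
  have f31 : cx (C c * a3) - cx (C c * a1) = cx (C c * (a3 - a1)) := by rw [mul_sub, map_sub]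
  have f32 : cx (C c * a3) - cx (C c * a2) = cx (C c * (a3 - a2)) := by rw [mul_sub, map_sub]
  -- from `P a * t` to the classes
  have cls : ∀ {Q w t : K[X]} {cc : RatFunc K}, cx w ≠ 0 → cc * cx w ^ 2 = cx Q →
      IsSquare (cx (C c * Q * t)) → IsSquare (cc * cx (C c * t)) := by
    intro Q w t cc hw hk hs
    refine isSq_div hw ?_
    have e : cc * cx (C c * t) * cx w ^ 2 = cx (C c * Q * t) := by
      rw [map_mul cx (C c * Q), map_mul cx (C c) Q, map_mul cx (C c) t, ← hk]
      ring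
    rw [e]
    exact hs
  have k12 : c1 * c2 * cx (w1 * w2) ^ 2 = cx (Q1 * Q2) := by
    rw [map_mul, map_mul, ← k1, ← k2]; ring
  have hw12 : cx (w1 * w2) ≠ 0 := by rw [map_mul]; exact mul_ne_zero hw1' hw2'
  have hodd : Odd A.card := by rw [hcard]; decide
  rcases gen_squares hA hodd (by rw [hcard]; norm_num) hc hP halt hprod with h | ⟨s, hs, h⟩
  · refine ⟨0, LegSel.two_tor_zero, ?_, ?_⟩
    · change IsSquare (c1 * 1)
      rw [mul_one]
      have h1 := h a2 m2 a3 m3
      rw [P2, P3] at h1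
      refine isSq_div hw1' ?_
      rw [k1]
      refine isSq_div (r := cx (C c) * cx Q2) (mul_ne_zero hcc hQ2') ?_
      have e : cx Q1 * (cx (C c) * cx Q2) ^ 2 = cx (C c * Q2 * (C c * (Q1 * Q2))) := by
        simp only [map_mul]
        ring
      rw [e]
      exact h1
    · change IsSquare (c2 * 1)
      rw [mul_one]
      have h1 := h a1 m1 a3 m3
      rw [P1, P3] at h1
      refine isSq_div hw2' ?_
      rw [k2]
      refine isSq_div (r := cx (C c) * cx Q1) (mul_ne_zero hcc hQ1') ?_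
      have e : cx Q2 * (cx (C c) * cx Q1) ^ 2 = cx (C c * Q1 * (C c * (Q1 * Q2))) := by
        simp only [map_mul]
        ring
      rw [e]
      exact h1
  · rcases (hAe s).1 hs with rfl | rfl | rfl
    · have g2 := h a2 m2 n12.symm
      have g3 := h a3 m3 n13.symm
      rw [P2] at g2
      rw [P3] at g3
      have t2 := cls hw2' k2 g2
      have t3 := cls hw12 k12 g3
      have hns : (crv (cx (C c * s)) (cx (C c * a2)) (cx (C c * a3))).toAffine.Nonsingular
          (cx (C c * s)) 0 := crv_nonsing h2R l12 l13 l23 (by ring)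
      refine ⟨Affine.Point.some _ 0 hns, LegSel.two_tor hns, ?_, ?_⟩
      · rw [dl_eq, dlW_some, if_pos rfl, f12, f13]
        refine isSq_div hc2 ?_
        have e : c1 * (cx (C c * (s - a2)) * cx (C c * (s - a3))) * c2 ^ 2 =
            c1 * c2 * cx (C c * (s - a3)) * (c2 * cx (C c * (s - a2))) := by ring
        rw [e]
        exact t3.mul t2
      · rw [dl_eq, dlW_some, if_neg l12, f12]
        exact t2
    · have g1 := h a1 m1 n12
      have g3 := h a3 m3 n23.symm
      rw [P1] at g1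
      rw [P3] at g3
      have t1 := cls hw1' k1 g1
      have t3 := cls hw12 k12 g3
      have hns : (crv (cx (C c * a1)) (cx (C c * s)) (cx (C c * a3))).toAffine.Nonsingular
          (cx (C c * s)) 0 := crv_nonsing h2R l12 l13 l23 (by ring)
      refine ⟨Affine.Point.some _ 0 hns, LegSel.two_tor hns, ?_, ?_⟩
      · rw [dl_eq, dlW_some, if_neg l12.symm, f21]
        exact t1
      · rw [dl_eq, dlW_some, if_pos rfl, f21, f23]
        refine isSq_div hc1 ?_
        have e : c2 * (cx (C c * (s - a1)) * cx (C c * (s - a3))) * c1 ^ 2 =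
            c1 * c2 * cx (C c * (s - a3)) * (c1 * cx (C c * (s - a1))) := by ring
        rw [e]
        exact t3.mul t1
    · have g1 := h a1 m1 n13
      have g2 := h a2 m2 n23
      rw [P1] at g1
      rw [P2] at g2
      have t1 := cls hw1' k1 g1
      have t2 := cls hw2' k2 g2
      have hns : (crv (cx (C c * a1)) (cx (C c * a2)) (cx (C c * s))).toAffine.Nonsingular
          (cx (C c * s)) 0 := crv_nonsing h2R l12 l13 l23 (by ring)
      refine ⟨Affine.Point.some _ 0 hns, LegSel.two_tor hns, ?_, ?_⟩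
      · rw [dl_eq, dlW_some, if_neg l13.symm, f31]
        exact t1
      · rw [dl_eq, dlW_some, if_neg l23.symm, f32]
        exact t2

/-- sub-families -/
theorem Generic.mono {A B : Finset K[X]} (hA : Generic A) (hB : B ⊆ A) : Generic B := by
  classical
  refine ⟨fun a ha b hb hab => hA.irr a (hB ha) b (hB hb) hab,
    fun a ha b hb hab => hA.odd a (hB ha) b (hB hb) hab, ?_⟩
  intro a ha b hb hab u E z hu hd k hk l hl hkl
  let E' : K[X] → K[X] → ℕ := fun k l => if k ∈ B ∧ l ∈ B then E k l else 0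
  have hsub : B.erase b ⊆ A.erase b := Finset.erase_subset_erase _ hB
  have hPP : PP (A.erase b) E' = PP (B.erase b) E := by
    unfold PP
    rw [← Finset.prod_subset hsub]
    · refine Finset.prod_congr rfl fun k hk => ?_
      obtain ⟨hkb, hkB⟩ := Finset.mem_erase.1 hk
      rw [← Finset.prod_subset (Finset.erase_subset_erase k hsub)]
      · refine Finset.prod_congr rfl fun l hl => ?_
        obtain ⟨-, hl2⟩ := Finset.mem_erase.1 hl
        obtain ⟨-, hl3⟩ := Finset.mem_erase.1 hl2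
        change (k - l) ^ (if k ∈ B ∧ l ∈ B then E k l else 0) = _
        rw [if_pos ⟨hkB, hl3⟩]
      · intro l hl hl'
        obtain ⟨hlk, hl2⟩ := Finset.mem_erase.1 hl
        obtain ⟨hlb, hlA⟩ := Finset.mem_erase.1 hl2
        have hlB : l ∉ B := fun h =>
          hl' (Finset.mem_erase.2 ⟨hlk, Finset.mem_erase.2 ⟨hlb, h⟩⟩)
        change (k - l) ^ (if k ∈ B ∧ l ∈ B then E k l else 0) = _
        rw [if_neg (fun h => hlB h.2), pow_zero]
    · intro k hk hk'
      obtain ⟨hkb, hkA⟩ := Finset.mem_erase.1 hk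
      have hkB : k ∉ B := fun h => hk' (Finset.mem_erase.2 ⟨hkb, h⟩)
      refine Finset.prod_eq_one fun l _ => ?_
      change (k - l) ^ (if k ∈ B ∧ l ∈ B then E k l else 0) = _
      rw [if_neg (fun h => hkB h.1), pow_zero]
  have h1 := hA.ind a (hB ha) b (hB hb) hab u E' z hu (by rw [hPP]; exact hd) k (hsub hk) l
    (hsub hl) hkl
  have h2 : E' k l = E k l := if_pos ⟨Finset.mem_of_mem_erase hk, Finset.mem_of_mem_erase hl⟩
  have h3 : E' l k = E l k := if_pos ⟨Finset.mem_of_mem_erase hl, Finset.mem_of_mem_erase hk⟩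
  rwa [h2, h3] at h1

end Pool.Agent.Q308.BS
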