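import Pool.Agent.Q308.BS.GenD

/-!
The birational section conjecture for the curves over a generic hyperelliptic curve.
-/

set_option autoImplicit false
set_option linter.unusedSectionVars false

open Polynomial IsDedekindDomain NumberField WeierstrassCurve

namespace Pool.Agent.Q308.BS

open Pool.Agent.TH942 Pool.Agent.TH954 Pool.Agent.Y791.BS Pool.Agent.Y791.BF
  Pool.Agent.Y791.BC Pool.Agent.Y791.BC.Leg Pool.Agent.Y791.BC.Rig Pool.Agent.H918R3
  Pool.Agent.H918R3.TB1

section short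

variable {K : Type} [Field K] [CharZero K] [hess : Algebra.EssFiniteType ℚ K]

omit [CharZero K] hess in
/-- the conclusion of the descent -/
def ShortPt {F0 : Type} [Field F0] [Algebra (RatFunc K) F0] (x : F0) : Prop :=
  ∃ (a b : RatFunc K) (X Y : F0), 4 * a ^ 3 + 27 * b ^ 2 ≠ 0 ∧
      SelKilled (RatFunc K) a b (2 ^ 1) ∧
      Y ^ 2 = X ^ 3 + algebraMap (RatFunc K) F0 a * X + algebraMap (RatFunc K) F0 b ∧
      (IsAlgebraic (RatFunc K) X → IsAlgebraic (RatFunc K) x)

/-- the short Weierstrass form of a curve with trivial two-Selmer group -/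
theorem short_of_sel {f1 f2 f3 : RatFunc K} (hsel : SelTor (RatFunc K) 1 f1 f2 f3) (m12 : f1 ≠ f2)
    (m13 : f1 ≠ f3) (m23 : f2 ≠ f3) {F0 : Type} [Field F0] [Algebra (RatFunc K) F0] {x0 y0 : F0}
    (hxy : y0 ^ 2 = (x0 - algebraMap (RatFunc K) F0 f1) * (x0 - algebraMap (RatFunc K) F0 f2) *
      (x0 - algebraMap (RatFunc K) F0 f3)) {x : F0}
    (hx : IsAlgebraic (RatFunc K) x0 → IsAlgebraic (RatFunc K) x) : ShortPt (K := K) x := by
  have hchR : CharZero (RatFunc K) :=
    charZero_of_injective_algebraMap (algebraMap K (RatFunc K)).injective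
  have h3R : (3 : RatFunc K) ≠ 0 := three_ne_zero
  set σ : RatFunc K := (f1 + f2 + f3) / 3 with hσ
  have hσ3 : 3 * σ = f1 + f2 + f3 := by
    rw [hσ]; field_simp
  set e₁ := f1 - σ with he1
  set e₂ := f2 - σ with he2
  set e₃ := f3 - σ with he3
  have hs : e₁ + e₂ + e₃ = 0 := by
    rw [he1, he2, he3]
    linear_combination -hσ3
  have g12 : e₁ ≠ e₂ := by
    intro h0
    apply m12
    linear_combination h0
  have g13 : e₁ ≠ e₃ := by
    intro h0
    apply m13
    linear_combination h0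
  have g23 : e₂ ≠ e₃ := by
    intro h0
    apply m23
    linear_combination h0
  have hkill := killed_of hsel m12 m13 m23 hs (by rw [he1, he2]; ring) (by rw [he1, he3]; ring)
  set a := e₁ * e₂ + e₁ * e₃ + e₂ * e₃ with ha
  set b := -(e₁ * e₂ * e₃) with hb
  have hdisc : 4 * a ^ 3 + 27 * b ^ 2 ≠ 0 := by
    have e : 4 * a ^ 3 + 27 * b ^ 2 = -((e₁ - e₂) * (e₁ - e₃) * (e₂ - e₃)) ^ 2 := by
      have h3 : e₃ = -e₁ - e₂ := by linear_combination hs
      rw [ha, hb, h3]
      ring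
    rw [e, neg_ne_zero]
    exact pow_ne_zero _ (mul_ne_zero (mul_ne_zero (sub_ne_zero.2 g12) (sub_ne_zero.2 g13))
      (sub_ne_zero.2 g23))
  set ψ : RatFunc K →+* F0 := algebraMap (RatFunc K) F0 with hψ
  refine ⟨a, b, x0 - ψ σ, y0, hdisc, hkill, ?_, ?_⟩
  · have w1 : ψ e₁ = ψ f1 - ψ σ := by rw [he1, map_sub]
    have w2 : ψ e₂ = ψ f2 - ψ σ := by rw [he2, map_sub]
    have w3 : ψ e₃ = ψ f3 - ψ σ := by rw [he3, map_sub]
    have hs' : ψ e₁ + ψ e₂ + ψ e₃ = 0 := by rw [← map_add, ← map_add, hs, map_zero]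
    have ha' : ψ a = ψ e₁ * ψ e₂ + ψ e₁ * ψ e₃ + ψ e₂ * ψ e₃ := by
      rw [ha, map_add, map_add, map_mul, map_mul, map_mul]
    have hb' : ψ b = -(ψ e₁ * ψ e₂ * ψ e₃) := by
      rw [hb, map_neg, map_mul, map_mul]
    set X := x0 - ψ σ with hX
    have hcube : X ^ 3 + ψ a * X + ψ b = (X - ψ e₁) * (X - ψ e₂) * (X - ψ e₃) := by
      rw [ha', hb']
      linear_combination X ^ 2 * hs'
    rw [hcube, w1, w2, w3, hX]
    linear_combination hxy
  · intro h0
    apply hx
    have := h0.add (isAlgebraic_algebraMap (R := RatFunc K) (A := F0) σ)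
    rwa [sub_add_cancel] at this

end short

variable {K : Type} [Field K] [CharZero K] [hess : Algebra.EssFiniteType ℚ K]

/-- **From the descent to the section conjecture.** -/
theorem wrap {k : Type} [Field k] [CharZero k] [hk : Algebra.EssFiniteType ℚ k]
    {F Ω B : Type} [Field F] [Field Ω] [Field B]
    [Algebra k F] [Algebra F Ω] [Algebra k Ω] [Algebra k B]
    [IsScalarTower k F Ω] [IsAlgClosure F Ω] [IsAlgClosure k B]
    (hF : ∃ t : F, Transcendental k t ∧ Algebra.IsAlgebraic (IntermediateField.adjoin k {t}) F)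
    (k' : IntermediateField k Ω) [FiniteDimensional k k']
    (ψ : RatFunc K →+* Ω) (hψ : ψ.fieldRange = k'.toSubfield)
    {E : K[X]} {N : Finset K[X]}
    (H : ∀ (F0 : Type) [Field F0] [Algebra (RatFunc K) F0]
      (_ : ∀ i : PlF (RatFunc K), Plc (RatFunc K) F0 i.Lv) (_ : Leg.KumF K F0)
      (_ : ∀ (r : RatFunc K) (w : F0), algebraMap (RatFunc K) F0 r = w ^ 2 → IsSquare r)
      (x y : F0) (_ : ∀ a ∈ N, x ≠ cf K F0 a)
      (_ : cf K F0 E * y ^ 2 = ∏ a ∈ N, (x - cf K F0 a)), ShortPt (K := K) x)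
    (x y : Ω) (hx : x ∈ IntermediateField.adjoin F (k' : Set Ω))
    (hy : y ∈ IntermediateField.adjoin F (k' : Set Ω)) (hxt : Transcendental k x)
    (hxy : ψ (algebraMap K[X] (RatFunc K) E) * y ^ 2 =
      ∏ a ∈ N, (x - ψ (algebraMap K[X] (RatFunc K) a)))
    (s : GalSection k F Ω B)
    (hloc : ∀ i : PlF k, s.GeometricOver i.Lv (AlgebraicClosure i.Lv)) :
    ∃! O : ValuationSubring F, s.ArisesFrom O := by
  have hEmb : S_EmbFG := EmbFG.main FrobRes.main
  have hObs : S_ObsFG := ObsFG.main FrobRes.main hEmb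
  have hDesc : S_Desc := Desc.main hEmb
  have hEmbP : S_EmbP := EmbP.main
  have hConj : S_ConjA := ConjA.main
  have hΩ1 : IsAlgClosed Ω := IsAlgClosure.isAlgClosed F
  have hΩ2 : Algebra.IsAlgebraic F Ω := IsAlgClosure.isAlgebraic
  have hcF : CharZero F := charZero_of_injective_algebraMap (algebraMap k F).injective
  have hcΩ : CharZero Ω := charZero_of_injective_algebraMap (algebraMap F Ω).injective
  have hcR : CharZero (RatFunc K) :=
    charZero_of_injective_algebraMap (algebraMap K (RatFunc K)).injective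
  set A := toSAct s with hA
  choose pl hpl using fun i : PlF k => toSAct_geo s (hloc i)
  obtain ⟨κ1, m1, α1, hκ1, hα1, hκι⟩ := exists_lvl2 A.j k' ψ hψ
  let instR : Algebra (RatFunc K) Ω := ((A.j : AlgebraicClosure k →+* Ω).comp κ1).toAlgebra
  have hM : ∀ c : RatFunc K, algebraMap (RatFunc K) Ω c = A.j (κ1 c) := fun c => rfl
  have hMι : ∀ c : RatFunc K, algebraMap (RatFunc K) Ω c = ψ c := fun c => by rw [hM, hκι]
  obtain ⟨A1, g, hg, hj, h1, h2⟩ := exists_base A m1 κ1 hκ1 hM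
  choose pl1 hpl1 using exists_places A pl hpl m1 κ1 hκ1 hM A1 g hj h1
  -- the fixed elements
  let σ : (AlgebraicClosure k ≃ₐ[k] AlgebraicClosure k) → (Ω ≃ₐ[F] Ω) := fun τ =>
    s.s ((eqv k B).autCongr τ)
  have hσ : ∀ τ z, A.s τ z = σ τ z := fun τ z => rfl
  have hfixed : ∀ z ∈ IntermediateField.adjoin F (k' : Set Ω), z ∈ A1.fix := by
    intro z hz τ1
    obtain ⟨τ, e1, e2⟩ := h1 τ1
    have hτ : ∀ c, τ (κ1 c) = κ1 c := by
      intro c
      rw [← hg, ← e1, τ1.commutes]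
    rw [e2, hσ]
    refine fix_adjoin (σ τ) (fun w hw => ?_) hz
    obtain ⟨r, rfl⟩ : ∃ r, A.j (κ1 r) = w := by
      have h1 : w ∈ ψ.fieldRange := by
        rw [hψ]
        exact hw
      obtain ⟨r, hr⟩ := h1
      exact ⟨r, by rw [hκι, hr]⟩
    rw [← hσ, A.hj]
    congr 1
    exact hτ r
  -- the level
  obtain ⟨k'', hfin'', hk''⟩ := exists_ext (R := RatFunc K) (m1 : k → RatFunc K)
    (fun c => by rw [hM, hκ1, A.j.commutes]) k' (fun r => by
      rw [hMι]
      have h3 : ψ r ∈ ψ.fieldRange := ⟨r, rfl⟩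
      rw [hψ] at h3
      exact h3)
  obtain ⟨κ, μ, α, hκ, hα, hκψ⟩ := exists_lvl2 A1.j k'' ψ (hψ.trans hk''.symm)
  let El : Lvl (RatFunc K) :=
    { K := K
      ess := inferInstance
      κ := κ
      m := μ
      hκ := hκ
      α := α
      hα := hα }
  have hdim : ∀ x : Ω, (∀ w : AlgebraicClosure k, x ≠ A.j w) →
      ∀ t : Ω, IsAlgebraic (Algebra.adjoin k {x}) t := by
    intro x hx t
    refine (alg_adjoin_of_dim hF x (fun h => ?_)).isAlgebraic _
    obtain ⟨w, hw⟩ := alg_range A.j h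
    exact hx w hw.symm
  have hdim1 : ∀ z : Ω, (∀ w : AlgebraicClosure (RatFunc K), z ≠ A1.j w) →
      ∀ t : Ω, IsAlgebraic (Algebra.adjoin (RatFunc K) {z}) t := by
    intro z hz t
    refine isAlgebraic_adjoin_of m1 (fun c => ?_) (hdim z (fun w hw => hz (g.symm w) ?_) t)
    · rw [hM, hκ1, A.j.commutes]
    · rw [hw, hj, g.apply_symm_apply]
  -- the points
  have hxa : ¬ IsAlgebraic (RatFunc K) x := by
    intro h0
    obtain ⟨w, hw⟩ := alg_range A1.j h0
    apply hxt
    rw [← hw, hj]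
    exact (Algebra.IsAlgebraic.isAlgebraic (R := k) (g w)).algHom A.j
  set x1 : A1.fix := ⟨x, hfixed x hx⟩ with hx1
  set y1 : A1.fix := ⟨y, hfixed y hy⟩ with hy1
  have hcf : ∀ p : K[X], ((cf K A1.fix p : A1.fix) : Ω) = ψ (algebraMap K[X] (RatFunc K) p) := by
    intro p
    rw [← hMι]
    rfl
  have hq : ∀ i : PlF (RatFunc K), Nonempty (Plc (RatFunc K) A1.fix i.Lv) := by
    intro i
    have hch : CharZero i.Lv := charZero_compl i.v
    obtain ⟨q, -⟩ := exists_fixPlc A1 (hpl1 i)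
    exact ⟨q⟩
  have hE : ShortPt (K := K) x1 := by
    refine H A1.fix (fun i => (hq i).some) (kumF A1) ?_ x1 y1 ?_ ?_
    · intro r w hw
      refine sq_descend A1 w.2 ?_
      have := congrArg (fun z : A1.fix => (z : Ω)) hw
      exact this
    · intro a _ h0
      apply hxa
      have h3 : x = algebraMap (RatFunc K) Ω (algebraMap K[X] (RatFunc K) a) := by
        rw [hMι, ← hcf, ← h0]
      rw [h3]
      exact isAlgebraic_algebraMap _
    · apply Subtype.ext
      have e1 : ((cf K A1.fix E * y1 ^ 2 : A1.fix) : Ω) =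
          ψ (algebraMap K[X] (RatFunc K) E) * y ^ 2 := by
        rw [← hcf]
        rfl
      have e2 : ((∏ a ∈ N, (x1 - cf K A1.fix a) : A1.fix) : Ω) =
          ∏ a ∈ N, (x - ψ (algebraMap K[X] (RatFunc K) a)) := by
        have e3 := map_prod (algebraMap A1.fix Ω) (fun a => x1 - cf K A1.fix a) N
        refine e3.trans (Finset.prod_congr rfl fun a _ => ?_)
        rw [← hcf]
        rfl
      rw [e1, e2]
      exact hxy
  obtain ⟨a, b, X, Y, hdisc, hkill, hXY, hXa⟩ := hE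
  have hXY' : (Y : Ω) ^ 2 = (X : Ω) ^ 3 + algebraMap (RatFunc K) Ω a * X +
      algebraMap (RatFunc K) Ω b := congrArg (fun z : A1.fix => (z : Ω)) hXY
  have hvals := fun i hi c hc => alg_vals A1 pl1 hpl1 hdisc (by norm_num) Nat.prime_two hkill.toL
    X.2 Y.2 hXY' i hi c hc
  have hXc : ∀ w : AlgebraicClosure (RatFunc K), (X : Ω) ≠ A1.j w := by
    intro w hw
    apply hxa
    have h3 : IsAlgebraic (RatFunc K) (X : Ω) := by
      rw [hw]
      exact (Algebra.IsAlgebraic.isAlgebraic (R := RatFunc K) w).algHom A1.j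
    have h4 : IsAlgebraic (RatFunc K) X :=
      (isAlgebraic_algHom_iff A1.fix.val (algebraMap A1.fix Ω).injective).1 h3
    exact (hXa h4).algHom A1.fix.val
  obtain ⟨W, hW⟩ := alg_good A1 pl1 hpl1 hdim1 hEmbP hConj hObs Nat.prime_two El
    (fun τ => X.2 τ) hXc hvals
  exact geometric_of_good hEmb hDesc hk s W (goodW_base A κ1 hα1 A1 g hj h2 hW)

end Pool.Agent.Q308.BS
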