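import Pool.Agent.Q308.BS.GenE

/-!
The birational section conjecture for the curves over a generic hyperelliptic curve.
-/

set_option autoImplicit false
set_option linter.unusedSectionVars false

open Polynomial IsDedekindDomain NumberField WeierstrassCurve

namespace Pool.Agent.Q308.BS

open Pool.Agent.TH942 Pool.Agent.TH954 Pool.Agent.Y791.BS Pool.Agent.Y791.BF
  Pool.Agent.Y791.BC Pool.Agent.Y791.BC.Leg Pool.Agent.Y791.BC.Rig Pool.Agent.H918R3
  Pool.Agent.H918R3.TB1

section norm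

variable {K : Type} [Field K]

/-- the monic multiple -/
noncomputable def nm (p : K[X]) : K[X] := C p.leadingCoeff⁻¹ * p

theorem nm_assoc {p : K[X]} (hp : p ≠ 0) : Associated p (nm p) := by
  have hu0 : p.leadingCoeff ≠ 0 := leadingCoeff_ne_zero.2 hp
  have hunit : IsUnit (C p.leadingCoeff⁻¹ : K[X]) :=
    isUnit_C.2 (isUnit_iff_ne_zero.2 (inv_ne_zero hu0))
  exact ⟨hunit.unit, by rw [IsUnit.unit_spec, mul_comm]; rfl⟩

theorem nm_monic {p : K[X]} (hp : p ≠ 0) : (nm p).Monic := by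
  have hu0 : p.leadingCoeff ≠ 0 := leadingCoeff_ne_zero.2 hp
  rw [nm, Monic, leadingCoeff_mul, leadingCoeff_C, inv_mul_cancel₀ hu0]

theorem nm_swap (k l : K[X]) : nm (l - k) = nm (k - l) := by
  unfold nm
  have h : l - k = -(k - l) := by ring
  rw [h, leadingCoeff_neg, inv_neg, C_neg]
  ring

theorem eq_nm {π p : K[X]} (hπ : π.Monic) (hp0 : p ≠ 0) (h : Associated π p) : π = nm p :=
  eq_of_monic_of_associated hπ (nm_monic hp0) (h.trans (nm_assoc hp0))

open scoped Classical in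
theorem PP_one (S : Finset K[X]) {a b : K[X]} (ha : a ∈ S) (hb : b ∈ S) (hab : a ≠ b) (n : ℕ) :
    PP S (fun k l => if a = k ∧ b = l then n else 0) = (a - b) ^ n := by
  unfold PP
  rw [Finset.prod_eq_single_of_mem a ha, Finset.prod_eq_single_of_mem b
    (Finset.mem_erase.2 ⟨hab.symm, hb⟩)]
  · change (a - b) ^ (if a = a ∧ b = b then n else 0) = _
    rw [if_pos ⟨rfl, rfl⟩]
  · intro l _ hl
    change (a - l) ^ (if a = a ∧ b = l then n else 0) = _
    rw [if_neg (fun h => hl h.2.symm), pow_zero]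
  · intro k _ hk
    refine Finset.prod_eq_one fun l _ => ?_
    change (k - l) ^ (if a = k ∧ b = l then n else 0) = _
    rw [if_neg (fun h => hk h.1.symm), pow_zero]

theorem PP_sum (S : Finset K[X]) {ι : Type} (T : Finset ι) (F : ι → K[X] → K[X] → ℕ) :
    PP S (fun k l => ∑ π ∈ T, F π k l) = ∏ π ∈ T, PP S (F π) := by
  classical
  induction T using Finset.induction_on with
  | empty =>
    rw [Finset.prod_empty]
    unfold PP
    refine Finset.prod_eq_one fun k _ => Finset.prod_eq_one fun l _ => ?_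
    change (k - l) ^ (∑ π ∈ (∅ : Finset ι), F π k l) = 1
    rw [Finset.sum_empty, pow_zero]
  | insert a T ha ih =>
    rw [Finset.prod_insert ha, ← ih, ← PP_add]
    congr 1
    funext k l
    rw [Finset.sum_insert ha]

open scoped Classical in
/-- the primes which are the differences of the elements of `S` -/
noncomputable def TT (S : Finset K[X]) : Finset K[X] :=
  ((S ×ˢ S).filter (fun p => p.1 ≠ p.2)).image (fun p => nm (p.1 - p.2))

theorem mem_TT {S : Finset K[X]} {π : K[X]} :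
    π ∈ TT S ↔ ∃ k ∈ S, ∃ l ∈ S, k ≠ l ∧ nm (k - l) = π := by
  classical
  unfold TT
  rw [Finset.mem_image]
  constructor
  · rintro ⟨⟨k, l⟩, h1, h2⟩
    rw [Finset.mem_filter, Finset.mem_product] at h1
    exact ⟨k, h1.1.1, l, h1.1.2, h1.2, h2⟩
  · rintro ⟨k, hk, l, hl, hkl, h⟩
    exact ⟨(k, l), Finset.mem_filter.2 ⟨Finset.mem_product.2 ⟨hk, hl⟩, hkl⟩, h⟩

open scoped Classical in
/-- the difference of two elements of a generic family as a good twist -/
theorem good_of_generic {A : Finset K[X]} (hA : Generic A) {s k0 : K[X]} (hs : s ∈ A)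
    (hk0 : k0 ∈ A) (hne : s ≠ k0) : GoodTwist (TT (A.erase k0)) (s - k0) := by
  have hirr := hA.irr s hs k0 hk0 hne
  refine ⟨hirr, hA.odd s hs k0 hk0 hne, ?_, ?_⟩
  · intro π hπ hd
    obtain ⟨k, hk, l, hl, hkl, rfl⟩ := mem_TT.1 hπ
    obtain ⟨hk1, hk2⟩ := Finset.mem_erase.1 hk
    obtain ⟨hl1, hl2⟩ := Finset.mem_erase.1 hl
    exact hA.ndvd hs hk0 hne hk2 hl2 hkl (fun h => hl1 h.2) (fun h => hk1 h.1)
      (hd.trans (nm_assoc (sub_ne_zero.2 hkl)).symm.dvd)
  · intro u e z hu hd π0 hπ0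
    have hex : ∀ π : K[X], ∃ kl : K[X] × K[X], π ∈ TT (A.erase k0) →
        kl.1 ∈ A.erase k0 ∧ kl.2 ∈ A.erase k0 ∧ kl.1 ≠ kl.2 ∧ nm (kl.1 - kl.2) = π := by
      intro π
      by_cases hπ : π ∈ TT (A.erase k0)
      · obtain ⟨k, hk, l, hl, hkl, h⟩ := mem_TT.1 hπ
        exact ⟨(k, l), fun _ => ⟨hk, hl, hkl, h⟩⟩
      · exact ⟨(0, 0), fun h => absurd h hπ⟩
    choose r hr using hex
    set E : K[X] → K[X] → ℕ := fun k l =>
      ∑ π ∈ TT (A.erase k0), if (r π).1 = k ∧ (r π).2 = l then e π else 0 with hE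
    have hPP : PP (A.erase k0) E = ∏ π ∈ TT (A.erase k0), ((r π).1 - (r π).2) ^ e π := by
      rw [hE, PP_sum (A.erase k0) (TT (A.erase k0))
        (fun π k l => if (r π).1 = k ∧ (r π).2 = l then e π else 0)]
      refine Finset.prod_congr rfl fun π hπ => ?_
      obtain ⟨h1, h2, h3, h4⟩ := hr π hπ
      exact PP_one (A.erase k0) h1 h2 h3 (e π)
    have hprod : ∏ π ∈ TT (A.erase k0), π ^ e π =
        C (∏ π ∈ TT (A.erase k0), (((r π).1 - (r π).2).leadingCoeff⁻¹) ^ e π) *
          PP (A.erase k0) E := by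
      rw [hPP, map_prod, ← Finset.prod_mul_distrib]
      refine Finset.prod_congr rfl fun π hπ => ?_
      obtain ⟨h1, h2, h3, h4⟩ := hr π hπ
      calc π ^ e π = (nm ((r π).1 - (r π).2)) ^ e π := by rw [h4]
        _ = _ := by
          unfold nm
          rw [mul_pow, C_pow]
    have hw : ∏ π ∈ TT (A.erase k0), (((r π).1 - (r π).2).leadingCoeff⁻¹) ^ e π ≠ 0 := by
      refine Finset.prod_ne_zero_iff.2 fun π hπ => pow_ne_zero _ (inv_ne_zero ?_)
      exact leadingCoeff_ne_zero.2 (sub_ne_zero.2 (hr π hπ).2.2.1)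
    rw [hprod, ← mul_assoc, ← C_mul] at hd
    obtain ⟨h1, h2, h3, h4⟩ := hr π0 hπ0
    have hev := hA.ind s hs k0 hk0 hne _ E z (mul_ne_zero hu hw) hd (r π0).1 h1 (r π0).2 h2 h3
    have e1 : E (r π0).1 (r π0).2 = e π0 := by
      change ∑ π ∈ TT (A.erase k0), (if (r π).1 = (r π0).1 ∧ (r π).2 = (r π0).2 then e π else 0) = _
      rw [Finset.sum_eq_single_of_mem π0 hπ0]
      · rw [if_pos ⟨rfl, rfl⟩]
      · intro π hπ hne'
        rw [if_neg]
        rintro ⟨q1, q2⟩
        apply hne'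
        rw [← (hr π hπ).2.2.2, q1, q2, h4]
    have e2 : E (r π0).2 (r π0).1 = 0 := by
      change ∑ π ∈ TT (A.erase k0), (if (r π).1 = (r π0).2 ∧ (r π).2 = (r π0).1 then e π else 0) = _
      refine Finset.sum_eq_zero fun π hπ => ?_
      rw [if_neg]
      rintro ⟨q1, q2⟩
      have h5 : π = π0 := by
        rw [← (hr π hπ).2.2.2, q1, q2, nm_swap, h4]
      rw [h5] at q1
      exact h3 q1
    rw [e1, e2, add_zero] at hev
    exact hev.two_dvd

end norm

variable {K : Type} [Field K] [CharZero K] [hess : Algebra.EssFiniteType ℚ K]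

/-- **The descent for a generic hyperelliptic curve.** -/
theorem gen_descent {A : Finset K[X]} (hA : Generic A) (hodd : Odd A.card) (hcard : 2 < A.card)
    {c : K} (hc : c ≠ 0) {F0 : Type} [Field F0] [Algebra (RatFunc K) F0]
    (q : ∀ i : PlF (RatFunc K), Plc (RatFunc K) F0 i.Lv) (hkum : Leg.KumF K F0)
    (hdesc : ∀ (r : RatFunc K) (w : F0), algebraMap (RatFunc K) F0 r = w ^ 2 → IsSquare r)
    (x y : F0) (hx : ∀ a ∈ A, x ≠ cf K F0 a)
    (hxy : cf K F0 (C c) * y ^ 2 = ∏ a ∈ A, (x - cf K F0 a)) : ShortPt (K := K) x := by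
  classical
  have hinj := RatFunc.algebraMap_injective K
  have hex : ∀ a : K[X], ∃ (P : K[X]) (g : F0), a ∈ A → P ≠ 0 ∧
      x - cf K F0 a = cf K F0 P * g ^ 2 := by
    intro a
    by_cases ha : a ∈ A
    · obtain ⟨P, g, h1, h2⟩ := hkum (x - cf K F0 a) (sub_ne_zero.2 (hx a ha)) 2 two_pos
      exact ⟨P, g, fun _ => ⟨h1, h2⟩⟩
    · exact ⟨0, 0, fun h => absurd h ha⟩
  choose P g hPg using hex
  have hP : ∀ a ∈ A, P a ≠ 0 := fun a ha => (hPg a ha).1
  have hg : ∀ a ∈ A, x - cf K F0 a = cf K F0 (P a) * g a ^ 2 := fun a ha => (hPg a ha).2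
  have halt : Alt A P := loc_alt q hP hx hg
  have hcC : (C c : K[X]) ≠ 0 := C_ne_zero.2 hc
  have hprod : IsSquare (algebraMap K[X] (RatFunc K) (C c * ∏ a ∈ A, P a)) := by
    have hG0 : ∏ a ∈ A, g a ≠ 0 := by
      rw [Finset.prod_ne_zero_iff]
      intro a ha h0
      have h1 := hg a ha
      rw [h0, zero_pow two_ne_zero, mul_zero, sub_eq_zero] at h1
      exact hx a ha h1
    refine hdesc _ (cf K F0 (C c) * y / ∏ a ∈ A, g a) ?_
    change cf K F0 (C c * ∏ a ∈ A, P a) = _
    rw [Finset.prod_congr rfl hg, Finset.prod_mul_distrib, Finset.prod_pow] at hxy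
    rw [div_pow, eq_div_iff (pow_ne_zero _ hG0), map_mul (cf K F0) (C c), map_prod]
    linear_combination (-cf K F0 (C c)) * hxy
  have hcx : ∀ {p : K[X]}, p ≠ 0 → algebraMap K[X] (RatFunc K) p ≠ 0 := fun h =>
    (map_ne_zero_iff _ (RatFunc.algebraMap_injective K)).2 h
  -- three branch points and the trivial class
  have triple : ∀ B ⊆ A, B.card = 3 →
      IsSquare (algebraMap K[X] (RatFunc K) (1 * ∏ a ∈ A \ B, P a)) → ShortPt (K := K) x := by
    intro B hB hBc hsq
    obtain ⟨Y, hY⟩ := reduce hB hP hx hg one_ne_zero hxy hsq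
    obtain ⟨b1, b2, b3, n12, n13, n23, rfl⟩ := Finset.card_eq_three.1 hBc
    rw [Finset.prod_insert (by
      simp only [Finset.mem_insert, Finset.mem_singleton, not_or]; exact ⟨n12, n13⟩),
      Finset.prod_insert (by rw [Finset.mem_singleton]; exact n23), Finset.prod_singleton,
      mul_one] at hY
    have hsel := sel_triple n12 n13 n23 (A := {b1, b2, b3}) (fun a => by
      rw [Finset.mem_insert, Finset.mem_insert, Finset.mem_singleton]) (hA.mono hB) hc
    have hm : ∀ {a b : K[X]}, a ≠ b → algebraMap K[X] (RatFunc K) (C c * a) ≠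
        algebraMap K[X] (RatFunc K) (C c * b) := fun h h' => h (mul_left_cancel₀ hcC (hinj h'))
    have hcf : ∀ b : K[X], algebraMap (RatFunc K) F0 (algebraMap K[X] (RatFunc K) (C c * b)) =
        cf K F0 (C c) * cf K F0 b := fun b => by
      rw [map_mul, map_mul]; rfl
    refine short_of_sel hsel (hm n12) (hm n13) (hm n23) (x0 := cf K F0 (C c) * x)
      (y0 := cf K F0 (C c) ^ 2 * Y) ?_ ?_
    · rw [hcf, hcf, hcf]
      linear_combination cf K F0 (C c) ^ 3 * hY
    · intro hal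
      have hc0 : cf K F0 (C c) ≠ 0 :=
        (_root_.map_ne_zero (algebraMap (RatFunc K) F0)).2 (hcx hcC)
      have h1 : IsAlgebraic (RatFunc K) (cf K F0 (C c))⁻¹ :=
        (isAlgebraic_algebraMap (R := RatFunc K) (A := F0)
          (algebraMap K[X] (RatFunc K) (C c))).inv
      have h2 := h1.mul hal
      rwa [inv_mul_cancel_left₀ hc0] at h2
  by_cases h3 : A.card = 3
  · refine triple A (Finset.Subset.refl A) h3 ?_
    rw [Finset.sdiff_self, Finset.prod_empty, one_mul, map_one]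
    exact ⟨1, by rw [mul_one]⟩
  rcases gen_squares hA hodd hcard hc hP halt hprod with h | ⟨s, hs, h⟩
  · obtain ⟨B, hB, hBc⟩ := Finset.exists_subset_card_eq (s := A) (n := 3) (by omega)
    refine triple B hB hBc ?_
    rw [one_mul, map_prod]
    refine prod_even _ _ (fun a ha => hcx (hP a (Finset.sdiff_subset ha))) ?_ ?_
    · rw [Finset.card_sdiff_of_subset hB, hBc]
      obtain ⟨n, hn⟩ := hodd
      exact ⟨n - 1, by omega⟩
    · intro a ha b hb
      rw [← map_mul]
      exact h a (Finset.sdiff_subset ha) b (Finset.sdiff_subset hb)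
  · have hErase : (A.erase s).card = A.card - 1 := Finset.card_erase_of_mem hs
    have hc5 : 5 ≤ A.card := by
      obtain ⟨n, hn⟩ := hodd
      omega
    obtain ⟨B', hB', hc2⟩ := Finset.exists_subset_card_eq (s := A.erase s) (n := 2) (by omega)
    obtain ⟨b1, b2, n12, rfl⟩ := Finset.card_eq_two.1 hc2
    have m1 := hB' (by simp : b1 ∈ ({b1, b2} : Finset K[X]))
    have m2 := hB' (by simp : b2 ∈ ({b1, b2} : Finset K[X]))
    rw [Finset.mem_erase] at m1 m2
    have hsub : insert s ({b1, b2} : Finset K[X]) ⊆ A := by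
      intro z hz
      simp only [Finset.mem_insert, Finset.mem_singleton] at hz
      rcases hz with rfl | rfl | rfl
      · exact hs
      · exact m1.2
      · exact m2.2
    have hn : s ∉ ({b1, b2} : Finset K[X]) := by
      simp only [Finset.mem_insert, Finset.mem_singleton, not_or]
      exact ⟨m1.1.symm, m2.1.symm⟩
    have hcB : (insert s ({b1, b2} : Finset K[X])).card = 3 := by
      rw [Finset.card_insert_of_notMem hn, hc2]
    have hcd : (A \ insert s ({b1, b2} : Finset K[X])).card = A.card - 3 := by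
      rw [Finset.card_sdiff_of_subset hsub, hcB]
    obtain ⟨k0, hk0⟩ : (A \ insert s ({b1, b2} : Finset K[X])).Nonempty :=
      Finset.card_pos.1 (by omega)
    have hk0' := Finset.mem_sdiff.1 hk0
    simp only [Finset.mem_insert, Finset.mem_singleton, not_or] at hk0'
    obtain ⟨hk0A, hk0s, hk01, hk02⟩ := hk0'
    have hout : ∀ a ∈ A \ insert s ({b1, b2} : Finset K[X]), a ∈ A ∧ a ≠ s := by
      intro a ha
      have ha' := Finset.mem_sdiff.1 ha
      simp only [Finset.mem_insert, Finset.mem_singleton, not_or] at ha'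
      exact ⟨ha'.1, ha'.2.1⟩
    set O := A \ insert s ({b1, b2} : Finset K[X]) with hO
    have hq0 : ∏ k ∈ O, (s - k) ≠ 0 :=
      Finset.prod_ne_zero_iff.2 fun k hk => sub_ne_zero.2 (hout k hk).2.symm
    obtain ⟨Y, hY⟩ := reduce hsub hP hx hg hq0 hxy (by
      rw [← Finset.prod_mul_distrib, map_prod]
      have : ∀ a ∈ O, ∃ r, algebraMap K[X] (RatFunc K) ((s - a) * P a) = r * r := by
        intro a ha
        obtain ⟨r, hr⟩ := h a (hout a ha).1 (hout a ha).2
        exact ⟨r, by rw [mul_comm]; exact hr⟩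
      choose! r hr using this
      refine ⟨∏ a ∈ O, r a, ?_⟩
      rw [← Finset.prod_mul_distrib]
      exact Finset.prod_congr rfl hr)
    rw [Finset.prod_insert hn, Finset.prod_insert (by
        rw [Finset.mem_singleton]; exact n12), Finset.prod_singleton] at hY
    set q' := ∏ k ∈ O.erase k0, (s - k) with hq'
    have hqq : ∏ k ∈ O, (s - k) = (s - k0) * q' := (Finset.mul_prod_erase O _ hk0).symm
    have hq'0 : q' ≠ 0 := Finset.prod_ne_zero_iff.2 fun k hk =>
      sub_ne_zero.2 (hout k (Finset.mem_of_mem_erase hk)).2.symm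
    have hgood := good_of_generic hA hs hk0A (Ne.symm hk0s)
    have hTm : ∀ π ∈ TT (A.erase k0), π.Monic ∧ Irreducible π := by
      intro π hπ
      obtain ⟨k, hk, l, hl, hkl, rfl⟩ := mem_TT.1 hπ
      have h0 : k - l ≠ 0 := sub_ne_zero.2 hkl
      exact ⟨nm_monic h0, (nm_assoc h0).irreducible
        (hA.irr k (Finset.mem_of_mem_erase hk) l (Finset.mem_of_mem_erase hl) hkl)⟩
    refine short_form hgood hTm (x := x) ⟨C c * q', s, b1, b2, x, Y, mul_ne_zero hcC hq'0,
      m1.1.symm, m2.1.symm, n12, ?_, ?_, id⟩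
    · have hT : ∀ {k l : K[X]}, k ∈ A → l ∈ A → k ≠ l → k ≠ k0 → l ≠ k0 → ∀ π : K[X], π.Monic →
          Irreducible π → π ∣ k - l → π ∈ TT (A.erase k0) := by
        intro k l hk hl hkl hk0 hl0 π h1 h2 h3
        refine mem_TT.2 ⟨k, Finset.mem_erase.2 ⟨hk0, hk⟩, l, Finset.mem_erase.2 ⟨hl0, hl⟩, hkl, ?_⟩
        exact (eq_nm h1 (sub_ne_zero.2 hkl) (h2.associated_of_dvd (hA.irr k hk l hl hkl) h3)).symm
      have key : ∀ {a b : K[X]}, a ∈ A → b ∈ A → a ≠ b → a ≠ k0 → b ≠ k0 → ∀ π : K[X], π.Monic →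
          Irreducible π → π ∣ C c * q' * a - C c * q' * b → π ∈ TT (A.erase k0) := by
        intro a b ha hb hab ha0 hb0 π h1 h2 h3
        rw [← mul_sub] at h3
        rcases h2.prime.dvd_or_dvd h3 with h4 | h4
        · rcases h2.prime.dvd_or_dvd h4 with h5 | h5
          · exact absurd (isUnit_of_dvd_unit h5 (isUnit_C.2 (isUnit_iff_ne_zero.2 hc)))
              h2.not_isUnit
          · obtain ⟨k, hk, h6⟩ := (Prime.dvd_finsetProd_iff h2.prime _).1 h5
            obtain ⟨hkk, hkO⟩ := Finset.mem_erase.1 hk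
            exact hT hs (hout k hkO).1 (hout k hkO).2.symm (Ne.symm hk0s) hkk π h1 h2 h6
        · exact hT ha hb hab ha0 hb0 π h1 h2 h4
      rintro π h1 h2 (h3 | h3 | h3)
      · exact key hs m1.2 m1.1.symm (Ne.symm hk0s) (Ne.symm hk01) π h1 h2 h3
      · exact key hs m2.2 m2.1.symm (Ne.symm hk0s) (Ne.symm hk02) π h1 h2 h3
      · exact key m1.2 m2.2 n12 (Ne.symm hk01) (Ne.symm hk02) π h1 h2 h3
    · have e1 : (s - k0) * (C c * q') = C c * ∏ k ∈ O, (s - k) := by
        rw [hqq]; ring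
      rw [e1, hY]
      ring

end Pool.Agent.Q308.BS
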