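import Pool.Agent.Q308.BS.GenF
import Pool.Agent.Q308.TG.AllT

/-!
Almost all families of branch points are generic.
-/

set_option autoImplicit false
set_option linter.unusedSectionVars false

open Polynomial

namespace Pool.Agent.Q308.BS

open Pool.Agent.Q308.TG

variable {K : Type} [Field K] {ι : Type} [DecidableEq ι]

open scoped Classical in
theorem PP_image {a : ι → K[X]} (ha : Function.Injective a) (S : Finset ι) (E : K[X] → K[X] → ℕ) :
    PP (S.image a) E = FF S (fun i j => E (a i) (a j)) a := by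
  unfold PP FF
  rw [Finset.prod_image (fun x _ y _ h => ha h)]
  refine Finset.prod_congr rfl fun k _ => ?_
  have h : (S.image a).erase (a k) = (S.erase k).image a := (Finset.image_erase ha S k).symm
  rw [h, Finset.prod_image (fun x _ y _ h => ha h)]

open scoped Classical in
theorem generic_image [Fintype ι] {a : ι → K[X]} {N : ℕ} (hN : Odd N)
    (h1 : ∀ i j : ι, i ≠ j → Irreducible (a i - a j) ∧ (a i - a j).natDegree = N)
    (h2 : ∀ i j : ι, i ≠ j → ∀ (c : K) (E : ι → ι → ℕ) (z : K[X]), c ≠ 0 →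
        a i - a j ∣ C c * FF (Finset.univ.erase j) E a - z ^ 2 →
        ∀ k0 l0 : ι, k0 ≠ j → l0 ≠ j → k0 ≠ l0 → Even (E k0 l0 + E l0 k0)) :
    Function.Injective a ∧ Generic (Finset.univ.image a) := by
  have ha : Function.Injective a := by
    intro i j hij
    by_contra hne
    apply (h1 i j hne).1.ne_zero
    rw [hij, sub_self]
  refine ⟨ha, ?_, ?_, ?_⟩
  · intro x hx y hy hxy
    obtain ⟨i, -, rfl⟩ := Finset.mem_image.1 hx
    obtain ⟨j, -, rfl⟩ := Finset.mem_image.1 hy
    exact (h1 i j fun h => hxy (by rw [h])).1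
  · intro x hx y hy hxy
    obtain ⟨i, -, rfl⟩ := Finset.mem_image.1 hx
    obtain ⟨j, -, rfl⟩ := Finset.mem_image.1 hy
    rw [(h1 i j fun h => hxy (by rw [h])).2]
    exact hN
  · intro x hx y hy hxy u E z hu hd k hk l hl hkl
    obtain ⟨i, -, rfl⟩ := Finset.mem_image.1 hx
    obtain ⟨j, -, rfl⟩ := Finset.mem_image.1 hy
    have h3 : (Finset.univ.image a).erase (a j) = (Finset.univ.erase j).image a :=
      (Finset.image_erase ha _ _).symm
    rw [h3, PP_image ha] at hd
    rw [h3] at hk hl
    obtain ⟨k0, hk0, rfl⟩ := Finset.mem_image.1 hk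
    obtain ⟨l0, hl0, rfl⟩ := Finset.mem_image.1 hl
    exact h2 i j (fun h => hxy (by rw [h])) u (fun i j => E (a i) (a j)) z hu hd k0 l0
      (Finset.ne_of_mem_erase hk0) (Finset.ne_of_mem_erase hl0) (fun h => hkl (by rw [h]))

end Pool.Agent.Q308.BS
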