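import Pool.Agent.Q308.BS.SelW

/-!
Local classes of the points of a hyperelliptic curve with rational branch points.
-/

set_option autoImplicit false
set_option linter.unusedSectionVars false

open Polynomial IsDedekindDomain NumberField

namespace Pool.Agent.Q308.BS

open Pool.Agent.TH954 Pool.Agent.Y791.BS Pool.Agent.Y791.BF Pool.Agent.Y791.BF.Types
  Pool.Agent.Y791.BC Pool.Agent.Y791.BC.LegCls

section desc

variable {R : Type} [Field R] [CharZero R] {M : Type} [Field M] [IsAlgClosed M] [Algebra R M]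
  (A : SAct R M)

/-- an element of the base field which is the square of a fixed element is a square -/
theorem sq_descend {r : R} {w : M} (hw : w ∈ A.fix) (h : algebraMap R M r = w ^ 2) :
    IsSquare r := by
  obtain ⟨z, hz⟩ := IsAlgClosed.exists_pow_nat_eq (algebraMap R (AlgebraicClosure R) r)
    (n := 2) two_pos
  have h1 : A.j z ^ 2 = w ^ 2 := by
    rw [← map_pow, hz, A.j.commutes, h]
  have h2 : A.j z ∈ A.fix := by
    rcases sq_eq_sq_iff_eq_or_eq_neg.1 h1 with h2 | h2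
    · rw [h2]; exact hw
    · rw [h2]; exact neg_mem hw
  obtain ⟨c, hc⟩ := A.fix_j h2
  refine ⟨c, ?_⟩
  apply (algebraMap R (AlgebraicClosure R)).injective
  rw [← hz, map_mul, hc, pow_two]

end desc

section plc

variable {R F0 L : Type} [Field R] [Field F0] [Field L] [Algebra R F0] [Algebra R L]
  (q : Plc R F0 L)

/-- a square has a square value -/
theorem plc_sq {g : F0} {c : L} (h : q.val (g ^ 2) c) : IsSquare c := by
  have hg : g ∈ q.W := Plc.mem_of_pow_mem two_pos h.mem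
  obtain ⟨w, hw⟩ := Plc.val_of_mem hg
  refine ⟨w, ?_⟩
  rw [← pow_two]
  exact h.unique (hw.pow 2)

include q in
/-- the alternatives for the local classes -/
theorem plc_alt {ι : Type} (s : Finset ι) (α c : ι → R) (hc : ∀ a ∈ s, c a ≠ 0) {x : F0}
    (hx : ∀ a ∈ s, x ≠ algebraMap R F0 (α a)) (g : ι → F0)
    (hg : ∀ a ∈ s, x - algebraMap R F0 (α a) = algebraMap R F0 (c a) * g a ^ 2) :
    (∃ u : L, ∀ a ∈ s, IsSquare (algebraMap R L (c a) * (u - algebraMap R L (α a)))) ∨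
      ∀ a ∈ s, ∀ b ∈ s, IsSquare (algebraMap R L (c a) * algebraMap R L (c b)) := by
  have hcF : ∀ a ∈ s, algebraMap R F0 (c a) ≠ 0 := fun a ha => (_root_.map_ne_zero _).2 (hc a ha)
  have hcL : ∀ a ∈ s, algebraMap R L (c a) ≠ 0 := fun a ha => (_root_.map_ne_zero _).2 (hc a ha)
  by_cases hW : x ∈ q.W
  · left
    obtain ⟨u, hu⟩ := Plc.val_of_mem hW
    refine ⟨u, fun a ha => ?_⟩
    have h1 := (hu.sub (q.val_alg (α a))).mul ((q.val_alg (c a)).inv (hcL a ha))
    rw [hg a ha] at h1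
    have e : algebraMap R F0 (c a) * g a ^ 2 * (algebraMap R F0 (c a))⁻¹ = g a ^ 2 := by
      rw [mul_comm, ← mul_assoc, inv_mul_cancel₀ (hcF a ha), one_mul]
    rw [e] at h1
    obtain ⟨w, hw⟩ := plc_sq q h1
    refine ⟨algebraMap R L (c a) * w, ?_⟩
    have h2 := hcL a ha
    field_simp at hw
    linear_combination (algebraMap R L (c a)) * hw
  · right
    intro a ha b hb
    have h0 : x ≠ 0 := by
      rintro rfl
      exact hW (zero_mem _)
    have hinv := Plc.val_inv_of_notMem hW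
    have one : ∀ a : ι, q.val ((x - algebraMap R F0 (α a)) * x⁻¹) 1 := by
      intro a
      have h1 := (q.val_one).sub ((q.val_alg (α a)).mul hinv)
      rw [mul_zero, sub_zero] at h1
      have e : (x - algebraMap R F0 (α a)) * x⁻¹ = 1 - algebraMap R F0 (α a) * x⁻¹ := by
        rw [sub_mul, mul_inv_cancel₀ h0]
      rw [e]
      exact h1
    have h2 := ((one a).mul ((one b).inv one_ne_zero)).mul
      ((q.val_alg (c b)).mul ((q.val_alg (c a)).inv (hcL a ha)))
    have hxa : x - algebraMap R F0 (α a) ≠ 0 := sub_ne_zero.2 (hx a ha)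
    have hxb : x - algebraMap R F0 (α b) ≠ 0 := sub_ne_zero.2 (hx b hb)
    have ha' := hcF a ha
    have hb' := hcF b hb
    have hgb : g b ≠ 0 := by
      intro h
      rw [hg b hb, h] at hxb
      simp at hxb
    have e : (x - algebraMap R F0 (α a)) * x⁻¹ * ((x - algebraMap R F0 (α b)) * x⁻¹)⁻¹ *
        (algebraMap R F0 (c b) * (algebraMap R F0 (c a))⁻¹) = (g a / g b) ^ 2 := by
      rw [hg a ha, hg b hb]
      field_simp
    rw [e] at h2
    obtain ⟨w, hw⟩ := plc_sq q h2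
    refine ⟨algebraMap R L (c a) * w, ?_⟩
    have h3 := hcL a ha
    rw [inv_one, mul_one, one_mul] at hw
    field_simp at hw
    linear_combination (algebraMap R L (c a)) * hw

end plc

section loc

variable {L : Type} [NormedField L] [IsUltrametricDist L]

/-- the three possible positions of a local point -/
theorem trich {ι : Type} (s : Finset ι) (α c : ι → L) (hc : ∀ a ∈ s, c a ≠ 0)
    (hd : ∀ a ∈ s, ∀ b ∈ s, a ≠ b → ‖α a - α b‖ = 1)
    (halt : (∃ u : L, ∀ a ∈ s, IsSquare (c a * (u - α a))) ∨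
      ∀ a ∈ s, ∀ b ∈ s, IsSquare (c a * c b)) :
    (∀ a ∈ s, ∀ b ∈ s, Sq (c a * c b)) ∨
    (∃ a0 ∈ s, ∀ a ∈ s, a ≠ a0 → Sq (c a * (α a0 - α a))) ∨
    ∃ u : L, ∀ a ∈ s, ‖u - α a‖ = 1 ∧ Sq (c a * (u - α a)) := by
  rcases halt with ⟨u, hu⟩ | h
  · by_cases h1 : ∃ a ∈ s, 1 < ‖u - α a‖
    · obtain ⟨a, ha, h1⟩ := h1
      left
      have key : ∀ b ∈ s, Sq ((u - α a) * (u - α b)) := by
        intro b hb
        by_cases hab : a = b
        · rw [hab, ← pow_two]
          refine Sq.sq ?_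
          rw [← hab, ← norm_ne_zero_iff]
          linarith
        · have e : u - α b = (u - α a) + (α a - α b) := by ring
          rw [e]
          exact Sq.dom (by rw [hd a ha b hb hab]; exact h1)
      have hne : ∀ b ∈ s, Sq (c b * (u - α b)) := by
        intro b hb
        exact LegSel.sq_of (mul_ne_zero (hc b hb) (right_ne_zero_of_mul (key b hb).ne_zero)) (hu b hb)
      intro b hb b' hb'
      have k1 : Sq ((u - α b) * (u - α b')) := (key b hb).congr (key b' hb')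
      refine Sq.of_mul k1 ?_
      have e : c b * c b' * ((u - α b) * (u - α b')) = c b * (u - α b) * (c b' * (u - α b')) := by
        ring
      rw [e]
      exact (hne b hb).mul (hne b' hb')
    · push Not at h1
      right
      by_cases h2 : ∃ a0 ∈ s, ‖u - α a0‖ < 1
      · obtain ⟨a0, ha0, h2⟩ := h2
        left
        refine ⟨a0, ha0, fun a ha hne => ?_⟩
        have h3 : ‖α a0 - α a‖ = 1 := hd a0 ha0 a ha hne.symm
        have h4 : Sq ((α a0 - α a) * (u - α a)) := by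
          have e : u - α a = (α a0 - α a) + (u - α a0) := by ring
          rw [e]
          exact Sq.dom (by rw [h3]; exact h2)
        have h5 : Sq (c a * (u - α a)) :=
          LegSel.sq_of (mul_ne_zero (hc a ha) (right_ne_zero_of_mul h4.ne_zero)) (hu a ha)
        refine Sq.of_mul (Sq.sq (right_ne_zero_of_mul h4.ne_zero)) ?_
        have e : c a * (α a0 - α a) * (u - α a) ^ 2 =
            c a * (u - α a) * ((α a0 - α a) * (u - α a)) := by ring
        rw [e]
        exact h5.mul h4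
      · push Not at h2
        right
        refine ⟨u, fun a ha => ?_⟩
        have h3 : ‖u - α a‖ = 1 := le_antisymm (h1 a ha) (h2 a ha)
        refine ⟨h3, LegSel.sq_of (mul_ne_zero (hc a ha) ?_) (hu a ha)⟩
        rw [← norm_ne_zero_iff, h3]
        exact one_ne_zero
  · left
    intro a ha b hb
    exact LegSel.sq_of (mul_ne_zero (hc a ha) (hc b hb)) (h a ha b hb)

/-- the norm of a product -/
theorem norm_prod_pow {ι : Type} (s : Finset ι) (c : ι → L) {ε : L} (m : ι → ℕ)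
    (h : ∀ a ∈ s, ‖c a‖ = ‖ε‖ ^ m a) : ‖∏ a ∈ s, c a‖ = ‖ε‖ ^ (∑ a ∈ s, m a) := by
  rw [norm_prod, Finset.prod_congr rfl h, Finset.prod_pow_eq_pow_sum]

/-- evenness of the exponent -/
theorem sq_even' {ε : L} (hε0 : ε ≠ 0) (hε1 : ‖ε‖ < 1)
    (hd : ∀ w : L, w ≠ 0 → ∃ n : ℤ, ‖w‖ = ‖ε‖ ^ n) {c : L} (h : Sq c) {n : ℕ}
    (hn : ‖c‖ = ‖ε‖ ^ n) : Even n := by
  have := sq_even hε0 hε1 hd h (n := (n : ℤ)) (by rw [hn, zpow_natCast])
  exact_mod_cast this

/-- exponents at a good place -/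
theorem good_even {ι : Type} (s : Finset ι) (α c : ι → L) (hc : ∀ a ∈ s, c a ≠ 0)
    (hd : ∀ a ∈ s, ∀ b ∈ s, a ≠ b → ‖α a - α b‖ = 1)
    (halt : (∃ u : L, ∀ a ∈ s, IsSquare (c a * (u - α a))) ∨
      ∀ a ∈ s, ∀ b ∈ s, IsSquare (c a * c b)) {ε : L} (hε0 : ε ≠ 0) (hε1 : ‖ε‖ < 1)
    (hdv : ∀ w : L, w ≠ 0 → ∃ n : ℤ, ‖w‖ = ‖ε‖ ^ n) (m : ι → ℕ)
    (hm : ∀ a ∈ s, ‖c a‖ = ‖ε‖ ^ m a) {d : L} (hd0 : ‖d‖ = 1)
    (hprod : Sq (d * ∏ a ∈ s, c a)) : ∀ a ∈ s, ∀ b ∈ s, Even (m a + m b) := by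
  classical
  have hsum : Even (∑ a ∈ s, m a) := by
    refine sq_even' hε0 hε1 hdv hprod ?_
    rw [norm_mul, hd0, one_mul, norm_prod_pow s c m hm]
  rcases trich s α c hc hd halt with h | ⟨a0, ha0, h⟩ | ⟨u, h⟩
  · intro a ha b hb
    refine sq_even' hε0 hε1 hdv (h a ha b hb) ?_
    rw [norm_mul, hm a ha, hm b hb, pow_add]
  · have h1 : ∀ a ∈ s, a ≠ a0 → Even (m a) := by
      intro a ha hne
      refine sq_even' hε0 hε1 hdv (h a ha hne) ?_
      rw [norm_mul, hm a ha, hd a0 ha0 a ha hne.symm, mul_one]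
    have h2 : Even (m a0) := by
      rw [← Finset.add_sum_erase s m ha0, Nat.even_add] at hsum
      refine hsum.2 ?_
      exact Finset.even_sum _ fun a ha => h1 a (Finset.mem_of_mem_erase ha) (Finset.ne_of_mem_erase ha)
    have h3 : ∀ a ∈ s, Even (m a) := by
      intro a ha
      by_cases hne : a = a0
      · rw [hne]; exact h2
      · exact h1 a ha hne
    exact fun a ha b hb => (h3 a ha).add (h3 b hb)
  · have h3 : ∀ a ∈ s, Even (m a) := by
      intro a ha
      refine sq_even' hε0 hε1 hdv (h a ha).2 ?_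
      rw [norm_mul, hm a ha, (h a ha).1, mul_one]
    exact fun a ha b hb => (h3 a ha).add (h3 b hb)

/-- the two types at the place of ramification -/
theorem ram_types {ι : Type} (s : Finset ι) (α c : ι → L) (hc : ∀ a ∈ s, c a ≠ 0)
    (hd : ∀ a ∈ s, ∀ b ∈ s, a ≠ b → ‖α a - α b‖ = 1)
    (halt : (∃ u : L, ∀ a ∈ s, IsSquare (c a * (u - α a))) ∨
      ∀ a ∈ s, ∀ b ∈ s, IsSquare (c a * c b)) {ε : L} (hε0 : ε ≠ 0) (hε1 : ‖ε‖ < 1)
    (hdv : ∀ w : L, w ≠ 0 → ∃ n : ℤ, ‖w‖ = ‖ε‖ ^ n) (m : ι → ℕ)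
    (hm : ∀ a ∈ s, ‖c a‖ = ‖ε‖ ^ m a) {d : L} (hd0 : ‖d‖ = ‖ε‖)
    (hprod : Sq (d * ∏ a ∈ s, c a)) :
    ((∀ a ∈ s, Odd (m a)) ∧ Odd s.card ∧ ∀ a ∈ s, ∀ b ∈ s, Sq (c a * c b)) ∨
    ∃ a0 ∈ s, Odd (m a0) ∧ ∀ a ∈ s, a ≠ a0 → Even (m a) ∧ Sq (c a * (α a0 - α a)) := by
  classical
  have hsum : Odd (∑ a ∈ s, m a) := by
    have h1 : Even (1 + ∑ a ∈ s, m a) := by
      refine sq_even' hε0 hε1 hdv hprod ?_
      rw [norm_mul, hd0, norm_prod_pow s c m hm, pow_add, pow_one]
    rw [add_comm, Nat.even_add_one, Nat.not_even_iff_odd] at h1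
    exact h1
  rcases trich s α c hc hd halt with h | ⟨a0, ha0, h⟩ | ⟨u, h⟩
  · left
    have h1 : ∀ a ∈ s, ∀ b ∈ s, Even (m a + m b) := by
      intro a ha b hb
      refine sq_even' hε0 hε1 hdv (h a ha b hb) ?_
      rw [norm_mul, hm a ha, hm b hb, pow_add]
    have h2 : ∀ a ∈ s, Odd (m a) := by
      by_contra hcon
      push Not at hcon
      obtain ⟨a, ha, hcon⟩ := hcon
      rw [Nat.not_odd_iff_even] at hcon
      have h3 : ∀ b ∈ s, Even (m b) := by
        intro b hb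
        have := h1 a ha b hb
        rw [Nat.even_add] at this
        exact this.1 hcon
      exact absurd (Finset.even_sum _ h3) (Nat.not_even_iff_odd.2 hsum)
    refine ⟨h2, ?_, h⟩
    by_contra hcard
    rw [Nat.not_odd_iff_even] at hcard
    have h3 : Even (∑ a ∈ s, m a) := by
      have h4 : Even (∑ a ∈ s, (m a + 1)) := Finset.even_sum _ fun a ha => (h2 a ha).add_one
      rw [Finset.sum_add_distrib, Finset.sum_const, smul_eq_mul, mul_one, Nat.even_add] at h4
      exact h4.2 hcard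
    exact absurd h3 (Nat.not_even_iff_odd.2 hsum)
  · right
    have h1 : ∀ a ∈ s, a ≠ a0 → Even (m a) := by
      intro a ha hne
      refine sq_even' hε0 hε1 hdv (h a ha hne) ?_
      rw [norm_mul, hm a ha, hd a0 ha0 a ha hne.symm, mul_one]
    refine ⟨a0, ha0, ?_, fun a ha hne => ⟨h1 a ha hne, h a ha hne⟩⟩
    rw [← Finset.add_sum_erase s m ha0] at hsum
    have h2 : Even (∑ a ∈ s.erase a0, m a) :=
      Finset.even_sum _ fun a ha => h1 a (Finset.mem_of_mem_erase ha) (Finset.ne_of_mem_erase ha)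
    rw [Nat.odd_add] at hsum
    exact hsum.2 h2
  · exfalso
    have h3 : ∀ a ∈ s, Even (m a) := by
      intro a ha
      refine sq_even' hε0 hε1 hdv (h a ha).2 ?_
      rw [norm_mul, hm a ha, (h a ha).1, mul_one]
    exact absurd (Finset.even_sum _ h3) (Nat.not_even_iff_odd.2 hsum)

end loc

end Pool.Agent.Q308.BS
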