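import Pool.Agent.Q308.BS.HypA

/-!
Classes of the points of a hyperelliptic curve with branch points in `K[S]`.
-/

set_option autoImplicit false
set_option linter.unusedSectionVars false

open Polynomial IsDedekindDomain NumberField

namespace Pool.Agent.Q308.BS

open Pool.Agent.TH954 Pool.Agent.Y791.BS Pool.Agent.Y791.BF Pool.Agent.Y791.BF.Types
  Pool.Agent.Y791.BC Pool.Agent.Y791.BC.LegCls

variable {K : Type} [Field K]

/-- the finite set of the primes which divide `c` or a difference of two branch points -/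
def BadH (A : Finset K[X]) (c : K[X]) (T : Finset K[X]) : Prop :=
  ∀ π : K[X], π ∈ T ↔ π.Monic ∧ Irreducible π ∧ (π ∣ c ∨ ∃ a ∈ A, ∃ b ∈ A, a ≠ b ∧ π ∣ a - b)

/-- the alternatives at all places -/
def Alt (A : Finset K[X]) (P : K[X] → K[X]) : Prop :=
  ∀ i : PlF (RatFunc K),
    (∃ u : i.Lv, ∀ a ∈ A, IsSquare (i.φ (algebraMap K[X] (RatFunc K) (P a)) *
      (u - i.φ (algebraMap K[X] (RatFunc K) a)))) ∨
    ∀ a ∈ A, ∀ b ∈ A, IsSquare (i.φ (algebraMap K[X] (RatFunc K) (P a)) *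
      i.φ (algebraMap K[X] (RatFunc K) (P b)))

theorem loc_alt {F0 : Type} [Field F0] [Algebra (RatFunc K) F0]
    (q : ∀ i : PlF (RatFunc K), Plc (RatFunc K) F0 i.Lv) {A : Finset K[X]} {P : K[X] → K[X]}
    {g : K[X] → F0} {x : F0} (hP : ∀ a ∈ A, P a ≠ 0)
    (hx : ∀ a ∈ A, x ≠ algebraMap (RatFunc K) F0 (algebraMap K[X] (RatFunc K) a))
    (hg : ∀ a ∈ A, x - algebraMap (RatFunc K) F0 (algebraMap K[X] (RatFunc K) a) =
      algebraMap (RatFunc K) F0 (algebraMap K[X] (RatFunc K) (P a)) * g a ^ 2) : Alt A P := by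
  intro i
  exact plc_alt (q i) A (fun a => algebraMap K[X] (RatFunc K) a)
    (fun a => algebraMap K[X] (RatFunc K) (P a))
    (fun a ha => (map_ne_zero_iff _ (RatFunc.algebraMap_injective K)).2 (hP a ha)) hx g hg

theorem sq_of_isSq {i : PlF (RatFunc K)} [CharZero K] {r : RatFunc K} (hr : r ≠ 0) (h : IsSquare r) :
    Sq (i.φ r) := by
  obtain ⟨s, rfl⟩ := h
  rw [map_mul, ← pow_two]
  exact Sq.sq ((_root_.map_ne_zero _).2 (left_ne_zero_of_mul hr))

section glob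

variable [CharZero K] [hess : Algebra.EssFiniteType ℚ K]

/-- the exponents away from `E` and the differences -/
theorem even_pair (hEmb : S_EmbFG) {A : Finset K[X]} {P : K[X] → K[X]} (hP : ∀ a ∈ A, P a ≠ 0)
    (halt : Alt A P) {E : K[X]} (hE : E ≠ 0)
    (hprod : IsSquare (algebraMap K[X] (RatFunc K) (E * ∏ a ∈ A, P a)))
    {ρ : AlgebraicClosure K} (hEρ : aeval ρ E ≠ 0)
    (hd : ∀ a ∈ A, ∀ b ∈ A, a ≠ b → aeval ρ (a - b) ≠ 0) :
    ∀ a ∈ A, ∀ b ∈ A, Even (mu (P a) ρ + mu (P b) ρ) := by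
  classical
  obtain ⟨i, ε, hε0, hε1, hεn, hpoly⟩ := exists_near_polys hEmb
    (A.image P ∪ {E} ∪ (A ×ˢ A).image (fun p => p.1 - p.2)) ρ
  have hu := ultra i.v
  have hinj := RatFunc.algebraMap_injective K
  have hne : ∀ {p : K[X]}, p ≠ 0 → i.φ (algebraMap K[X] (RatFunc K) p) ≠ 0 := fun h =>
    (_root_.map_ne_zero _).2 ((map_ne_zero_iff _ hinj).2 h)
  refine good_even A (fun a => i.φ (algebraMap K[X] (RatFunc K) a))
    (fun a => i.φ (algebraMap K[X] (RatFunc K) (P a))) (fun a ha => hne (hP a ha)) ?_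
    (halt i) hε0 hε1 hεn (fun a => mu (P a) ρ) ?_ (d := i.φ (algebraMap K[X] (RatFunc K) E)) ?_ ?_
  · intro a ha b hb hab
    have h1 : a - b ≠ 0 := sub_ne_zero.2 hab
    have h2 := hpoly (a - b) (Finset.mem_union_right _ (Finset.mem_image.2
      ⟨(a, b), Finset.mem_product.2 ⟨ha, hb⟩, rfl⟩)) h1
    rw [mu_eq_zero (hd a ha b hb hab), pow_zero] at h2
    rw [← h2, map_sub, map_sub]
  · intro a ha
    exact hpoly (P a) (Finset.mem_union_left _ (Finset.mem_union_left _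
      (Finset.mem_image_of_mem _ ha))) (hP a ha)
  · rw [hpoly E (Finset.mem_union_left _ (Finset.mem_union_right _ (Finset.mem_singleton_self _)))
      hE, mu_eq_zero hEρ, pow_zero]
  · rw [← map_prod, ← map_prod, ← map_mul, ← map_mul]
    refine sq_of_isSq ?_ hprod
    exact (map_ne_zero_iff _ hinj).2 (mul_ne_zero hE (Finset.prod_ne_zero_iff.2 hP))

/-- the exponents at a simple zero of `E` -/
theorem ram_pair (hEmb : S_EmbFG) {A : Finset K[X]} {P : K[X] → K[X]} (hP : ∀ a ∈ A, P a ≠ 0)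
    (halt : Alt A P) {E : K[X]} (hE : E ≠ 0)
    (hprod : IsSquare (algebraMap K[X] (RatFunc K) (E * ∏ a ∈ A, P a)))
    {ρ : AlgebraicClosure K} (hEρ : mu E ρ = 1)
    (hd : ∀ a ∈ A, ∀ b ∈ A, a ≠ b → aeval ρ (a - b) ≠ 0) :
    ((∀ a ∈ A, Odd (mu (P a) ρ)) ∧ Odd A.card) ∨
      ∃ a0 ∈ A, Odd (mu (P a0) ρ) ∧ ∀ a ∈ A, a ≠ a0 → Even (mu (P a) ρ) := by
  classical
  obtain ⟨i, ε, hε0, hε1, hεn, hpoly⟩ := exists_near_polys hEmb
    (A.image P ∪ {E} ∪ (A ×ˢ A).image (fun p => p.1 - p.2)) ρ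
  have hu := ultra i.v
  have hinj := RatFunc.algebraMap_injective K
  have hne : ∀ {p : K[X]}, p ≠ 0 → i.φ (algebraMap K[X] (RatFunc K) p) ≠ 0 := fun h =>
    (_root_.map_ne_zero _).2 ((map_ne_zero_iff _ hinj).2 h)
  have key := ram_types A (fun a => i.φ (algebraMap K[X] (RatFunc K) a))
    (fun a => i.φ (algebraMap K[X] (RatFunc K) (P a))) (fun a ha => hne (hP a ha)) ?_
    (halt i) hε0 hε1 hεn (fun a => mu (P a) ρ) ?_ (d := i.φ (algebraMap K[X] (RatFunc K) E)) ?_ ?_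
  · rcases key with ⟨h1, h2, -⟩ | ⟨a0, h1, h2, h3⟩
    · exact Or.inl ⟨h1, h2⟩
    · exact Or.inr ⟨a0, h1, h2, fun a ha hne => (h3 a ha hne).1⟩
  · intro a ha b hb hab
    have h1 : a - b ≠ 0 := sub_ne_zero.2 hab
    have h2 := hpoly (a - b) (Finset.mem_union_right _ (Finset.mem_image.2
      ⟨(a, b), Finset.mem_product.2 ⟨ha, hb⟩, rfl⟩)) h1
    rw [mu_eq_zero (hd a ha b hb hab), pow_zero] at h2
    rw [← h2, map_sub, map_sub]
  · intro a ha
    exact hpoly (P a) (Finset.mem_union_left _ (Finset.mem_union_left _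
      (Finset.mem_image_of_mem _ ha))) (hP a ha)
  · rw [hpoly E (Finset.mem_union_left _ (Finset.mem_union_right _ (Finset.mem_singleton_self _)))
      hE, hEρ, pow_one]
  · rw [← map_prod, ← map_prod, ← map_mul, ← map_mul]
    refine sq_of_isSq ?_ hprod
    exact (map_ne_zero_iff _ hinj).2 (mul_ne_zero hE (Finset.prod_ne_zero_iff.2 hP))

end glob

section near

variable [CharZero K]

/-- the two types near a root of `D` -/
theorem near_types {D : K[X]} [hDf : Fact (Irreducible D)] {A : Finset K[X]} {P P' : K[X] → K[X]}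
    {m : K[X] → ℕ} (hPP : ∀ a ∈ A, P a = D ^ m a * P' a) (hP' : ∀ a ∈ A, ¬ D ∣ P' a) {c : K[X]}
    (hc : ¬ D ∣ c) (hd : ∀ a ∈ A, ∀ b ∈ A, a ≠ b → ¬ D ∣ a - b) (halt : Alt A P)
    (hprod : IsSquare (algebraMap K[X] (RatFunc K) (D * c * ∏ a ∈ A, P a))) :
    ∃ Y : Finset (AdjoinRoot D), ∀ (i0 : PlF (AdjoinRoot D)) (φ : RatFunc K →+* i0.Lv) (ε : i0.Lv),
      UnitOn Y i0 → Near (AdjoinRoot.root D) i0 φ ε →
      ((∀ a ∈ A, Odd (m a)) ∧ Odd A.card ∧
        ∀ a ∈ A, ∀ b ∈ A, Sq (φ (algebraMap K[X] (RatFunc K) (P a * P b)))) ∨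
      ∃ a0 ∈ A, Odd (m a0) ∧ ∀ a ∈ A, a ≠ a0 → Even (m a) ∧
        Sq (φ (algebraMap K[X] (RatFunc K) (P a * (a0 - a)))) := by
  classical
  have hD : Irreducible D := hDf.out
  set ρ := AdjoinRoot.root D with hρ
  have hmk : ∀ p : K[X], aeval ρ p = AdjoinRoot.mk D p := fun p => AdjoinRoot.aeval_eq p
  refine ⟨Yp ρ D ∪ Yp ρ c ∪ A.biUnion (fun a => Yp ρ (P' a)) ∪
    A.biUnion (fun a => A.biUnion fun b => Yp ρ (a - b)), ?_⟩
  intro i0 φ ε hY hn
  have hu := ultra i0.v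
  have hinj := RatFunc.algebraMap_injective K
  have yD : UnitOn (Yp ρ D) i0 := fun z hz => hY z (by
    simp only [Finset.mem_union, hz, true_or])
  have yc : UnitOn (Yp ρ c) i0 := fun z hz => hY z (by
    simp only [Finset.mem_union, hz, true_or, or_true])
  have yP : ∀ a ∈ A, UnitOn (Yp ρ (P' a)) i0 := fun a ha z hz => hY z (by
    rw [Finset.mem_union, Finset.mem_union]
    exact Or.inl (Or.inr (Finset.mem_biUnion.2 ⟨a, ha, hz⟩)))
  have yd : ∀ a ∈ A, ∀ b ∈ A, UnitOn (Yp ρ (a - b)) i0 := fun a ha b hb z hz => hY z (by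
    rw [Finset.mem_union]
    exact Or.inr (Finset.mem_biUnion.2 ⟨a, ha, Finset.mem_biUnion.2 ⟨b, hb, hz⟩⟩))
  have hne : ∀ {p : K[X]}, ¬ D ∣ p → aeval ρ p ≠ 0 := by
    intro p hp h
    rw [hmk, AdjoinRoot.mk_eq_zero] at h
    exact hp h
  have nD : ‖φ (algebraMap K[X] (RatFunc K) D)‖ = ‖ε‖ := (norm_near_pow (m := 0) hc hn yD yc).1
  have nc : ‖φ (algebraMap K[X] (RatFunc K) c)‖ = 1 := (near_unit yc hn (hne hc)).1
  have hP0 : ∀ a ∈ A, P a ≠ 0 := by
    intro a ha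
    rw [hPP a ha]
    refine mul_ne_zero (pow_ne_zero _ hD.ne_zero) ?_
    intro h
    exact hP' a ha (by rw [h]; exact dvd_zero _)
  have hφ : ∀ {p : K[X]}, p ≠ 0 → φ (algebraMap K[X] (RatFunc K) p) ≠ 0 := fun h =>
    (_root_.map_ne_zero _).2 ((map_ne_zero_iff _ hinj).2 h)
  have hc0 : c ≠ 0 := by
    rintro rfl
    exact hc (dvd_zero _)
  have key := ram_types (L := i0.Lv) A (fun a => φ (algebraMap K[X] (RatFunc K) a))
    (fun a => φ (algebraMap K[X] (RatFunc K) (P a))) (fun a ha => hφ (hP0 a ha)) ?_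
    (halt ⟨i0.L, i0.v, φ⟩) hn.ne hn.lt hn.dv m ?_
    (d := φ (algebraMap K[X] (RatFunc K) (D * c))) ?_ ?_
  · rcases key with ⟨h1, h2, h3⟩ | ⟨a0, h1, h2, h3⟩
    · left
      refine ⟨h1, h2, fun a ha b hb => ?_⟩
      rw [map_mul, map_mul]
      exact h3 a ha b hb
    · right
      refine ⟨a0, h1, h2, fun a ha hne => ⟨(h3 a ha hne).1, ?_⟩⟩
      rw [map_mul, map_mul, map_sub, map_sub]
      exact (h3 a ha hne).2
  · intro a ha b hb hab
    have h2 := (near_unit (yd a ha b hb) hn (hne (hd a ha b hb hab))).1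
    rw [← h2, map_sub, map_sub]
  · intro a ha
    change ‖φ (algebraMap K[X] (RatFunc K) (P a))‖ = ‖ε‖ ^ m a
    rw [hPP a ha]
    exact (norm_near_pow (hP' a ha) hn yD (yP a ha)).2
  · rw [map_mul, map_mul, norm_mul, nD, nc, mul_one]
  · rw [← map_prod, ← map_prod, ← map_mul, ← map_mul]
    refine sq_of_isSq (i := ⟨i0.L, i0.v, φ⟩) ?_ hprod
    exact (map_ne_zero_iff _ hinj).2 (mul_ne_zero (mul_ne_zero hD.ne_zero hc0)
      (Finset.prod_ne_zero_iff.2 hP0))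

end near

end Pool.Agent.Q308.BS
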