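import Pool.Agent.Q308.BS.HypB

/-!
Classes of the points of a hyperelliptic curve with branch points in `K[S]` over a generic twist.
-/

set_option autoImplicit false
set_option linter.unusedSectionVars false

open Polynomial IsDedekindDomain NumberField

namespace Pool.Agent.Q308.BS

open Pool.Agent.TH954 Pool.Agent.Y791.BS Pool.Agent.Y791.BF Pool.Agent.Y791.BF.Types
  Pool.Agent.Y791.BC Pool.Agent.Y791.BC.LegCls Pool.Agent.H918R3 Pool.Agent.H918R3.TB1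

variable {K : Type} [Field K] [CharZero K]

theorem mu_of_irr {D : K[X]} (hD : Irreducible D) {Q Q' : K[X]} {m : ℕ} (q : Q = D ^ m * Q')
    (d : ¬ D ∣ Q') {ρ : AlgebraicClosure K} (h : aeval ρ D = 0) : mu Q ρ = m := by
  have h1 : mu D ρ = 1 := mu_irr hD h
  have h2 : aeval ρ Q' ≠ 0 := by
    intro h0
    have h3 : minpoly K ρ ∣ Q' := minpoly.dvd K ρ h0
    have h4 : minpoly K ρ ∣ D := minpoly.dvd K ρ h
    have h5 : Irreducible (minpoly K ρ) := minpoly.irreducible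
      (Algebra.IsIntegral.isIntegral ρ)
    have h6 : Associated (minpoly K ρ) D := h5.associated_of_dvd hD h4
    exact d (h6.symm.dvd.trans h3)
  have h3 : mu Q' ρ = 0 := mu_eq_zero h2
  have hD0 : D ^ m ≠ 0 := pow_ne_zero _ hD.ne_zero
  have hQ'0 : Q' ≠ 0 := by
    rintro rfl
    exact d (dvd_zero _)
  rw [q, mu_mul hD0 hQ'0, mu_pow, h1, h3, mul_one, add_zero]

theorem BadH.not_dvd {A : Finset K[X]} {c : K[X]} {T : Finset K[X]} (hT : BadH A c T) {D : K[X]}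
    (hD : Irreducible D) (hDT : ∀ π ∈ T, ¬ D ∣ π) :
    ¬ D ∣ c ∧ ∀ a ∈ A, ∀ b ∈ A, a ≠ b → ¬ D ∣ a - b := by
  have hD0 := hD.ne_zero
  have key : ¬ (D ∣ c ∨ ∃ a ∈ A, ∃ b ∈ A, a ≠ b ∧ D ∣ a - b) := by
    intro hd
    set u := D.leadingCoeff with hu
    have hu0 : u ≠ 0 := leadingCoeff_ne_zero.2 hD0
    have hass : Associated D (C u⁻¹ * D) := by
      have hunit : IsUnit (C u⁻¹ : K[X]) := isUnit_C.2 (isUnit_iff_ne_zero.2 (inv_ne_zero hu0))
      exact ⟨hunit.unit, by rw [IsUnit.unit_spec, mul_comm]⟩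
    have hmon : (C u⁻¹ * D).Monic := by
      rw [Monic, leadingCoeff_mul, leadingCoeff_C, ← hu, inv_mul_cancel₀ hu0]
    refine hDT _ ((hT _).2 ⟨hmon, hass.irreducible hD, ?_⟩) hass.dvd
    rcases hd with hd | ⟨a, ha, b, hb, hab, hd⟩
    · exact Or.inl (hass.symm.dvd.trans hd)
    · exact Or.inr ⟨a, ha, b, hb, hab, hass.symm.dvd.trans hd⟩
  refine ⟨fun h => key (Or.inl h), fun a ha b hb hab h => key (Or.inr ⟨a, ha, b, hb, hab, h⟩)⟩

theorem BadH.away {A : Finset K[X]} {c : K[X]} {T : Finset K[X]} (hT : BadH A c T)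
    {ρ : AlgebraicClosure K} (hρ : ∀ π ∈ T, aeval ρ π ≠ 0) :
    aeval ρ c ≠ 0 ∧ ∀ a ∈ A, ∀ b ∈ A, a ≠ b → aeval ρ (a - b) ≠ 0 := by
  have hint : IsIntegral K ρ := Algebra.IsIntegral.isIntegral ρ
  constructor
  · intro h
    exact hρ _ ((hT _).2 ⟨minpoly.monic hint, minpoly.irreducible hint,
      Or.inl (minpoly.dvd K ρ h)⟩) (minpoly.aeval K ρ)
  · intro a ha b hb hab h
    exact hρ _ ((hT _).2 ⟨minpoly.monic hint, minpoly.irreducible hint,
      Or.inr ⟨a, ha, b, hb, hab, minpoly.dvd K ρ h⟩⟩) (minpoly.aeval K ρ)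

variable [hess : Algebra.EssFiniteType ℚ K]

/-- **The classes of a point of a generic twist.** -/
theorem squares {D : K[X]} (hD : Irreducible D) (hodd : Odd D.natDegree) {A : Finset K[X]}
    {c : K[X]} (hc0 : c ≠ 0) {T : Finset K[X]} (hT : BadH A c T) (hDT : ∀ π ∈ T, ¬ D ∣ π)
    (hind : ∀ (c : K) (e : K[X] → ℕ) (z : K[X]), c ≠ 0 →
      D ∣ C c * ∏ π ∈ T, π ^ e π - z ^ 2 → ∀ π ∈ T, 2 ∣ e π)
    {P : K[X] → K[X]} (hP : ∀ a ∈ A, P a ≠ 0) (halt : Alt A P)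
    (hprod : IsSquare (algebraMap K[X] (RatFunc K) (D * c * ∏ a ∈ A, P a))) (hcard : 1 < A.card) :
    (Odd A.card ∧ ∀ a ∈ A, ∀ b ∈ A, IsSquare (algebraMap K[X] (RatFunc K) (P a * P b))) ∨
      ∃ a0 ∈ A, ∀ a ∈ A, a ≠ a0 → ∀ b ∈ A, b ≠ a0 →
        IsSquare (algebraMap K[X] (RatFunc K) (P a * (a0 - a) * (P b * (a0 - b)))) := by
  classical
  have hF : S_FrobRes := FrobRes.main
  have hEmb : S_EmbFG := EmbFG.main hF
  haveI : Fact (Irreducible D) := ⟨hD⟩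
  obtain ⟨hDc, hDd⟩ := hT.not_dvd hD hDT
  have hT' : ∀ π ∈ T, π.Monic ∧ Irreducible π := fun π hπ => by
    obtain ⟨h1, h2, -⟩ := (hT π).1 hπ
    exact ⟨h1, h2⟩
  have hex : ∀ a : K[X], ∃ Q : K[X], a ∈ A → P a = D ^ multiplicity D (P a) * Q ∧ ¬ D ∣ Q := by
    intro a
    by_cases ha : a ∈ A
    · obtain ⟨Q, q1, q2⟩ :=
        (FiniteMultiplicity.of_prime_left hD.prime (hP a ha)).exists_eq_pow_mul_and_not_dvd
      exact ⟨Q, fun _ => ⟨q1, q2⟩⟩
    · exact ⟨0, fun h => absurd h ha⟩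
  choose P' hP' using hex
  set m : K[X] → ℕ := fun a => multiplicity D (P a) with hm
  obtain ⟨Y, hY⟩ := near_types (m := m) (fun a ha => (hP' a ha).1) (fun a ha => (hP' a ha).2) hDc
    hDd halt hprod
  have hmu : ∀ a ∈ A, ∀ ρ : AlgebraicClosure K, aeval ρ D = 0 → mu (P a) ρ = m a :=
    fun a ha ρ h => mu_of_irr hD (hP' a ha).1 (hP' a ha).2 h
  have hE0 : D * c ≠ 0 := mul_ne_zero hD.ne_zero hc0
  -- away from `D`
  have ev : ∀ ρ : AlgebraicClosure K, aeval ρ D ≠ 0 → (∀ π ∈ T, aeval ρ π ≠ 0) →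
      ∀ a ∈ A, ∀ b ∈ A, Even (mu (P a) ρ + mu (P b) ρ) := by
    intro ρ h hρ
    obtain ⟨h1, h2⟩ := hT.away hρ
    exact even_pair hEmb hP halt hE0 hprod (by rw [map_mul]; exact mul_ne_zero h h1) h2
  -- the type at `D`
  obtain ⟨ρ, hρ⟩ := IsAlgClosed.exists_aeval_eq_zero (AlgebraicClosure K) D
    (degree_pos_of_irreducible hD).ne'
  have hρT : ∀ π ∈ T, aeval ρ π ≠ 0 := by
    intro π hπ h0
    have h3 : minpoly K ρ ∣ π := minpoly.dvd K ρ h0
    have h4 : minpoly K ρ ∣ D := minpoly.dvd K ρ hρ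
    have h5 : Irreducible (minpoly K ρ) := minpoly.irreducible
      (Algebra.IsIntegral.isIntegral ρ)
    have h6 : Associated (minpoly K ρ) D := h5.associated_of_dvd hD h4
    exact hDT π hπ (h6.symm.dvd.trans h3)
  obtain ⟨hρc, hρd⟩ := hT.away hρT
  have hmuE : mu (D * c) ρ = 1 := by
    rw [mu_mul hD.ne_zero hc0, mu_irr hD hρ, mu_eq_zero hρc]
  have htype := ram_pair hEmb hP halt hE0 hprod hmuE hρd
  rcases htype with ⟨h1, h2⟩ | ⟨a0, ha0, h1, h2⟩
  · left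
    have h1' : ∀ a ∈ A, Odd (m a) := fun a ha => by rw [← hmu a ha ρ hρ]; exact h1 a ha
    refine ⟨h2, fun a ha b hb => ?_⟩
    refine square_of_near hF hodd hT' hDT hind (mul_ne_zero (hP a ha) (hP b hb)) ?_ Y ?_
    · intro ρ' hρ'
      rw [mu_mul (hP a ha) (hP b hb)]
      by_cases h : aeval ρ' D = 0
      · rw [hmu a ha ρ' h, hmu b hb ρ' h]
        exact ((h1' a ha).add_odd (h1' b hb)).two_dvd
      · exact (ev ρ' h hρ' a ha b hb).two_dvd
    · intro i0 φ ε hu hn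
      rcases hY i0 φ ε hu hn with ⟨-, -, h3⟩ | ⟨a1, ha1, h3, h4⟩
      · exact h3 a ha b hb
      · exfalso
        obtain ⟨b1, hb1, hne⟩ := Finset.exists_mem_ne hcard a1
        exact Nat.not_even_iff_odd.2 (h1' b1 hb1) (h4 b1 hb1 hne).1
  · right
    refine ⟨a0, ha0, fun a ha hane b hb hbne => ?_⟩
    have h1' : Odd (m a0) := by rw [← hmu a0 ha0 ρ hρ]; exact h1
    have h2' : ∀ a ∈ A, a ≠ a0 → Even (m a) := fun a ha hne => by
      rw [← hmu a ha ρ hρ]; exact h2 a ha hne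
    have na : a0 - a ≠ 0 := sub_ne_zero.2 hane.symm
    have nb : a0 - b ≠ 0 := sub_ne_zero.2 hbne.symm
    refine square_of_near hF hodd hT' hDT hind
      (mul_ne_zero (mul_ne_zero (hP a ha) na) (mul_ne_zero (hP b hb) nb)) ?_ Y ?_
    · intro ρ' hρ'
      obtain ⟨hρc', hρd'⟩ := hT.away hρ'
      rw [mu_mul (mul_ne_zero (hP a ha) na) (mul_ne_zero (hP b hb) nb), mu_mul (hP a ha) na,
        mu_mul (hP b hb) nb, mu_eq_zero (hρd' a0 ha0 a ha hane.symm),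
        mu_eq_zero (hρd' a0 ha0 b hb hbne.symm), add_zero, add_zero]
      by_cases h : aeval ρ' D = 0
      · rw [hmu a ha ρ' h, hmu b hb ρ' h]
        exact ((h2' a ha hane).add (h2' b hb hbne)).two_dvd
      · exact (ev ρ' h hρ' a ha b hb).two_dvd
    · intro i0 φ ε hu hn
      have hul := ultra i0.v
      rcases hY i0 φ ε hu hn with ⟨h3, -⟩ | ⟨a1, ha1, h3, h4⟩
      · exact absurd (h2' a ha hane) (Nat.not_even_iff_odd.2 (h3 a ha))
      · have e : a1 = a0 := by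
          by_contra hne
          exact Nat.not_even_iff_odd.2 h3 (h2' a1 ha1 hne)
        rw [e] at h4
        rw [map_mul, map_mul]
        exact (h4 a ha hane).2.mul (h4 b hb hbne).2

end Pool.Agent.Q308.BS
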