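import Pool.Agent.Q308.BS.HypC
import Pool.Agent.Y791.BC.LegA

/-!
The elliptic quotient given by a point of a hyperelliptic curve with branch points in `K[S]` over a
generic twist.
-/

set_option autoImplicit false
set_option linter.unusedSectionVars false

open Polynomial IsDedekindDomain NumberField

namespace Pool.Agent.Q308.BS

open Pool.Agent.TH954 Pool.Agent.Y791.BS Pool.Agent.Y791.BF Pool.Agent.Y791.BF.Types
  Pool.Agent.Y791.BC Pool.Agent.Y791.BC.LegCls Pool.Agent.H918R3 Pool.Agent.H918R3.TB1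

/-- a product of an even number of elements of one class -/
theorem prod_even {R : Type} [Field R] {ι : Type} (O : Finset ι) (u : ι → R)
    (h0 : ∀ a ∈ O, u a ≠ 0) (hO : Even O.card) (h : ∀ a ∈ O, ∀ b ∈ O, IsSquare (u a * u b)) :
    IsSquare (∏ a ∈ O, u a) := by
  classical
  rcases O.eq_empty_or_nonempty with rfl | ⟨b, hb⟩
  · rw [Finset.prod_empty]
    exact ⟨1, by rw [mul_one]⟩
  · have h1 : IsSquare (∏ a ∈ O, (u a * u b)) := by
      have : ∀ a ∈ O, ∃ s, u a * u b = s * s := fun a ha => h a ha b hb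
      choose! s hs using this
      refine ⟨∏ a ∈ O, s a, ?_⟩
      rw [← Finset.prod_mul_distrib]
      exact Finset.prod_congr rfl hs
    rw [Finset.prod_mul_distrib, Finset.prod_const] at h1
    obtain ⟨n, hn⟩ := hO
    obtain ⟨s, hs⟩ := h1
    have hb0 := h0 b hb
    refine ⟨s / u b ^ n, ?_⟩
    rw [hn, pow_add] at hs
    field_simp
    linear_combination hs

variable {K : Type} [Field K]

section ell

variable {F0 : Type} [Field F0] [Algebra (RatFunc K) F0]

/-- the image of a polynomial -/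
noncomputable def cf (K F0 : Type) [Field K] [Field F0] [Algebra (RatFunc K) F0] : K[X] →+* F0 :=
  (algebraMap (RatFunc K) F0).comp (algebraMap K[X] (RatFunc K))

/-- a point of a twist of an elliptic curve with full two-torsion and good reduction away from `T` -/
def EllPt (T : Finset K[X]) (D : K[X]) (x : F0) : Prop :=
  ∃ (e r1 r2 r3 : K[X]) (x' Y' : F0), e ≠ 0 ∧ r1 ≠ r2 ∧ r1 ≠ r3 ∧ r2 ≠ r3 ∧
    (∀ π : K[X], π.Monic → Irreducible π →
      (π ∣ e * r1 - e * r2 ∨ π ∣ e * r1 - e * r3 ∨ π ∣ e * r2 - e * r3) → π ∈ T) ∧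
    cf K F0 (D * e) * Y' ^ 2 = (x' - cf K F0 r1) * (x' - cf K F0 r2) * (x' - cf K F0 r3) ∧
    (IsAlgebraic (RatFunc K) x' → IsAlgebraic (RatFunc K) x)

theorem ell_three {T : Finset K[X]} {D c q : K[X]} {A : Finset K[X]} (hT : BadH A c T)
    (hc0 : c ≠ 0) (hq0 : q ≠ 0) (hq : ∀ π : K[X], π.Monic → Irreducible π → π ∣ q → π ∈ T)
    {a1 a2 a3 : K[X]} (m1 : a1 ∈ A) (m2 : a2 ∈ A) (m3 : a3 ∈ A) (n12 : a1 ≠ a2) (n13 : a1 ≠ a3)
    (n23 : a2 ≠ a3) {x Y : F0} (h : cf K F0 (D * (c * q)) * Y ^ 2 =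
      (x - cf K F0 a1) * (x - cf K F0 a2) * (x - cf K F0 a3)) : EllPt T D x := by
  refine ⟨c * q, a1, a2, a3, x, Y, mul_ne_zero hc0 hq0, n12, n13, n23, ?_, h, id⟩
  have key : ∀ {a b : K[X]}, a ∈ A → b ∈ A → a ≠ b → ∀ π : K[X], π.Monic → Irreducible π →
      π ∣ c * q * a - c * q * b → π ∈ T := by
    intro a b ha hb hab π h1 h2 h3
    rw [← mul_sub] at h3
    rcases h2.prime.dvd_or_dvd h3 with h4 | h4
    · rcases h2.prime.dvd_or_dvd h4 with h5 | h5
      · exact (hT π).2 ⟨h1, h2, Or.inl h5⟩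
      · exact hq π h1 h2 h5
    · exact (hT π).2 ⟨h1, h2, Or.inr ⟨a, ha, b, hb, hab, h4⟩⟩
  rintro π h1 h2 (h3 | h3 | h3)
  · exact key m1 m2 n12 π h1 h2 h3
  · exact key m1 m3 n13 π h1 h2 h3
  · exact key m2 m3 n23 π h1 h2 h3

theorem ell_four {T : Finset K[X]} {D c q : K[X]} {A : Finset K[X]} (hT : BadH A c T)
    (hc0 : c ≠ 0) (hq0 : q ≠ 0) (hq : ∀ π : K[X], π.Monic → Irreducible π → π ∣ q → π ∈ T)
    {a0 a1 a2 a3 : K[X]} (m0 : a0 ∈ A) (m1 : a1 ∈ A) (m2 : a2 ∈ A) (m3 : a3 ∈ A) (n01 : a0 ≠ a1)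
    (n02 : a0 ≠ a2) (n03 : a0 ≠ a3) (n12 : a1 ≠ a2) (n13 : a1 ≠ a3)
    (n23 : a2 ≠ a3) {x Y : F0} (hx0 : x ≠ cf K F0 a0) (h : cf K F0 (D * (c * q)) * Y ^ 2 =
      (x - cf K F0 a0) * (x - cf K F0 a1) * (x - cf K F0 a2) * (x - cf K F0 a3)) :
    EllPt T D x := by
  have s1 : a0 - a1 ≠ 0 := sub_ne_zero.2 n01
  have s2 : a0 - a2 ≠ 0 := sub_ne_zero.2 n02
  have s3 : a0 - a3 ≠ 0 := sub_ne_zero.2 n03
  have hinj : Function.Injective (cf K F0) :=
    (algebraMap (RatFunc K) F0).injective.comp (RatFunc.algebraMap_injective K)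
  have hx : x - cf K F0 a0 ≠ 0 := sub_ne_zero.2 hx0
  set β : F0 := cf K F0 ((a0 - a1) * (a0 - a2) * (a0 - a3)) with hβ
  have hβ0 : β ≠ 0 := (map_ne_zero_iff _ hinj).2 (mul_ne_zero (mul_ne_zero s1 s2) s3)
  refine ⟨c * q, -((a0 - a2) * (a0 - a3)), -((a0 - a1) * (a0 - a3)), -((a0 - a1) * (a0 - a2)),
    β * (x - cf K F0 a0)⁻¹, Y * ((x - cf K F0 a0)⁻¹) ^ 2 * β, mul_ne_zero hc0 hq0, ?_, ?_, ?_,
    ?_, ?_, ?_⟩
  · intro h0
    apply n12
    have h1 := neg_injective h0
    have h2 := mul_right_cancel₀ s3 h1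
    linear_combination h2
  · intro h0
    apply n13
    have h1 := neg_injective h0
    rw [mul_comm (a0 - a2)] at h1
    have h2 := mul_right_cancel₀ s2 h1
    linear_combination h2
  · intro h0
    apply n23
    have h1 := neg_injective h0
    have h2 := mul_left_cancel₀ s1 h1
    linear_combination h2
  · have key : ∀ {a b d : K[X]}, a ∈ A → b ∈ A → a ≠ b → d ∈ A → a0 ≠ d →
        ∀ π : K[X], π.Monic → Irreducible π → π ∣ c * q * ((a0 - d) * (a - b)) → π ∈ T := by
      intro a b d ha hb hab hd hne π h1 h2 h3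
      rcases h2.prime.dvd_or_dvd h3 with h4 | h4
      · rcases h2.prime.dvd_or_dvd h4 with h5 | h5
        · exact (hT π).2 ⟨h1, h2, Or.inl h5⟩
        · exact hq π h1 h2 h5
      · rcases h2.prime.dvd_or_dvd h4 with h5 | h5
        · exact (hT π).2 ⟨h1, h2, Or.inr ⟨a0, m0, d, hd, hne, h5⟩⟩
        · exact (hT π).2 ⟨h1, h2, Or.inr ⟨a, ha, b, hb, hab, h5⟩⟩
    rintro π h1 h2 (h3 | h3 | h3)
    · refine key m2 m1 n12.symm m3 n03 π h1 h2 ?_
      convert h3 using 1
      ring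
    · refine key m3 m1 n13.symm m2 n02 π h1 h2 ?_
      convert h3 using 1
      ring
    · refine key m3 m2 n23.symm m1 n01 π h1 h2 ?_
      convert h3 using 1
      ring
  · have e1 : β = (cf K F0 a0 - cf K F0 a1) * (cf K F0 a0 - cf K F0 a2) *
        (cf K F0 a0 - cf K F0 a3) := by
      rw [hβ, map_mul, map_mul, map_sub, map_sub, map_sub]
    have e2 : cf K F0 (-((a0 - a2) * (a0 - a3))) =
        -((cf K F0 a0 - cf K F0 a2) * (cf K F0 a0 - cf K F0 a3)) := by
      rw [map_neg, map_mul, map_sub, map_sub]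
    have e3 : cf K F0 (-((a0 - a1) * (a0 - a3))) =
        -((cf K F0 a0 - cf K F0 a1) * (cf K F0 a0 - cf K F0 a3)) := by
      rw [map_neg, map_mul, map_sub, map_sub]
    have e4 : cf K F0 (-((a0 - a1) * (a0 - a2))) =
        -((cf K F0 a0 - cf K F0 a1) * (cf K F0 a0 - cf K F0 a2)) := by
      rw [map_neg, map_mul, map_sub, map_sub]
    rw [e2, e3, e4, e1]
    generalize cf K F0 a0 = α0 at *
    generalize cf K F0 a1 = α1 at *
    generalize cf K F0 a2 = α2 at *
    generalize cf K F0 a3 = α3 at *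
    field_simp
    linear_combination (α0 - α1) ^ 2 * (α0 - α2) ^ 2 * (α0 - α3) ^ 2 * h
  · intro hal
    have h1 : IsAlgebraic (RatFunc K) β := isAlgebraic_algebraMap _
    have h2 : IsAlgebraic (RatFunc K) (cf K F0 a0) := isAlgebraic_algebraMap _
    have h3 := (h1.mul hal.inv).add h2
    have e : β * (β * (x - cf K F0 a0)⁻¹)⁻¹ + cf K F0 a0 = x := by
      rw [mul_inv, inv_inv, ← mul_assoc, mul_inv_cancel₀ hβ0, one_mul, sub_add_cancel]
    rwa [e] at h3

/-- removal of the factors in one class -/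
theorem reduce {A B : Finset K[X]} (hB : B ⊆ A) {P : K[X] → K[X]} (hP : ∀ a ∈ A, P a ≠ 0)
    {g : K[X] → F0} {x y : F0} (hx : ∀ a ∈ A, x ≠ cf K F0 a)
    (hg : ∀ a ∈ A, x - cf K F0 a = cf K F0 (P a) * g a ^ 2) {E q : K[X]} (hq : q ≠ 0)
    (hxy : cf K F0 E * y ^ 2 = ∏ a ∈ A, (x - cf K F0 a)) [DecidableEq K[X]]
    (hs : IsSquare (algebraMap K[X] (RatFunc K) (q * ∏ a ∈ A \ B, P a))) :
    ∃ Y : F0, cf K F0 (E * q) * Y ^ 2 = ∏ a ∈ B, (x - cf K F0 a) := by
  obtain ⟨s, hs⟩ := hs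
  have hinj : Function.Injective (cf K F0) :=
    (algebraMap (RatFunc K) F0).injective.comp (RatFunc.algebraMap_injective K)
  have hs' : cf K F0 q * ∏ a ∈ A \ B, cf K F0 (P a) =
      algebraMap (RatFunc K) F0 s ^ 2 := by
    rw [← map_prod, ← map_mul]
    change algebraMap (RatFunc K) F0 (algebraMap K[X] (RatFunc K) _) = _
    rw [hs, map_mul, pow_two]
  set σ := algebraMap (RatFunc K) F0 s with hσ
  have hP' : ∀ a ∈ A \ B, P a ≠ 0 := fun a ha => hP a (Finset.sdiff_subset ha)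
  have hσ0 : σ ≠ 0 := by
    intro h0
    rw [h0, zero_pow two_ne_zero, ← map_prod, ← map_mul] at hs'
    exact mul_ne_zero hq (Finset.prod_ne_zero_iff.2 hP') (hinj (by rw [hs', map_zero]))
  set G := ∏ a ∈ A \ B, g a with hG
  have hG0 : G ≠ 0 := by
    rw [hG, Finset.prod_ne_zero_iff]
    intro a ha h0
    have h1 := hg a (Finset.sdiff_subset ha)
    rw [h0, zero_pow two_ne_zero, mul_zero, sub_eq_zero] at h1
    exact hx a (Finset.sdiff_subset ha) h1
  have hprod : ∏ a ∈ A \ B, (x - cf K F0 a) = (∏ a ∈ A \ B, cf K F0 (P a)) * G ^ 2 := by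
    rw [hG, ← Finset.prod_pow, ← Finset.prod_mul_distrib]
    exact Finset.prod_congr rfl fun a ha => hg a (Finset.sdiff_subset ha)
  rw [← Finset.prod_sdiff hB, hprod] at hxy
  refine ⟨y / (σ * G), ?_⟩
  rw [map_mul]
  have hσG : (σ * G) ^ 2 ≠ 0 := pow_ne_zero _ (mul_ne_zero hσ0 hG0)
  rw [div_pow, mul_div_assoc', div_eq_iff hσG]
  rw [mul_pow, ← hs']
  linear_combination (cf K F0 q) * hxy

end ell

variable [CharZero K] [hess : Algebra.EssFiniteType ℚ K]
variable {F0 : Type} [Field F0] [Algebra (RatFunc K) F0]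

/-- **The elliptic quotient.** -/
theorem ell_exists {D : K[X]} (hD : Irreducible D) (hodd : Odd D.natDegree) {A : Finset K[X]}
    {c : K[X]} (hc0 : c ≠ 0) {T : Finset K[X]} (hT : BadH A c T) (hDT : ∀ π ∈ T, ¬ D ∣ π)
    (hind : ∀ (c : K) (e : K[X] → ℕ) (z : K[X]), c ≠ 0 →
      D ∣ C c * ∏ π ∈ T, π ^ e π - z ^ 2 → ∀ π ∈ T, 2 ∣ e π)
    (q : ∀ i : PlF (RatFunc K), Plc (RatFunc K) F0 i.Lv) (hkum : Leg.KumF K F0)
    (hdesc : ∀ (r : RatFunc K) (w : F0), algebraMap (RatFunc K) F0 r = w ^ 2 → IsSquare r)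
    (hcard : 2 < A.card) {x y : F0} (hx : ∀ a ∈ A, x ≠ cf K F0 a)
    (hxy : cf K F0 (D * c) * y ^ 2 = ∏ a ∈ A, (x - cf K F0 a)) : EllPt T D x := by
  classical
  have hinj : Function.Injective (cf K F0) :=
    (algebraMap (RatFunc K) F0).injective.comp (RatFunc.algebraMap_injective K)
  have hex : ∀ a : K[X], ∃ (P : K[X]) (g : F0), a ∈ A → P ≠ 0 ∧
      x - cf K F0 a = cf K F0 P * g ^ 2 := by
    intro a
    by_cases ha : a ∈ A
    · obtain ⟨P, g, h1, h2⟩ := hkum (x - cf K F0 a) (sub_ne_zero.2 (hx a ha)) 2 two_pos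
      exact ⟨P, g, fun _ => ⟨h1, h2⟩⟩
    · exact ⟨0, 0, fun h => absurd h ha⟩
  choose P g hPg using hex
  have hP : ∀ a ∈ A, P a ≠ 0 := fun a ha => (hPg a ha).1
  have hg : ∀ a ∈ A, x - cf K F0 a = cf K F0 (P a) * g a ^ 2 := fun a ha => (hPg a ha).2
  have halt : Alt A P := loc_alt q hP hx hg
  have hE0 : D * c ≠ 0 := mul_ne_zero hD.ne_zero hc0
  have hprod : IsSquare (algebraMap K[X] (RatFunc K) (D * c * ∏ a ∈ A, P a)) := by
    have hG0 : ∏ a ∈ A, g a ≠ 0 := by
      rw [Finset.prod_ne_zero_iff]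
      intro a ha h0
      have h1 := hg a ha
      rw [h0, zero_pow two_ne_zero, mul_zero, sub_eq_zero] at h1
      exact hx a ha h1
    refine hdesc _ (cf K F0 (D * c) * y / ∏ a ∈ A, g a) ?_
    change cf K F0 (D * c * ∏ a ∈ A, P a) = _
    rw [Finset.prod_congr rfl hg, Finset.prod_mul_distrib, Finset.prod_pow] at hxy
    rw [div_pow, eq_div_iff (pow_ne_zero _ hG0), map_mul (cf K F0) (D * c), map_prod]
    linear_combination (-cf K F0 (D * c)) * hxy
  have hcx : ∀ {p : K[X]}, p ≠ 0 → algebraMap K[X] (RatFunc K) p ≠ 0 := fun h =>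
    (map_ne_zero_iff _ (RatFunc.algebraMap_injective K)).2 h
  -- the class of a product of an even number of factors
  have hsq := squares hD hodd hc0 hT hDT hind hP halt hprod (by omega)
  have key : ∃ a0 ∈ A, ∀ B ⊆ A, a0 ∈ B → Even (A \ B).card → ∃ q : K[X], q ≠ 0 ∧
        (∀ π : K[X], π.Monic → Irreducible π → π ∣ q → π ∈ T) ∧
        IsSquare (algebraMap K[X] (RatFunc K) (q * ∏ a ∈ A \ B, P a)) := by
      rcases hsq with ⟨-, h⟩ | ⟨a0, ha0, h⟩
      · obtain ⟨a0, ha0⟩ : A.Nonempty := Finset.card_pos.1 (by omega)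
        refine ⟨a0, ha0, fun B hB hB0 hev => ⟨1, one_ne_zero, ?_, ?_⟩⟩
        · intro π h1 h2 h3
          exact absurd (isUnit_of_dvd_one h3) h2.not_isUnit
        · rw [one_mul, map_prod]
          refine prod_even _ _ (fun a ha => hcx (hP a (Finset.sdiff_subset ha))) hev ?_
          intro a ha b hb
          rw [← map_mul]
          exact h a (Finset.sdiff_subset ha) b (Finset.sdiff_subset hb)
      · refine ⟨a0, ha0, fun B hB hB0 hev => ⟨∏ a ∈ A \ B, (a0 - a), ?_, ?_, ?_⟩⟩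
        · rw [Finset.prod_ne_zero_iff]
          intro a ha
          rw [Finset.mem_sdiff] at ha
          refine sub_ne_zero.2 ?_
          rintro rfl
          exact ha.2 hB0
        · intro π h1 h2 h3
          obtain ⟨a, ha, h4⟩ := (Prime.dvd_finsetProd_iff h2.prime _).1 h3
          rw [Finset.mem_sdiff] at ha
          refine (hT π).2 ⟨h1, h2, Or.inr ⟨a0, ha0, a, ha.1, ?_, h4⟩⟩
          rintro rfl
          exact ha.2 hB0
        · rw [← Finset.prod_mul_distrib, map_prod]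
          have hne : ∀ a ∈ A \ B, a ≠ a0 := by
            intro a ha
            rw [Finset.mem_sdiff] at ha
            rintro rfl
            exact ha.2 hB0
          refine prod_even _ _ (fun a ha => ?_) hev ?_
          · exact hcx (mul_ne_zero (sub_ne_zero.2 (hne a ha).symm) (hP a (Finset.sdiff_subset ha)))
          · intro a ha b hb
            rw [← map_mul]
            have h5 := h a (Finset.sdiff_subset ha) (hne a ha) b (Finset.sdiff_subset hb) (hne b hb)
            have e : (a0 - a) * P a * ((a0 - b) * P b) = P a * (a0 - a) * (P b * (a0 - b)) := by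
              ring
            rw [e]
            exact h5
  obtain ⟨a0, ha0, hB⟩ := key
  have hErase : (A.erase a0).card = A.card - 1 := Finset.card_erase_of_mem ha0
  rcases Nat.even_or_odd A.card with hev | hod
  · -- four branch points
    have h4 : 4 ≤ A.card := by
      rcases hev with ⟨n, hn⟩
      omega
    obtain ⟨B', hB', hc3⟩ := Finset.exists_subset_card_eq (s := A.erase a0) (n := 3) (by omega)
    obtain ⟨a1, a2, a3, n12, n13, n23, rfl⟩ := Finset.card_eq_three.1 hc3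
    have m1 := hB' (by simp : a1 ∈ ({a1, a2, a3} : Finset K[X]))
    have m2 := hB' (by simp : a2 ∈ ({a1, a2, a3} : Finset K[X]))
    have m3 := hB' (by simp : a3 ∈ ({a1, a2, a3} : Finset K[X]))
    rw [Finset.mem_erase] at m1 m2 m3
    have hsub : insert a0 ({a1, a2, a3} : Finset K[X]) ⊆ A := by
      intro z hz
      simp only [Finset.mem_insert, Finset.mem_singleton] at hz
      rcases hz with rfl | rfl | rfl | rfl
      · exact ha0
      · exact m1.2
      · exact m2.2
      · exact m3.2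
    have hn : a0 ∉ ({a1, a2, a3} : Finset K[X]) := by
      simp only [Finset.mem_insert, Finset.mem_singleton, not_or]
      exact ⟨m1.1.symm, m2.1.symm, m3.1.symm⟩
    have hcB : (insert a0 ({a1, a2, a3} : Finset K[X])).card = 4 := by
      rw [Finset.card_insert_of_notMem hn, hc3]
    have hcd : (A \ insert a0 ({a1, a2, a3} : Finset K[X])).card = A.card - 4 := by
      rw [Finset.card_sdiff_of_subset hsub, hcB]
    have hevd : Even (A \ insert a0 ({a1, a2, a3} : Finset K[X])).card := by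
      rw [hcd]
      obtain ⟨n, hn'⟩ := hev
      exact ⟨n - 2, by omega⟩
    obtain ⟨q, hq0, hqT, hqs⟩ := hB _ hsub (Finset.mem_insert_self _ _) hevd
    obtain ⟨Y, hY⟩ := reduce hsub hP hx hg hq0 hxy hqs
    rw [Finset.prod_insert hn, Finset.prod_insert (by
        simp only [Finset.mem_insert, Finset.mem_singleton, not_or]
        exact ⟨n12, n13⟩), Finset.prod_insert (by
        rw [Finset.mem_singleton]; exact n23), Finset.prod_singleton, mul_assoc D c q] at hY
    refine ell_four hT hc0 hq0 hqT ha0 m1.2 m2.2 m3.2 m1.1.symm m2.1.symm m3.1.symm n12 n13 n23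
      (hx a0 ha0) (Y := Y) ?_
    rw [hY]
    ring
  · obtain ⟨B', hB', hc2⟩ := Finset.exists_subset_card_eq (s := A.erase a0) (n := 2) (by omega)
    obtain ⟨a1, a2, n12, rfl⟩ := Finset.card_eq_two.1 hc2
    have m1 := hB' (by simp : a1 ∈ ({a1, a2} : Finset K[X]))
    have m2 := hB' (by simp : a2 ∈ ({a1, a2} : Finset K[X]))
    rw [Finset.mem_erase] at m1 m2
    have hsub : insert a0 ({a1, a2} : Finset K[X]) ⊆ A := by
      intro z hz
      simp only [Finset.mem_insert, Finset.mem_singleton] at hz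
      rcases hz with rfl | rfl | rfl
      · exact ha0
      · exact m1.2
      · exact m2.2
    have hn : a0 ∉ ({a1, a2} : Finset K[X]) := by
      simp only [Finset.mem_insert, Finset.mem_singleton, not_or]
      exact ⟨m1.1.symm, m2.1.symm⟩
    have hcB : (insert a0 ({a1, a2} : Finset K[X])).card = 3 := by
      rw [Finset.card_insert_of_notMem hn, hc2]
    have hcd : (A \ insert a0 ({a1, a2} : Finset K[X])).card = A.card - 3 := by
      rw [Finset.card_sdiff_of_subset hsub, hcB]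
    have hevd : Even (A \ insert a0 ({a1, a2} : Finset K[X])).card := by
      rw [hcd]
      obtain ⟨n, hn'⟩ := hod
      exact ⟨n - 1, by omega⟩
    obtain ⟨q, hq0, hqT, hqs⟩ := hB _ hsub (Finset.mem_insert_self _ _) hevd
    obtain ⟨Y, hY⟩ := reduce hsub hP hx hg hq0 hxy hqs
    rw [Finset.prod_insert hn, Finset.prod_insert (by
        rw [Finset.mem_singleton]; exact n12), Finset.prod_singleton, mul_assoc D c q] at hY
    refine ell_three hT hc0 hq0 hqT ha0 m1.2 m2.2 m1.1.symm m2.1.symm n12 (Y := Y) ?_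
    rw [hY]
    ring

end Pool.Agent.Q308.BS
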