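import Pool.Agent.Q308.BS.SelW
import Pool.Agent.Q308.TW.Full
import Pool.Agent.Y791.BC.SelG
import Pool.Agent.Y791.BC.ConjA
import Pool.Agent.Y791.BC.EmbP
import Pool.Agent.Y791.BC.SelShift
import Pool.Agent.Y791.BC.Desc2T
import Pool.Agent.Y791.BC.Desc
import Pool.Agent.Y791.BF.ObsFG

/-!
The birational section conjecture for the curves over generic quadratic twists of an elliptic curve.
-/

set_option autoImplicit false
set_option linter.unusedSectionVars false

open Polynomial IsDedekindDomain NumberField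

namespace Pool.Agent.Q308.BS

open Pool.Agent.TH954 Pool.Agent.Y791.BS Pool.Agent.Y791.BF Pool.Agent.Y791.BF.Types
  Pool.Agent.Y791.BC Pool.Agent.H918R3

/-- the condition on the Selmer groups from a condition on the two-Selmer group -/
lemma killed_of {F : Type} [Field F] [CharZero F] {e₁ e₂ e₃ f₁ f₂ f₃ : F} {r : ℕ}
    (hsel : SelTor F r f₁ f₂ f₃) (h12 : f₁ ≠ f₂) (h13 : f₁ ≠ f₃) (h23 : f₂ ≠ f₃)
    (hs : e₁ + e₂ + e₃ = 0) (h2 : e₂ - e₁ = f₂ - f₁) (h3 : e₃ - e₁ = f₃ - f₁) :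
    SelKilled F (e₁ * e₂ + e₁ * e₃ + e₂ * e₃) (-(e₁ * e₂ * e₃)) (2 ^ r) := by
  have key := SelShift.shift F r f₁ f₂ f₃ (f₁ - e₁) h12 h13 h23 hsel
  have e1 : f₁ - (f₁ - e₁) = e₁ := by ring
  have e2 : f₂ - (f₁ - e₁) = e₂ := by linear_combination -h2
  have e3 : f₃ - (f₁ - e₁) = e₃ := by linear_combination -h3
  rw [e1, e2, e3] at key
  refine Leg.link Desc2T.main ?_ ?_ ?_ hs key
  · intro h
    apply h12
    linear_combination h2 + h
  · intro h
    apply h13
    linear_combination h3 + h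
  · intro h
    apply h23
    linear_combination h + h3 - h2

/-- The conditions on the polynomial `D`. -/
structure GoodTwist {K : Type} [Field K] (T : Finset K[X]) (D : K[X]) : Prop where
  irr : Irreducible D
  odd : Odd D.natDegree
  ndvd : ∀ π ∈ T, ¬ D ∣ π
  ind : ∀ (c : K) (e : K[X] → ℕ) (z : K[X]), c ≠ 0 →
      D ∣ C c * ∏ π ∈ T, π ^ e π - z ^ 2 → ∀ π ∈ T, 2 ∣ e π

theorem GoodTwist.smul {K : Type} [Field K] {T : Finset K[X]} {D : K[X]} (h : GoodTwist T D)
    {c : K} (hc : c ≠ 0) : GoodTwist T (C c * D) := by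
  have hu : IsUnit (C c : K[X]) := isUnit_C.2 (isUnit_iff_ne_zero.2 hc)
  have ha : Associated D (C c * D) := by
    refine ⟨hu.unit, ?_⟩
    rw [IsUnit.unit_spec, mul_comm]
  refine ⟨ha.irreducible h.irr, ?_, ?_, ?_⟩
  · rw [natDegree_C_mul hc]
    exact h.odd
  · intro π hπ hd
    exact h.ndvd π hπ (ha.dvd.trans hd)
  · intro c' e z hc' hd
    exact h.ind c' e z hc' (ha.dvd.trans hd)

section main

variable {K : Type} [Field K] [CharZero K] [hess : Algebra.EssFiniteType ℚ K]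

/-- A finite set of polynomials which contains the prime divisors of the three polynomials. -/
def Bad (a1 a2 a3 : K[X]) (T : Finset K[X]) : Prop :=
  ∀ π : K[X], π ∈ T ↔ π.Monic ∧ Irreducible π ∧ π ∣ (a1 - a2) * (a1 - a3) * (a2 - a3)

theorem selTor_of_good {T : Finset K[X]} {D : K[X]} (h : GoodTwist T D) {a1 a2 a3 : K[X]}
    (n12 : a1 ≠ a2) (n13 : a1 ≠ a3) (n23 : a2 ≠ a3) (hT : Bad a1 a2 a3 T) :
    SelTor (RatFunc K) 1 (algebraMap K[X] (RatFunc K) (D * a1))
      (algebraMap K[X] (RatFunc K) (D * a2)) (algebraMap K[X] (RatFunc K) (D * a3)) := by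
  have hD0 := h.irr.ne_zero
  -- `D` does not divide the differences
  have key : ¬ D ∣ (a1 - a2) * (a1 - a3) * (a2 - a3) := by
    intro hd
    set u := D.leadingCoeff with hu
    have hu0 : u ≠ 0 := leadingCoeff_ne_zero.2 hD0
    have hass : Associated D (C u⁻¹ * D) := by
      have hunit : IsUnit (C u⁻¹ : K[X]) := isUnit_C.2 (isUnit_iff_ne_zero.2 (inv_ne_zero hu0))
      exact ⟨hunit.unit, by rw [IsUnit.unit_spec, mul_comm]⟩
    have hmon : (C u⁻¹ * D).Monic := by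
      rw [Monic, leadingCoeff_mul, leadingCoeff_C, ← hu, inv_mul_cancel₀ hu0]
    exact h.ndvd _ ((hT _).2 ⟨hmon, hass.irreducible h.irr, hass.symm.dvd.trans hd⟩) hass.dvd
  have d12 : ¬ D ∣ a1 - a2 := fun hd => key ((hd.mul_right _).mul_right _)
  have d13 : ¬ D ∣ a1 - a3 := fun hd => key ((hd.mul_left _).mul_right _)
  have d23 : ¬ D ∣ a2 - a3 := fun hd => key (hd.mul_left _)
  refine sel_twist h.irr h.odd d12 d13 d23 n12 n13 n23 (fun π hπ => ?_) h.ndvd ?_ h.ind
  · obtain ⟨h1, h2, -⟩ := (hT π).1 hπ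
    exact ⟨h1, h2⟩
  · rintro π h1 h2 (h3 | h3 | h3)
    · exact (hT π).2 ⟨h1, h2, (h3.mul_right _).mul_right _⟩
    · exact (hT π).2 ⟨h1, h2, (h3.mul_left _).mul_right _⟩
    · exact (hT π).2 ⟨h1, h2, h3.mul_left _⟩

/-- **The birational section conjecture for the curves over a good quadratic twist.** -/
theorem bsc_of_good {k : Type} [Field k] [CharZero k] [Algebra.EssFiniteType ℚ k]
    {F Ω B : Type} [Field F] [Field Ω] [Field B]
    [Algebra k F] [Algebra F Ω] [Algebra k Ω] [Algebra k B]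
    [IsScalarTower k F Ω] [IsAlgClosure F Ω] [IsAlgClosure k B]
    (hF : ∃ t : F, Transcendental k t ∧ Algebra.IsAlgebraic (IntermediateField.adjoin k {t}) F)
    (k' : IntermediateField k Ω) [FiniteDimensional k k']
    (ψ : RatFunc K →+* Ω) (hψ : ψ.fieldRange = k'.toSubfield)
    {T : Finset K[X]} {D : K[X]} (h : GoodTwist T D) {a1 a2 a3 : K[X]}
    (n12 : a1 ≠ a2) (n13 : a1 ≠ a3) (n23 : a2 ≠ a3) (hT : Bad a1 a2 a3 T)
    (x y : Ω) (hx : x ∈ IntermediateField.adjoin F (k' : Set Ω))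
    (hy : y ∈ IntermediateField.adjoin F (k' : Set Ω)) (hxt : Transcendental k x)
    (hxy : ψ (algebraMap K[X] (RatFunc K) D) * y ^ 2 =
      (x - ψ (algebraMap K[X] (RatFunc K) a1)) * (x - ψ (algebraMap K[X] (RatFunc K) a2)) *
        (x - ψ (algebraMap K[X] (RatFunc K) a3)))
    (s : GalSection k F Ω B)
    (hloc : ∀ i : PlF k, s.GeometricOver i.Lv (AlgebraicClosure i.Lv)) :
    ∃! O : ValuationSubring F, s.ArisesFrom O := by
  have hE : S_EmbFG := EmbFG.main FrobRes.main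
  have hchR : CharZero (RatFunc K) :=
    charZero_of_injective_algebraMap (algebraMap K (RatFunc K)).injective
  have hinj := RatFunc.algebraMap_injective K
  have hsel := selTor_of_good h n12 n13 n23 hT
  have hD0 := h.irr.ne_zero
  set cx : K[X] →+* RatFunc K := algebraMap K[X] (RatFunc K) with hcx
  have m12 : cx (D * a1) ≠ cx (D * a2) := fun h => n12 (mul_left_cancel₀ hD0 (hinj h))
  have m13 : cx (D * a1) ≠ cx (D * a3) := fun h => n13 (mul_left_cancel₀ hD0 (hinj h))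
  have m23 : cx (D * a2) ≠ cx (D * a3) := fun h => n23 (mul_left_cancel₀ hD0 (hinj h))
  have h3R : (3 : RatFunc K) ≠ 0 := three_ne_zero
  set σ : RatFunc K := (cx (D * a1) + cx (D * a2) + cx (D * a3)) / 3 with hσ
  have hσ3 : 3 * σ = cx (D * a1) + cx (D * a2) + cx (D * a3) := by
    rw [hσ]; field_simp
  set e₁ := cx (D * a1) - σ with he1
  set e₂ := cx (D * a2) - σ with he2
  set e₃ := cx (D * a3) - σ with he3
  have hs : e₁ + e₂ + e₃ = 0 := by
    rw [he1, he2, he3]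
    linear_combination -hσ3
  have g12 : e₁ ≠ e₂ := by
    intro h0
    apply m12
    linear_combination h0
  have g13 : e₁ ≠ e₃ := by
    intro h0
    apply m13
    linear_combination h0
  have g23 : e₂ ≠ e₃ := by
    intro h0
    apply m23
    linear_combination h0
  have hkill := killed_of hsel m12 m13 m23 hs (by rw [he1, he2]; ring) (by rw [he1, he3]; ring)
  set a := e₁ * e₂ + e₁ * e₃ + e₂ * e₃ with ha
  set b := -(e₁ * e₂ * e₃) with hb
  have hdisc : 4 * a ^ 3 + 27 * b ^ 2 ≠ 0 := by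
    have e : 4 * a ^ 3 + 27 * b ^ 2 = -((e₁ - e₂) * (e₁ - e₃) * (e₂ - e₃)) ^ 2 := by
      have h3 : e₃ = -e₁ - e₂ := by linear_combination hs
      rw [ha, hb, h3]
      ring
    rw [e, neg_ne_zero]
    exact pow_ne_zero _ (mul_ne_zero (mul_ne_zero (sub_ne_zero.2 g12) (sub_ne_zero.2 g13))
      (sub_ne_zero.2 g23))
  set δ : Ω := ψ (cx D) with hδ
  have hδ0 : δ ≠ 0 := (_root_.map_ne_zero _).2 ((map_ne_zero_iff _ hinj).2 hD0)
  have hmem : ∀ r : RatFunc K, ψ r ∈ IntermediateField.adjoin F (k' : Set Ω) := by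
    intro r
    apply IntermediateField.subset_adjoin
    have h1 : ψ r ∈ ψ.fieldRange := ⟨r, rfl⟩
    rw [hψ] at h1
    exact h1
  have halg : ∀ r : RatFunc K, IsAlgebraic k (ψ r) := by
    intro r
    have h1 : ψ r ∈ ψ.fieldRange := ⟨r, rfl⟩
    rw [hψ] at h1
    have h2 : ψ r ∈ k' := h1
    have h3 : IsAlgebraic k (⟨ψ r, h2⟩ : k') := Algebra.IsAlgebraic.isAlgebraic _
    exact (isAlgebraic_algebraMap_iff (R := k) (A := Ω) (algebraMap k' Ω).injective).2 h3
  refine Leg.sel_main hE (ObsFG.main FrobRes.main hE) (Desc.main hE) EmbP.main ConjA.main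
    inferInstance hF k' k' le_rfl ψ hψ K inferInstance ψ hψ hdisc (m := 2 ^ 1) (by norm_num)
    Nat.prime_two hkill.toL (δ * x - ψ σ) (δ ^ 2 * y) ?_ ?_ ?_ ?_ s hloc
  · exact sub_mem (mul_mem (hmem _) hx) (hmem _)
  · exact mul_mem (pow_mem (hmem _) 2) hy
  · intro h0
    apply hxt
    have h1 : IsAlgebraic k (δ * x) := by
      have := h0.add (halg σ)
      rwa [sub_add_cancel] at this
    have h2 : IsAlgebraic k (δ⁻¹ * (δ * x)) := (halg (cx D)).inv.mul h1
    rwa [inv_mul_cancel_left₀ hδ0] at h2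
  · have q1 : ψ (cx (D * a1)) = δ * ψ (cx a1) := by rw [map_mul, map_mul]
    have q2 : ψ (cx (D * a2)) = δ * ψ (cx a2) := by rw [map_mul, map_mul]
    have q3 : ψ (cx (D * a3)) = δ * ψ (cx a3) := by rw [map_mul, map_mul]
    have r1 : ψ e₁ = δ * ψ (cx a1) - ψ σ := by rw [he1, map_sub, q1]
    have r2 : ψ e₂ = δ * ψ (cx a2) - ψ σ := by rw [he2, map_sub, q2]
    have r3 : ψ e₃ = δ * ψ (cx a3) - ψ σ := by rw [he3, map_sub, q3]
    have hs' : ψ e₁ + ψ e₂ + ψ e₃ = 0 := by rw [← map_add, ← map_add, hs, map_zero]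
    have ha' : ψ a = ψ e₁ * ψ e₂ + ψ e₁ * ψ e₃ + ψ e₂ * ψ e₃ := by
      rw [ha, map_add, map_add, map_mul, map_mul, map_mul]
    have hb' : ψ b = -(ψ e₁ * ψ e₂ * ψ e₃) := by
      rw [hb, map_neg, map_mul, map_mul]
    set X := δ * x - ψ σ with hX
    have hcube : X ^ 3 + ψ a * X + ψ b = (X - ψ e₁) * (X - ψ e₂) * (X - ψ e₃) := by
      rw [ha', hb']
      linear_combination X ^ 2 * hs'
    rw [hcube, r1, r2, r3, hX]
    linear_combination δ ^ 3 * hxy

end main

section full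

open Pool.Agent.Q308.TC Pool.Agent.Q126.TD

variable {K : Type} [Field K] [CharZero K]

theorem good_full (hk : FG K) {a1 a2 a3 : K[X]} {T : Finset K[X]} (hT : Bad a1 a2 a3 T) {N : ℕ}
    (hodd : Odd N) (hN : (∏ π ∈ T, π).natDegree + 2 ≤ N) {κ : Type} [Fintype κ] {b : κ → K[X]}
    (hb : Spans N b) : Full {v : κ → ℤ | (comb b v).natDegree = N ∧ GoodTwist T (comb b v)} := by
  have h1 := Pool.Agent.Q308.TW.twist_full hk Nat.prime_two
    (IsPrimitiveRoot.neg_one 0 (by norm_num) : IsPrimitiveRoot (-1 : K) 2) T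
    (fun π hπ => ⟨((hT π).1 hπ).2.1, ((hT π).1 hπ).1⟩) hN hb
  refine h1.mono ?_
  rintro v ⟨r1, r2, r3, r4⟩
  exact ⟨r2, r1, by rw [r2]; exact hodd, r3, r4⟩

end full

end Pool.Agent.Q308.BS
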