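import Pool.Agent.Y791.BC.LegSel

/-!
The classes of local points of a ramified quadratic twist of a curve with good reduction.
-/

set_option autoImplicit false
set_option linter.unusedSectionVars false

open Polynomial IsDedekindDomain NumberField WeierstrassCurve

namespace Pool.Agent.Q308.BS

open Pool.Agent.H918R3 Pool.Agent.H918R3.TB1 Pool.Agent.Y791.BC Pool.Agent.Y791.BC.LegCls

variable {L : Type} [NormedField L] [IsUltrametricDist L]

/-- the order of a square is even -/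
lemma sq_even {δ : L} (hδ0 : δ ≠ 0) (hδ1 : ‖δ‖ < 1)
    (hd : ∀ w : L, w ≠ 0 → ∃ n : ℤ, ‖w‖ = ‖δ‖ ^ n) {c : L} (h : Sq c) {n : ℤ}
    (hn : ‖c‖ = ‖δ‖ ^ n) : Even n := by
  obtain ⟨s, u, hs, hu, rfl⟩ := h
  obtain ⟨m, hm⟩ := hd s hs
  have hδ : 0 < ‖δ‖ := norm_pos_iff.2 hδ0
  rw [norm_mul, norm_near hu, mul_one, norm_pow, hm, ← zpow_natCast, ← zpow_mul] at hn
  have h1 := zpow_right_injective₀ hδ hδ1.ne hn
  rw [← h1]
  exact ⟨m, by push_cast; ring⟩

/-- The class of a point whose first coordinate is near the first root. -/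
lemma near_first {δ v1 v2 v3 a b : L} (hδ0 : δ ≠ 0) (ha : ‖a‖ = 1) (hb : ‖b‖ = 1)
    (h2 : v2 = v1 + a) (h3 : v3 = v1 + b) (hv : ‖v1‖ < 1) (hS : Sq (δ * v1 * v2 * v3)) :
    Sq (δ * v1 * (a * b)) ∧ Sq (δ * v2 * (δ * a)) ∧ Sq (δ * v3 * (δ * b)) := by
  have k2 : Sq (a * v2) := by
    rw [h2, add_comm]
    exact Sq.dom (by rw [ha]; exact hv)
  have k3 : Sq (b * v3) := by
    rw [h3, add_comm]
    exact Sq.dom (by rw [hb]; exact hv)
  refine ⟨?_, ?_, ?_⟩
  · refine Sq.of_mul (hS.ne_zero |> fun _ => (Sq.sq (r := v2 * v3) ?_)) ?_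
    · exact mul_ne_zero (right_ne_zero_of_mul k2.ne_zero) (right_ne_zero_of_mul k3.ne_zero)
    · have e : δ * v1 * (a * b) * (v2 * v3) ^ 2 = δ * v1 * v2 * v3 * ((a * v2) * (b * v3)) := by
        ring
      rw [e]
      exact hS.mul (k2.mul k3)
  · have e : δ * v2 * (δ * a) = (a * v2) * δ ^ 2 := by ring
    rw [e]
    exact k2.mul (Sq.sq hδ0)
  · have e : δ * v3 * (δ * b) = (b * v3) * δ ^ 2 := by ring
    rw [e]
    exact k3.mul (Sq.sq hδ0)

/-- **The classes of the local points of a ramified twist are those of the points of order two.** -/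
theorem cl_twist {δ α1 α2 α3 : L} (hδ0 : δ ≠ 0) (hδ1 : ‖δ‖ < 1)
    (hd : ∀ w : L, w ≠ 0 → ∃ n : ℤ, ‖w‖ = ‖δ‖ ^ n) (h1 : ‖α1‖ ≤ 1) (h2 : ‖α2‖ ≤ 1)
    (h3 : ‖α3‖ ≤ 1) (h12 : ‖α1 - α2‖ = 1) (h13 : ‖α1 - α3‖ = 1) (h23 : ‖α2 - α3‖ = 1)
    {f1 f2 f3 : L} (e1 : f1 = δ * α1) (e2 : f2 = δ * α2) (e3 : f3 = δ * α3)
    (P : Pt f1 f2 f3) {c1 c2 : L} (hc1 : c1 ≠ 0) (hc2 : c2 ≠ 0)
    (k1 : IsSquare (c1 * dl f1 f2 f3 P)) (k2 : IsSquare (c2 * dl f2 f1 f3 P)) :
    (Sq c1 ∧ Sq c2) ∨
    (Sq (c1 * ((f1 - f2) * (f1 - f3))) ∧ Sq (c2 * (f1 - f2))) ∨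
    (Sq (c1 * (f2 - f1)) ∧ Sq (c2 * ((f2 - f1) * (f2 - f3)))) ∨
    (Sq (c1 * (f3 - f1)) ∧ Sq (c2 * (f3 - f2))) := by
  have n12 : α1 ≠ α2 := by
    rintro h
    rw [h, sub_self, norm_zero] at h12
    exact zero_ne_one h12
  have n13 : α1 ≠ α3 := by
    rintro h
    rw [h, sub_self, norm_zero] at h13
    exact zero_ne_one h13
  have n23 : α2 ≠ α3 := by
    rintro h
    rw [h, sub_self, norm_zero] at h23
    exact zero_ne_one h23
  have d12 : f1 - f2 = δ * (α1 - α2) := by rw [e1, e2]; ring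
  have d13 : f1 - f3 = δ * (α1 - α3) := by rw [e1, e3]; ring
  have d23 : f2 - f3 = δ * (α2 - α3) := by rw [e2, e3]; ring
  have m12 : f1 ≠ f2 := by
    intro h
    rw [h, sub_self] at d12
    exact mul_ne_zero hδ0 (sub_ne_zero.2 n12) d12.symm
  have m13 : f1 ≠ f3 := by
    intro h
    rw [h, sub_self] at d13
    exact mul_ne_zero hδ0 (sub_ne_zero.2 n13) d13.symm
  have m23 : f2 ≠ f3 := by
    intro h
    rw [h, sub_self] at d23
    exact mul_ne_zero hδ0 (sub_ne_zero.2 n23) d23.symm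
  have s1 := LegSel.sq_of (mul_ne_zero hc1 (by
    rw [dl_eq]; exact dlW_ne m12 m13 P)) k1
  have s2 := LegSel.sq_of (mul_ne_zero hc2 (by
    rw [dl_eq]; exact dlW_ne m12.symm m23 P)) k2
  rw [dl_eq] at s1 s2
  cases P with
  | zero =>
    change Sq (c1 * 1) at s1
    change Sq (c2 * 1) at s2
    rw [mul_one] at s1 s2
    exact Or.inl ⟨s1, s2⟩
  | some x y h =>
    have hxy := crv_eqn.1 h.1
    rw [dlW_some] at s1 s2
    by_cases hx1 : x = f1
    · rw [if_pos hx1] at s1
      rw [if_neg (by rw [hx1]; exact m12), hx1] at s2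
      exact Or.inr (Or.inl ⟨s1, s2⟩)
    rw [if_neg hx1] at s1
    by_cases hx2 : x = f2
    · rw [if_pos hx2] at s2
      rw [hx2] at s1
      exact Or.inr (Or.inr (Or.inl ⟨s1, s2⟩))
    rw [if_neg hx2] at s2
    by_cases hx3 : x = f3
    · rw [hx3] at s1 s2
      exact Or.inr (Or.inr (Or.inr ⟨s1, s2⟩))
    -- the general case
    set u : L := x / δ with hu
    have hxu : x = δ * u := by rw [hu]; field_simp
    set v1 : L := u - α1 with hv1
    set v2 : L := u - α2 with hv2
    set v3 : L := u - α3 with hv3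
    have x1 : x - f1 = δ * v1 := by rw [hxu, e1, hv1]; ring
    have x2 : x - f2 = δ * v2 := by rw [hxu, e2, hv2]; ring
    have x3 : x - f3 = δ * v3 := by rw [hxu, e3, hv3]; ring
    have y1 : v1 ≠ 0 := by
      intro h0
      rw [h0, mul_zero] at x1
      exact sub_ne_zero.2 hx1 x1
    have y2 : v2 ≠ 0 := by
      intro h0
      rw [h0, mul_zero] at x2
      exact sub_ne_zero.2 hx2 x2
    have y3 : v3 ≠ 0 := by
      intro h0
      rw [h0, mul_zero] at x3
      exact sub_ne_zero.2 hx3 x3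
    have hy0 : y ≠ 0 := by
      rintro rfl
      rw [zero_pow two_ne_zero, x1, x2, x3] at hxy
      exact mul_ne_zero (mul_ne_zero (mul_ne_zero hδ0 y1) (mul_ne_zero hδ0 y2))
        (mul_ne_zero hδ0 y3) hxy.symm
    have hS : Sq (δ * v1 * v2 * v3) := by
      refine Sq.of_mul (Sq.sq hδ0) ?_
      have e : δ * v1 * v2 * v3 * δ ^ 2 = y ^ 2 := by
        rw [hxy, x1, x2, x3]
        ring
      rw [e]
      exact Sq.sq hy0
    rw [x1] at s1
    rw [x2] at s2
    -- use of a relation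
    have use : ∀ {c w w' : L}, Sq (c * w) → Sq (w * w') → Sq (c * w') := by
      intro c w w' h h'
      have h'' : Sq (w * c) := by rw [mul_comm]; exact h
      have := h''.congr h'
      exact this
    by_cases hu1 : ‖u‖ ≤ 1
    · by_cases c1 : ‖v1‖ < 1
      · obtain ⟨r1, r2, -⟩ := near_first hδ0 h12 h13 (v1 := v1) (v2 := v2) (v3 := v3)
          (by rw [hv1, hv2]; ring) (by rw [hv1, hv3]; ring) c1 hS
        refine Or.inr (Or.inl ⟨?_, ?_⟩)
        · have h0 := (use s1 r1).mul (Sq.sq hδ0)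
          have e : (f1 - f2) * (f1 - f3) = (α1 - α2) * (α1 - α3) * δ ^ 2 := by
            rw [d12, d13]; ring
          rw [e, ← mul_assoc]
          exact h0
        · rw [d12]
          exact use s2 r2
      by_cases c2 : ‖v2‖ < 1
      · obtain ⟨r1, r2, -⟩ := near_first hδ0 (a := α2 - α1) (b := α2 - α3)
          (by rw [norm_sub_rev]; exact h12) h23 (v1 := v2) (v2 := v1) (v3 := v3)
          (by rw [hv1, hv2]; ring) (by rw [hv2, hv3]; ring) c2
          (by
            have e : δ * v2 * v1 * v3 = δ * v1 * v2 * v3 := by ring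
            rw [e]; exact hS)
        refine Or.inr (Or.inr (Or.inl ⟨?_, ?_⟩))
        · have e : f2 - f1 = δ * (α2 - α1) := by rw [e1, e2]; ring
          rw [e]
          exact use s1 r2
        · have h0 := (use s2 r1).mul (Sq.sq hδ0)
          have e : (f2 - f1) * (f2 - f3) = (α2 - α1) * (α2 - α3) * δ ^ 2 := by
            rw [e1, e2, e3]; ring
          rw [e, ← mul_assoc]
          exact h0
      by_cases c3 : ‖v3‖ < 1
      · obtain ⟨-, r2, r3⟩ := near_first hδ0 (a := α3 - α1) (b := α3 - α2)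
          (by rw [norm_sub_rev]; exact h13) (by rw [norm_sub_rev]; exact h23) (v1 := v3)
          (v2 := v1) (v3 := v2)
          (by rw [hv1, hv3]; ring) (by rw [hv2, hv3]; ring) c3
          (by
            have e : δ * v3 * v1 * v2 = δ * v1 * v2 * v3 := by ring
            rw [e]; exact hS)
        refine Or.inr (Or.inr (Or.inr ⟨?_, ?_⟩))
        · have e : f3 - f1 = δ * (α3 - α1) := by rw [e1, e3]; ring
          rw [e]
          exact use s1 r2
        · have e : f3 - f2 = δ * (α3 - α2) := by rw [e2, e3]; ring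
          rw [e]
          exact use s2 r3
      · exfalso
        have nle : ∀ {a : L}, ‖a‖ ≤ 1 → ‖u - a‖ ≤ 1 := by
          intro a ha
          rw [sub_eq_add_neg]
          refine (IsUltrametricDist.norm_add_le_max _ _).trans (max_le hu1 ?_)
          rw [norm_neg]
          exact ha
        have q1 : ‖v1‖ = 1 := le_antisymm (nle h1) (not_lt.1 c1)
        have q2 : ‖v2‖ = 1 := le_antisymm (nle h2) (not_lt.1 c2)
        have q3 : ‖v3‖ = 1 := le_antisymm (nle h3) (not_lt.1 c3)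
        have := sq_even hδ0 hδ1 hd hS (n := 1) (by
          rw [norm_mul, norm_mul, norm_mul, q1, q2, q3, mul_one, mul_one, mul_one, zpow_one])
        exact absurd this (by decide)
    · have hu1' : 1 < ‖u‖ := not_le.1 hu1
      have dom : ∀ {a : L}, ‖a‖ ≤ 1 → Sq (u * (u - a)) := by
        intro a ha
        rw [sub_eq_add_neg]
        apply Sq.dom
        rw [norm_neg]
        exact ha.trans_lt hu1'
      have r1 := dom h1
      have r2 := dom h2
      have r3 := dom h3
      have t12 : Sq (v1 * v2) := r1.congr r2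
      have t13 : Sq (v1 * v3) := r1.congr r3
      have t23 : Sq (v2 * v3) := r2.congr r3
      have w1 : Sq (δ * v1) := by
        refine Sq.of_mul t23 ?_
        have e : δ * v1 * (v2 * v3) = δ * v1 * v2 * v3 := by ring
        rw [e]
        exact hS
      have w2 : Sq (δ * v2) := by
        refine Sq.of_mul t13 ?_
        have e : δ * v2 * (v1 * v3) = δ * v1 * v2 * v3 := by ring
        rw [e]
        exact hS
      exact Or.inl ⟨Sq.of_mul w1 s1, Sq.of_mul w2 s2⟩

end Pool.Agent.Q308.BS
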