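import Pool.Agent.Q308.BS.Few

/-!
Birational sections of curves over cyclic coverings of the line over `K(S)` with many constant branch
points and few bad points.
-/

set_option autoImplicit false
set_option linter.unusedSectionVars false

open Polynomial IsDedekindDomain NumberField

namespace Pool.Agent.Q308.BS

open Pool.Agent.TH954 Pool.Agent.Y791.BS Pool.Agent.Y791.BF Pool.Agent.Y791.BF.Types
  Pool.Agent.Y791.BC Pool.Agent.Y791.BF.Level

section lvl

variable (hNear : S_Near) (hEmb : S_EmbFG) (hUnr : S_Unr) (hInter : S_Inter2) (hObs : S_ObsFG)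
    (hExt : S_LvlExt)
    {k : Type} [Field k] [CharZero k] {M : Type} [Field M] [CharZero M] [IsAlgClosed M]
    [Algebra k M] (A : SAct k M) (pl : ∀ i : PlF k, Plc k M (AlgebraicClosure i.Lv))
    (hpl : ∀ i, GeoPlc A (pl i))
    (hdim : ∀ x : M, (∀ w : AlgebraicClosure k, x ≠ A.j w) →
      ∀ t : M, IsAlgebraic (Algebra.adjoin k {x}) t)

include hEmb hpl in
/-- classes of the quotients at a level -/
theorem few_typesL (E : Lvl k) {l : ℕ} (hl : l.Prime) {R : Finset E.K} {m : E.K → ℕ}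
    {H : E.K[X][X]} (hm : ∀ t ∈ R, ¬ l ∣ m t) {S : Finset E.K[X]}
    (hS : ∀ π : E.K[X], π.Monic → Irreducible π → (∃ t ∈ R, π ∣ H.eval (C t)) → π ∈ S) {x y : M}
    (hx : E.Fixed A x) (hy : E.Fixed A y) (hxt : ∀ t ∈ R, x ≠ jc A E t)
    (hxy : y ^ l = (∏ t ∈ R, (x - jc A E t) ^ m t) * eval₂ (coL A E) x H) :
    ∃ J : Finset E.K, J.card ≤ S.card ∧ ∀ t ∈ R, t ∉ J → ∀ t' ∈ R, t' ∉ J →
      ∃ (d : E.K) (h : M), d ≠ 0 ∧ E.Fixed A h ∧
        x - jc A E t = jc A E d * (x - jc A E t') * h ^ l := by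
  classical
  let inst : Algebra (RatFunc E.K) M := ((A.j : AlgebraicClosure k →+* M).comp E.κ).toAlgebra
  have hM : ∀ c : RatFunc E.K, algebraMap (RatFunc E.K) M c = A.j (E.κ c) := fun c => rfl
  obtain ⟨A1, g, hg, hj, h1, h2⟩ := exists_base A E.m E.κ E.hκ hM
  choose pl1 hpl1 using exists_places A pl hpl E.m E.κ E.hκ hM A1 g hj h1
  have hf := fixed_iff A E A1 g hg h1 h2
  have hess := E.ess
  have hx1 : x ∈ A1.fix := (hf x).1 hx
  have hy1 : y ∈ A1.fix := (hf y).1 hy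
  have hkum : ∀ t : E.K, ∃ (P : E.K[X]) (g : M), t ∈ R → P ≠ 0 ∧ g ∈ A1.fix ∧
      x - algebraMap (RatFunc E.K) M (cc t) = co E.K M P * g ^ l := by
    intro t
    by_cases ht : t ∈ R
    · obtain ⟨P, g, h3, h4, h5⟩ := kummer_poly A1 (z := x - algebraMap (RatFunc E.K) M (cc t)) hl.pos
        (sub_mem hx1 (A1.fix.algebraMap_mem _)) (sub_ne_zero.2 (hxt t ht))
      exact ⟨P, g, fun _ => ⟨h3, h4, h5⟩⟩
    · exact ⟨0, 0, fun h => absurd h ht⟩
  choose P g' hPg using hkum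
  obtain ⟨J, hJ, hJ'⟩ := few_types A1 hEmb pl1 hpl1 hl hm hx1 hy1 hxt hxy
    (fun t ht => (hPg t ht).1) (fun t ht => (hPg t ht).2.1) (fun t ht => (hPg t ht).2.2) hS
  refine ⟨J, hJ, fun t ht htJ t' ht' htJ' => ?_⟩
  obtain ⟨d, h, hd, hh, e⟩ := hJ' t ht htJ t' ht' htJ'
  exact ⟨d, h, hd, (hf h).2 hh, e⟩

/-- Möbius transformation -/
theorem moebius (E : Lvl k) {l : ℕ} {x h : M} {t t' d : E.K} (hx : x - jc A E t' ≠ 0)
    (htt : t ≠ t') (e : x - jc A E t = jc A E d * (x - jc A E t') * h ^ l) :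
    (x - jc A E t')⁻¹ - jc A E (t - t')⁻¹ = jc A E (-(d * (t - t')⁻¹)) * h ^ l := by
  have h0 : t - t' ≠ 0 := sub_ne_zero.2 htt
  have h1 : jc A E (t - t') ≠ 0 := jc_ne A E h0
  have h2 : jc A E (t - t') = jc A E t - jc A E t' := by
    unfold jc
    rw [map_sub, map_sub]
  have h3 : jc A E (-(d * (t - t')⁻¹)) = -(jc A E d * (jc A E (t - t'))⁻¹) := by
    unfold jc
    rw [map_neg, map_mul, map_inv₀, map_neg, map_mul, map_inv₀]
  rw [h3, jc_inv]
  have e2 : jc A E t - jc A E t' = (x - jc A E t') * (1 - jc A E d * h ^ l) := by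
    linear_combination (-1 : M) * e
  have h4 : (1 - jc A E d * h ^ l) ≠ 0 := by
    intro h5
    rw [h5, mul_zero, ← h2] at e2
    exact h1 e2
  rw [h2, e2]
  field_simp
  ring

include hNear hEmb hUnr hInter hObs hExt hpl hdim in
/-- many constant branch points and few bad points -/
theorem few_good (E : Lvl k) {l : ℕ} (hl : l.Prime) {R : Finset E.K} {m : E.K → ℕ}
    {H : E.K[X][X]} (hm : ∀ t ∈ R, ¬ l ∣ m t) {S : Finset E.K[X]}
    (hS : ∀ π : E.K[X], π.Monic → Irreducible π → (∃ t ∈ R, π ∣ H.eval (C t)) → π ∈ S)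
    (hcard : S.card + 3 < R.card ∨ (l ≠ 2 ∧ S.card + 2 < R.card)) {x y : M}
    (hx : E.Fixed A x) (hy : E.Fixed A y) (hxc : ∀ w : AlgebraicClosure k, x ≠ A.j w)
    (hxy : y ^ l = (∏ t ∈ R, (x - jc A E t) ^ m t) * eval₂ (coL A E) x H) :
    ∃ W : ValuationSubring M, GoodW A W := by
  classical
  obtain ⟨J, hJ, hJ'⟩ := few_typesL hEmb A pl hpl E hl hm hS hx hy (fun t _ => hxc _) hxy
  have hRJ : R.card ≤ (R \ J).card + S.card := by
    have := Finset.le_card_sdiff J R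
    omega
  have h2lt : 2 < (R \ J).card := by omega
  obtain ⟨t0, m0, t1, m1, t2, m2, h01, h02, h12⟩ := Finset.two_lt_card.1 h2lt
  rw [Finset.mem_sdiff] at m0 m1 m2
  have hx0 : x - jc A E t0 ≠ 0 := sub_ne_zero.2 (hxc _)
  have hz : E.Fixed A (x - jc A E t0)⁻¹ := by
    intro τ hτ
    rw [map_inv₀, map_sub, hx τ hτ, fixed_jc A E t0 τ hτ]
  have hzc : ∀ w : AlgebraicClosure k, (x - jc A E t0)⁻¹ ≠ A.j w := by
    intro w hw
    apply hxc (w⁻¹ + E.cst t0)
    rw [map_add, map_inv₀, ← hw, inv_inv]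
    exact (sub_add_cancel _ _).symm
  have cls : ∀ t ∈ R, t ∉ J → t ≠ t0 → ∃ (d : E.K) (h : M), d ≠ 0 ∧ E.Fixed A h ∧
      (x - jc A E t0)⁻¹ - jc A E (t - t0)⁻¹ = jc A E d * h ^ l := by
    intro t ht htJ hne
    obtain ⟨d, h, hd, hh, e⟩ := hJ' t ht htJ t0 m0.1 m0.2
    refine ⟨-(d * (t - t0)⁻¹), h, ?_, hh, moebius A E hx0 hne e⟩
    exact neg_ne_zero.2 (mul_ne_zero hd (inv_ne_zero (sub_ne_zero.2 hne)))
  have inj : ∀ {t t' : E.K}, t ≠ t' → (t - t0)⁻¹ ≠ (t' - t0)⁻¹ := by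
    intro t t' h h'
    exact h (sub_left_injective (inv_injective h'))
  obtain ⟨d1, g1, a1, b1, c1⟩ := cls t1 m1.1 m1.2 h01.symm
  obtain ⟨d2, g2, a2, b2, c2⟩ := cls t2 m2.1 m2.2 h02.symm
  by_cases hl2 : l = 2
  · subst hl2
    have h3 : 3 < (R \ J).card := by omega
    obtain ⟨t3, m3, hne⟩ : ∃ t3 ∈ R \ J, t3 ∉ ({t0, t1, t2} : Finset E.K) := by
      by_contra hcon
      push Not at hcon
      have h4 := Finset.card_le_card (fun t ht => hcon t ht : R \ J ⊆ {t0, t1, t2})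
      have h5 : ({t0, t1, t2} : Finset E.K).card ≤ 3 := Finset.card_le_three
      omega
    rw [Finset.mem_sdiff] at m3
    have hne0 : t3 ≠ t0 := fun h => hne (by simp [h])
    have hne1 : t3 ≠ t1 := fun h => hne (by simp [h])
    have hne2 : t3 ≠ t2 := fun h => hne (by simp [h])
    obtain ⟨d3, g3, a3, b3, c3⟩ := cls t3 m3.1 m3.2 hne0
    exact three_good hNear hEmb hUnr hInter hObs A pl hpl hdim E hz hzc
      (inj h12) (inj hne1.symm) (inj hne2.symm) a1 a2 a3 b1 b2 b3 c1 c2 c3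
  · have hl3 : 3 ≤ l := by
      have := hl.two_le
      omega
    refine pair_good hNear hEmb hUnr hInter hObs hExt A pl hpl hdim E hl3 ?_ hz hzc
      (inj h12) a1 a2 b1 b2 c1 c2
    intro h
    have := (Nat.prime_dvd_prime_iff_eq Nat.prime_two hl).1 h
    omega

end lvl

/-- sections of curves over coverings of the line with many constant branch points and few bad
points -/
theorem few_main (hNear : S_Near) (hEmb : S_EmbFG) (hUnr : S_Unr) (hInter : S_Inter2)
    (hObs : S_ObsFG) (hExt : S_LvlExt) (hDesc : S_Desc)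
    {k : Type} [Field k] [CharZero k] (hk : Algebra.EssFiniteType ℚ k)
    {F Ω B : Type} [Field F] [Field Ω] [Field B] [Algebra k F] [Algebra F Ω]
    [Algebra k Ω] [Algebra k B] [IsScalarTower k F Ω]
    [IsAlgClosure F Ω] [IsAlgClosure k B]
    (hF : ∃ t : F, Transcendental k t ∧
      Algebra.IsAlgebraic (IntermediateField.adjoin k {t}) F)
    (k' : IntermediateField k Ω) [FiniteDimensional k k']
    (K : Type) [Field K] [CharZero K] (hK : Algebra.EssFiniteType ℚ K) [Algebra K Ω]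
    (S : Ω) (hS : Transcendental K S)
    (hk' : k'.toSubfield = Subfield.closure (Set.range (algebraMap K Ω) ∪ {S}))
    (l : ℕ) (hl : l.Prime) (R : Finset K) (m : K → ℕ) (H : K[X][X]) (Z : Finset K[X])
    (hm : ∀ t ∈ R, ¬ l ∣ m t)
    (hZ : ∀ π : K[X], π.Monic → Irreducible π → (∃ t ∈ R, π ∣ H.eval (C t)) → π ∈ Z)
    (hcard : Z.card + 3 < R.card ∨ (l ≠ 2 ∧ Z.card + 2 < R.card))
    (x y : Ω) (hx : x ∈ IntermediateField.adjoin F (k' : Set Ω))
    (hy : y ∈ IntermediateField.adjoin F (k' : Set Ω)) (hxt : Transcendental k x)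
    (hxy : y ^ l = (∏ t ∈ R, (x - algebraMap K Ω t) ^ m t) *
      eval₂ (aeval S : K[X] →ₐ[K] Ω).toRingHom x H)
    (s : GalSection k F Ω B)
    (hloc : ∀ i : PlF k, s.GeometricOver i.Lv (AlgebraicClosure i.Lv)) :
    ∃! O : ValuationSubring F, s.ArisesFrom O := by
  have hΩ1 : IsAlgClosed Ω := IsAlgClosure.isAlgClosed F
  have hΩ2 : Algebra.IsAlgebraic F Ω := IsAlgClosure.isAlgebraic
  have hcF : CharZero F := charZero_of_injective_algebraMap (algebraMap k F).injective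
  have hcΩ : CharZero Ω := charZero_of_injective_algebraMap (algebraMap F Ω).injective
  set A := toSAct s with hA
  choose pl hpl using fun i : PlF k => toSAct_geo s (hloc i)
  obtain ⟨κ, μ, α, hκ, hα, hκc, hκS, hκk⟩ := exists_lvl' A.j k' K S hS hk'
  let E : Lvl k :=
    { K := K
      ess := hK
      κ := κ
      m := μ
      hκ := hκ
      α := α
      hα := hα }
  have hcst : ∀ c : K, A.j (E.cst c) = algebraMap K Ω c := hκc
  -- the automorphism of `Ω` given by an automorphism of the algebraic closure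
  let σ : (AlgebraicClosure k ≃ₐ[k] AlgebraicClosure k) → (Ω ≃ₐ[F] Ω) := fun τ =>
    s.s ((eqv k B).autCongr τ)
  have hσ : ∀ τ z, A.s τ z = σ τ z := fun τ z => rfl
  have hfixed : ∀ z ∈ IntermediateField.adjoin F (k' : Set Ω), E.Fixed A z := by
    intro z hz τ hτ
    rw [hσ]
    refine fix_adjoin (σ τ) (fun w hw => ?_) hz
    obtain ⟨r, rfl⟩ := hκk w hw
    rw [← hσ, A.hj]
    congr 1
    exact hτ r
  have hxc : ∀ w : AlgebraicClosure k, x ≠ A.j w := by
    intro w hw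
    apply hxt
    rw [hw]
    exact (Algebra.IsAlgebraic.isAlgebraic (R := k) w).algHom A.j
  have hdim : ∀ x : Ω, (∀ w : AlgebraicClosure k, x ≠ A.j w) →
      ∀ t : Ω, IsAlgebraic (Algebra.adjoin k {x}) t := by
    intro x hx t
    refine (alg_adjoin_of_dim hF x (fun h => ?_)).isAlgebraic _
    obtain ⟨w, hw⟩ := alg_range A.j h
    exact hx w hw.symm
  have hco : coL A E = (aeval S : K[X] →ₐ[K] Ω).toRingHom := by
    apply Polynomial.ringHom_ext
    · intro c
      change A.j (κ (algebraMap K[X] (RatFunc K) (C c))) = aeval S (C c)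
      rw [RatFunc.algebraMap_C, aeval_C]
      exact hcst c
    · change A.j (κ (algebraMap K[X] (RatFunc K) X)) = aeval S X
      rw [RatFunc.algebraMap_X, aeval_X]
      exact hκS
  have hxy' : y ^ l = (∏ t ∈ R, (x - jc A E t) ^ m t) * eval₂ (coL A E) x H := by
    rw [hxy, hco]
    unfold jc
    simp only [hcst]
  obtain ⟨W, hW⟩ := few_good hNear hEmb hUnr hInter hObs hExt A pl hpl hdim E hl hm
    hZ hcard (hfixed x hx) (hfixed y hy) hxc hxy'
  exact geometric_of_good hEmb hDesc hk s W hW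

end Pool.Agent.Q308.BS
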