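import Pool.Agent.Y791.BC.Semi2

/-!
Kummer classes of the differences `x - t` at a place where the moving branch points do not meet the
constant ones.
-/

set_option autoImplicit false
set_option linter.unusedSectionVars false

open Polynomial IsDedekindDomain NumberField

namespace Pool.Agent.Q308.BS

open Pool.Agent.TH954 Pool.Agent.Y791.BS Pool.Agent.Y791.BF Pool.Agent.Y791.BF.Types
  Pool.Agent.Y791.BC Pool.Agent.Y791.BF.Level

section main

variable {K : Type} [Field K] [CharZero K] [Algebra.EssFiniteType ℚ K] {M : Type} [Field M]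
  [CharZero M] [IsAlgClosed M] [Algebra (RatFunc K) M] (A : SAct (RatFunc K) M)

/-- two differences at a good point -/
theorem pair_at (hEmb : S_EmbFG)
    (pl : ∀ i : PlF (RatFunc K), Plc (RatFunc K) M (AlgebraicClosure i.Lv))
    (hpl : ∀ i, GeoPlc A (pl i)) {l : ℕ} (hl : l.Prime) {z y g : M} (hz : z ∈ A.fix)
    (hy : y ∈ A.fix) (hg : g ∈ A.fix) (hz0 : z ≠ 0) {P : K[X]} (hP : P ≠ 0)
    (hzg : z = co K M P * g ^ l) {m : ℕ} {G : K[X][X]}
    (hyz : y ^ l = z ^ m * eval₂ (co K M) z G) (hm : ¬ l ∣ m)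
    (ρ : AlgebraicClosure K) (h0 : aeval ρ (G.coeff 0) ≠ 0)
    {c : K} {P' : K[X]} {g' : M} (hP' : P' ≠ 0) (hg' : g' ∈ A.fix)
    (hz'0 : z + algebraMap (RatFunc K) M (cc c) ≠ 0)
    (hzg' : z + algebraMap (RatFunc K) M (cc c) = co K M P' * g' ^ l) :
    l ∣ mu P ρ ∨ (l : ℤ) ∣ (mu P ρ : ℤ) - mu P' ρ := by
  classical
  set Q : Finset K[X] := insert (C c) (insert P' (insert P
    ((Finset.range (G.natDegree + 1)).image G.coeff))) with hQ
  obtain ⟨i, ε, hε0, hε1, hεn, hpoly⟩ := exists_near_polys hEmb Q ρ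
  have inst2 : IsUltrametricDist i.Lv := ultra i.v
  have inst4 : CharZero i.Lv := charZero_compl i.v
  have hε0' : 0 < ‖ε‖ := norm_pos_iff.2 hε0
  have hl0 : 0 < l := hl.pos
  set b : ℕ → i.Lv := fun j => i.φ (algebraMap K[X] (RatFunc K) (G.coeff j)) with hb
  have hQc : ∀ j, G.coeff j ≠ 0 → G.coeff j ∈ Q := by
    intro j hj
    rw [hQ]
    refine Finset.mem_insert_of_mem (Finset.mem_insert_of_mem (Finset.mem_insert_of_mem ?_))
    rw [Finset.mem_image]
    refine ⟨j, Finset.mem_range.2 ?_, rfl⟩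
    exact Nat.lt_succ_of_le (le_natDegree_of_ne_zero hj)
  have hb1 : ∀ j, ‖b j‖ ≤ 1 := by
    intro j
    by_cases hj : G.coeff j = 0
    · rw [hb]
      simp only [hj, map_zero, norm_zero]
      exact zero_le_one
    · have := hpoly _ (hQc j hj) hj
      rw [hb]
      simp only
      rw [this]
      exact pow_le_one₀ hε0'.le hε1.le
  have hbone : ∀ j, aeval ρ (G.coeff j) ≠ 0 → ‖b j‖ = 1 := by
    intro j hj
    have hj0 : G.coeff j ≠ 0 := by
      rintro h
      rw [h, map_zero] at hj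
      exact hj rfl
    have := hpoly _ (hQc j hj0) hj0
    rw [mu_eq_zero hj, pow_zero] at this
    exact this
  have hPn : ‖i.φ (algebraMap K[X] (RatFunc K) P)‖ = ‖ε‖ ^ (mu P ρ) :=
    hpoly P (by simp [hQ]) hP
  have hPn' : ‖i.φ (algebraMap K[X] (RatFunc K) P')‖ = ‖ε‖ ^ (mu P' ρ) :=
    hpoly P' (by simp [hQ]) hP'
  have hcn : ‖i.φ (cc c)‖ ≤ 1 := by
    by_cases hc : c = 0
    · have h : (cc c : RatFunc K) = 0 := by rw [hc]; exact map_zero _
      rw [h, map_zero, norm_zero]
      exact zero_le_one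
    · have h := hpoly (C c) (by simp [hQ]) (C_ne_zero.2 hc)
      rw [RatFunc.algebraMap_C] at h
      change ‖i.φ (RatFunc.C c)‖ ≤ 1
      rw [h]
      exact pow_le_one₀ hε0'.le hε1.le
  have hPv0 : i.φ (algebraMap K[X] (RatFunc K) P) ≠ 0 := by
    rw [← norm_ne_zero_iff, hPn]
    exact (pow_pos hε0' _).ne'
  have hPv0' : i.φ (algebraMap K[X] (RatFunc K) P') ≠ 0 := by
    rw [← norm_ne_zero_iff, hPn']
    exact (pow_pos hε0' _).ne'
  have hPM : co K M P ≠ 0 := by
    change algebraMap (RatFunc K) M (algebraMap K[X] (RatFunc K) P) ≠ 0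
    exact (_root_.map_ne_zero _).2 ((map_ne_zero_iff _ (RatFunc.algebraMap_injective K)).2 hP)
  have hPM' : co K M P' ≠ 0 := by
    change algebraMap (RatFunc K) M (algebraMap K[X] (RatFunc K) P') ≠ 0
    exact (_root_.map_ne_zero _).2 ((map_ne_zero_iff _ (RatFunc.algebraMap_injective K)).2 hP')
  have hg0 : g ≠ 0 := by
    rintro rfl
    rw [zero_pow hl0.ne', mul_zero] at hzg
    exact hz0 hzg
  have hg0' : g' ≠ 0 := by
    rintro rfl
    rw [zero_pow hl0.ne', mul_zero] at hzg'
    exact hz'0 hzg'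
  have hFL : ∀ r : RatFunc K, algebraMap (RatFunc K) (AlgebraicClosure i.Lv) r =
      algebraMap i.Lv (AlgebraicClosure i.Lv) (i.φ r) :=
    fun r => IsScalarTower.algebraMap_apply (RatFunc K) i.Lv (AlgebraicClosure i.Lv) r
  have hvalR : ∀ r : RatFunc K, (pl i).val (algebraMap (RatFunc K) M r)
      (algebraMap i.Lv (AlgebraicClosure i.Lv) (i.φ r)) := by
    intro r
    rw [← hFL]
    exact Plc.val_alg _
  have hvalF : ∀ p : K[X], (pl i).val (co K M p)
      (algebraMap i.Lv (AlgebraicClosure i.Lv) (i.φ (algebraMap K[X] (RatFunc K) p))) := by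
    intro p
    exact hvalR _
  -- powers with a value of known norm
  have hpow : ∀ (w : M) (c : i.Lv) (a : ℤ), w ∈ A.fix →
      (pl i).val (w ^ l) (algebraMap i.Lv (AlgebraicClosure i.Lv) c) → ‖c‖ = ‖ε‖ ^ a →
      (l : ℤ) ∣ a := by
    intro w c a hw hc hca
    have hwW : w ∈ (pl i).W := Plc.mem_of_pow_mem hl0 hc.mem
    obtain ⟨u, hu⟩ := value_base A (hpl i) hw hwW
    have hv : (pl i).val (w ^ l) ((algebraMap i.Lv (AlgebraicClosure i.Lv) u) ^ l) :=
      Plc.val.pow ⟨hwW, hu.symm⟩ l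
    have h4 := hv.unique hc
    rw [← map_pow] at h4
    have h5 : u ^ l = c := (algebraMap i.Lv (AlgebraicClosure i.Lv)).injective h4
    have hu0 : u ≠ 0 := by
      rintro rfl
      rw [← h5, zero_pow hl0.ne', norm_zero] at hca
      exact (zpow_pos hε0' _).ne hca
    obtain ⟨n, hn⟩ := hεn u hu0
    have h6 : ‖ε‖ ^ (n * (l : ℤ)) = ‖ε‖ ^ a := by
      rw [zpow_mul, zpow_natCast, ← hn, ← norm_pow, h5, hca]
    have h7 := zpow_right_injective₀ hε0' hε1.ne h6
    exact ⟨n, by rw [← h7]; ring⟩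
  -- the two cases
  have hinv : ∀ z1v : i.Lv, (pl i).val z⁻¹ (algebraMap i.Lv (AlgebraicClosure i.Lv) z1v) →
      ‖z1v‖ < 1 → (l : ℤ) ∣ (mu P ρ : ℤ) - mu P' ρ := by
    intro z1v hz1 hz1n
    have hv1 : (pl i).val ((z + algebraMap (RatFunc K) M (cc c)) * z⁻¹)
        (algebraMap i.Lv (AlgebraicClosure i.Lv) (1 + i.φ (cc c) * z1v)) := by
      have e : (z + algebraMap (RatFunc K) M (cc c)) * z⁻¹ =
          1 + algebraMap (RatFunc K) M (cc c) * z⁻¹ := by
        rw [add_mul, mul_inv_cancel₀ hz0]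
      rw [e, map_add, map_mul, map_one]
      exact Plc.val_one.add ((hvalR (cc c)).mul hz1)
    have hn1 : ‖1 + i.φ (cc c) * z1v‖ = 1 := by
      have h2 : ‖i.φ (cc c) * z1v‖ < 1 := by
        rw [norm_mul]
        exact mul_lt_one_of_nonneg_of_lt_one_right hcn (norm_nonneg _) hz1n
      rw [IsUltrametricDist.norm_add_eq_max_of_norm_ne_norm (by rw [norm_one]; exact h2.ne'),
        norm_one]
      exact max_eq_left h2.le
    have hPL' : algebraMap i.Lv (AlgebraicClosure i.Lv)
        (i.φ (algebraMap K[X] (RatFunc K) P')) ≠ 0 := (_root_.map_ne_zero _).2 hPv0'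
    have hval := hv1.mul ((hvalF P).mul ((hvalF P').inv hPL'))
    have e : (z + algebraMap (RatFunc K) M (cc c)) * z⁻¹ * (co K M P * (co K M P')⁻¹) =
        (g' / g) ^ l := by
      rw [hzg', hzg, div_pow]
      field_simp
    rw [e, ← map_inv₀ (algebraMap i.Lv (AlgebraicClosure i.Lv)),
      ← map_mul (algebraMap i.Lv (AlgebraicClosure i.Lv)),
      ← map_mul (algebraMap i.Lv (AlgebraicClosure i.Lv))] at hval
    refine hpow _ _ _ (div_mem hg' hg) hval ?_
    rw [norm_mul, hn1, one_mul, norm_mul, norm_inv, hPn, hPn', zpow_sub₀ hε0'.ne', zpow_natCast,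
      zpow_natCast]
    rfl
  by_cases hzW : z ∈ (pl i).W
  · obtain ⟨zv, hzv⟩ := value_base A (hpl i) hz hzW
    have hzval : (pl i).val z (algebraMap i.Lv (AlgebraicClosure i.Lv) zv) := ⟨hzW, hzv.symm⟩
    rcases lt_trichotomy ‖zv‖ 1 with hlt | heq | hgt
    · left
      have hGv : (pl i).val (eval₂ (co K M) z G)
          (algebraMap i.Lv (AlgebraicClosure i.Lv)
            (∑ j ∈ Finset.range (G.natDegree + 1), b j * zv ^ j)) := by
        rw [eval₂_eq_sum_range, map_sum]
        refine Plc.val_sum _ (fun j _ => ?_)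
        rw [map_mul, map_pow]
        exact (hvalF _).mul (hzval.pow j)
      have hnorm := norm_sum_one G.natDegree b zv (hbone _ h0) hb1 hlt
      have hw : (y / g ^ m) ^ l = (co K M P) ^ m * eval₂ (co K M) z G := by
        have e1 : g ^ l = z / co K M P := by
          rw [eq_div_iff hPM, mul_comm]
          exact hzg.symm
        rw [div_pow, hyz, ← pow_mul, mul_comm m l, pow_mul, e1, div_pow]
        have e3 : z ^ m ≠ 0 := pow_ne_zero _ hz0
        have e5 : (co K M P) ^ m ≠ 0 := pow_ne_zero _ hPM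
        field_simp
      have hval := ((hvalF P).pow m).mul hGv
      rw [← hw, ← map_pow, ← map_mul] at hval
      have h3 := hpow _ _ ((m * mu P ρ : ℕ) : ℤ) (div_mem hy (pow_mem hg _)) hval (by
        rw [norm_mul, hnorm, mul_one, norm_pow, hPn, ← pow_mul, mul_comm, zpow_natCast])
      exact (hl.dvd_mul.1 (by exact_mod_cast h3)).resolve_left hm
    · -- the value of `z` is a unit
      left
      have hzv0 : zv ≠ 0 := by
        rintro rfl
        rw [norm_zero] at heq
        exact zero_ne_one heq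
      have hzv0' : algebraMap i.Lv (AlgebraicClosure i.Lv) zv ≠ 0 := (_root_.map_ne_zero _).2 hzv0
      have hval := (hvalF P).mul (hzval.inv hzv0')
      rw [← map_inv₀, ← map_mul] at hval
      have e1 : co K M P * z⁻¹ = (g⁻¹) ^ l := by
        rw [hzg, mul_inv, ← mul_assoc, mul_inv_cancel₀ hPM, one_mul, inv_pow]
      rw [e1] at hval
      have h3 := hpow _ _ ((mu P ρ : ℕ) : ℤ) (inv_mem hg) hval (by
        rw [norm_mul, hPn, norm_inv, heq, inv_one, mul_one, zpow_natCast])
      exact_mod_cast h3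
    · right
      have hzv0 : zv ≠ 0 := by
        rintro rfl
        rw [norm_zero] at hgt
        exact absurd hgt (not_lt.2 zero_le_one)
      have hzv0' : algebraMap i.Lv (AlgebraicClosure i.Lv) zv ≠ 0 := (_root_.map_ne_zero _).2 hzv0
      have hval := hzval.inv hzv0'
      rw [← map_inv₀] at hval
      refine hinv _ hval ?_
      rw [norm_inv]
      exact inv_lt_one_of_one_lt₀ hgt
  · right
    have hval := Plc.val_inv_of_notMem hzW
    rw [← map_zero (algebraMap i.Lv (AlgebraicClosure i.Lv))] at hval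
    refine hinv _ hval ?_
    rw [norm_zero]
    exact zero_lt_one

end main

end Pool.Agent.Q308.BS
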