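import Pool.Agent.Y791.BC.LegCls

/-!
Embeddings of `K(S)` near the root of a polynomial, over all the embeddings of its residue field.
-/

set_option autoImplicit false
set_option linter.unusedSectionVars false

open Polynomial IsDedekindDomain NumberField

namespace Pool.Agent.Q308.BS

open Pool.Agent.TH954 Pool.Agent.Y791.BS Pool.Agent.Y791.BF Pool.Agent.Y791.BF.Types
  Pool.Agent.Y791.BC Pool.Agent.Y791.BC.LegCls

/-- an element of a finitely generated field which is a square at the places at which finitely many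
elements are units is a square -/
theorem isSquare_of (hF : S_FrobRes) (K : Type) [Field K] [CharZero K]
    (hess : Algebra.EssFiniteType ℚ K) {d : K} (hd : d ≠ 0) (Y : Finset K)
    (h : ∀ i : PlF K, (∀ c ∈ Y, ‖i.φ c‖ ≤ 1 ∧ (c ≠ 0 → ‖i.φ c‖ = 1)) → Sq (i.φ d)) :
    IsSquare d := by
  classical
  by_contra hns
  obtain ⟨δ, hδ⟩ := IsAlgClosed.exists_pow_nat_eq (algebraMap K (AlgebraicClosure K) d)
    (n := 2) two_pos
  have hδ0 : δ ≠ 0 := by
    rintro rfl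
    rw [zero_pow two_ne_zero] at hδ
    exact (_root_.map_ne_zero (algebraMap K (AlgebraicClosure K))).2 hd hδ.symm
  obtain ⟨σ, hσ⟩ : ∃ σ : AlgebraicClosure K ≃ₐ[K] AlgebraicClosure K, σ δ ≠ δ := by
    by_contra hcon
    push Not at hcon
    obtain ⟨c, hc⟩ := base_of_fixed hcon
    apply hns
    refine ⟨c, ?_⟩
    apply (algebraMap K (AlgebraicClosure K)).injective
    rw [map_mul, hc, ← hδ, pow_two]
  have hσ' : σ δ = -δ := by
    have h1 : (σ δ) ^ 2 = δ ^ 2 := by rw [← map_pow, hδ, σ.commutes]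
    rcases sq_eq_sq_iff_eq_or_eq_neg.1 h1 with h2 | h2
    · exact absurd h2 hσ
    · exact h2
  obtain ⟨p, hp, B, χ, i, res, hp2, hZ, hσB, hres, hres0, hY⟩ := hF K hess
    (insert δ (Y.image (algebraMap K (AlgebraicClosure K)))) (insert d Y) σ 2
  have hult := ultra i.v
  have hunit : ∀ z ∈ (insert δ (Y.image (algebraMap K (AlgebraicClosure K)))), z ≠ 0 →
      ∀ hz : z ∈ B, χ ⟨z, hz⟩ ≠ 0 := by
    intro z hzZ hz0 hz h0
    have h1 := (hZ z hzZ).2 hz0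
    have h2 : (⟨z, hz⟩ : B) * ⟨z⁻¹, h1⟩ = 1 := Subtype.ext (mul_inv_cancel₀ hz0)
    have h3 := congrArg χ h2
    rw [map_mul, h0, zero_mul, map_one] at h3
    exact zero_ne_one h3
  have hnorm : ∀ c ∈ insert d Y, c ≠ 0 →
      (∀ hc : algebraMap K (AlgebraicClosure K) c ∈ B, χ ⟨_, hc⟩ ≠ 0) → ‖i.φ c‖ = 1 := by
    intro c hc hc0 hχ
    obtain ⟨hcB, hc1, hcr⟩ := hY c hc
    refine le_antisymm hc1 (not_lt.1 (fun hlt => hχ hcB ?_))
    rw [← hcr]
    exact (hres0 _).2 hlt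
  obtain ⟨s, u, hs0, hu, hsu⟩ := h i (by
    intro c hc
    refine ⟨(hY c (Finset.mem_insert_of_mem hc)).2.1, fun hc0 => ?_⟩
    exact hnorm c (Finset.mem_insert_of_mem hc) hc0 (fun hcB => hunit _
      (Finset.mem_insert_of_mem (Finset.mem_image_of_mem _ hc))
      ((_root_.map_ne_zero _).2 hc0) hcB))
  have hδB : δ ∈ B := (hZ δ (Finset.mem_insert_self _ _)).1
  obtain ⟨hdB, hd1', hdr⟩ := hY d (Finset.mem_insert_self _ _)
  have hχδ : χ ⟨δ, hδB⟩ ≠ 0 := hunit δ (Finset.mem_insert_self _ _) hδ0 hδB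
  have hχd : χ ⟨_, hdB⟩ = χ ⟨δ, hδB⟩ ^ 2 := by
    rw [← map_pow]
    congr 1
    exact Subtype.ext hδ.symm
  have hnd : ‖i.φ d‖ = 1 := hnorm d (Finset.mem_insert_self _ _) hd (fun hc => by
    have e : (⟨_, hc⟩ : B) = ⟨_, hdB⟩ := rfl
    rw [e, hχd]
    exact pow_ne_zero _ hχδ)
  have hs1 : ‖s‖ = 1 := by
    have h1 := congrArg norm hsu
    rw [hnd, norm_mul, norm_near hu, mul_one, norm_pow] at h1
    exact (pow_eq_one_iff_of_nonneg (norm_nonneg _) two_ne_zero).1 h1.symm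
  have hu1 : ‖u‖ ≤ 1 := (norm_near hu).le
  have hsub : res ⟨u, hu1⟩ = 1 := by
    have h1 : res (⟨u, hu1⟩ - 1) = 0 := (hres0 _).2 hu
    rwa [map_sub, map_one, sub_eq_zero] at h1
  have hrs : (res ⟨s, hs1.le⟩) ^ 2 = χ ⟨δ, hδB⟩ ^ 2 := by
    rw [← hχd, ← hdr]
    have e : (⟨i.φ d, hd1'⟩ : Pool.Agent.Y791.BF.ball1 i.Lv) = ⟨s, hs1.le⟩ ^ 2 * ⟨u, hu1⟩ := Subtype.ext hsu
    rw [e, map_mul, map_pow, hsub, mul_one]
  have hfrob : χ ⟨δ, hδB⟩ ^ p = -χ ⟨δ, hδB⟩ := by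
    obtain ⟨h1, h2⟩ := hσB δ hδB
    rw [← h2, ← map_neg]
    congr 1
    exact Subtype.ext hσ'
  have hodd : Odd p := hp.out.odd_of_ne_two (by omega)
  have h2p : (2 : AlgebraicClosure (ZMod p)) ≠ 0 := by
    have hch : CharP (AlgebraicClosure (ZMod p)) p := inferInstance
    intro h0
    have h1 : ((2 : ℕ) : AlgebraicClosure (ZMod p)) = 0 := by exact_mod_cast h0
    rw [CharP.cast_eq_zero_iff _ p] at h1
    exact absurd (Nat.le_of_dvd two_pos h1) (by omega)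
  have hfin : χ ⟨δ, hδB⟩ = -χ ⟨δ, hδB⟩ := by
    have h3 := hres ⟨s, hs1.le⟩
    rcases sq_eq_sq_iff_eq_or_eq_neg.1 hrs with h4 | h4
    · rw [h4, hfrob] at h3
      exact h3.symm
    · rw [h4, hodd.neg_pow, hfrob, neg_neg] at h3
      exact h3
  have h5 : 2 * χ ⟨δ, hδB⟩ = 0 := by
    rw [two_mul]
    nth_rw 1 [hfin]
    exact neg_add_cancel _
  rcases mul_eq_zero.1 h5 with h6 | h6
  · exact h2p h6
  · exact hχδ h6

section near

variable {K L : Type} [Field K] [CharZero K] [Algebra.EssFiniteType ℚ K] [Field L] [Algebra K L]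

/-- an embedding of `K(S)` near an element -/
theorem exists_near_root (i0 : PlF L) (θ : i0.Lv) :
    ∃ (φ : RatFunc K →+* i0.Lv) (ε : i0.Lv), ε ≠ 0 ∧ ‖ε‖ < 1 ∧
      (∀ w : i0.Lv, w ≠ 0 → ∃ n : ℤ, ‖w‖ = ‖ε‖ ^ n) ∧
      ∀ p : K[X], φ (algebraMap K[X] (RatFunc K) p) =
        eval₂ (i0.φ.comp (algebraMap K L)) (θ + ε) p := by
  have hu := ultra i0.v
  let iK : PlF K := ⟨i0.L, i0.v, i0.φ.comp (algebraMap K L)⟩
  obtain ⟨π, hπ0, hπ1, hπ⟩ := exists_unif i0.v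
  have hπ0' : algebraMap i0.L i0.Lv π ≠ 0 := (_root_.map_ne_zero _).2 hπ0
  letI inst : Algebra K i0.Lv := (i0.φ.comp (algebraMap K L)).toAlgebra
  obtain ⟨y, hy, hyn⟩ : ∃ y : i0.Lv,
      Transcendental K (θ + (algebraMap i0.L i0.Lv π + y)) ∧
      ‖y‖ < ‖algebraMap i0.L i0.Lv π‖ := by
    by_cases h1 : Transcendental K (θ + algebraMap i0.L i0.Lv π)
    · refine ⟨0, by rwa [add_zero], ?_⟩
      rw [norm_zero]
      exact norm_pos_iff.2 hπ0'
    · obtain ⟨y, hy, hyn⟩ := exists_transcendental' iK (norm_pos_iff.2 hπ0')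
      refine ⟨y, fun h => hy ?_, hyn⟩
      have e : y = (θ + (algebraMap i0.L i0.Lv π + y)) - (θ + algebraMap i0.L i0.Lv π) := by
        ring
      rw [e]
      exact h.sub (not_not.1 h1)
  set ε : i0.Lv := algebraMap i0.L i0.Lv π + y with hε
  have hεn : ‖ε‖ = ‖algebraMap i0.L i0.Lv π‖ := by
    rw [hε, IsUltrametricDist.norm_add_eq_max_of_norm_ne_norm hyn.ne']
    exact max_eq_left hyn.le
  have hε0 : ε ≠ 0 := by
    rw [← norm_ne_zero_iff, hεn, norm_ne_zero_iff]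
    exact hπ0'
  refine ⟨embF hy, ε, hε0, by rw [hεn]; exact hπ1, ?_, fun p => ?_⟩
  · intro w hw
    obtain ⟨n, hn⟩ := hπ w hw
    exact ⟨n, by rw [hn, hεn]⟩
  · change embF hy (algebraMap K[X] (RatFunc K) p) = _
    rw [embF_algebraMap]
    rfl

/-- the expansion of the values of a polynomial -/
theorem eval_near {F : Type} [NormedField F] [IsUltrametricDist F] {K : Type} [Field K]
    (f : K →+* F) (p : K[X]) (hp : ∀ j, ‖f (p.coeff j)‖ ≤ 1) {θ ε : F} (hθ : ‖θ‖ ≤ 1)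
    (hε : ‖ε‖ ≤ 1) : ∃ κ : F, ‖κ‖ ≤ 1 ∧ eval₂ f (θ + ε) p =
      eval₂ f θ p + eval₂ f θ p.derivative * ε + κ * ε ^ 2 := by
  have hsub : (↑(p.map f).coeffs : Set F) ⊆ (Pool.Agent.Y791.BF.ball1 F : Set F) := by
    intro c hc
    rw [Finset.mem_coe, mem_coeffs_iff] at hc
    obtain ⟨n, -, rfl⟩ := hc
    rw [coeff_map]
    exact hp n
  set p0 : (Pool.Agent.Y791.BF.ball1 F)[X] := (p.map f).toSubring (Pool.Agent.Y791.BF.ball1 F) hsub with hp0
  have hmap : p0.map (Pool.Agent.Y791.BF.ball1 F).subtype = p.map f := map_toSubring _ _ hsub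
  let θ0 : Pool.Agent.Y791.BF.ball1 F := ⟨θ, hθ⟩
  let ε0 : Pool.Agent.Y791.BF.ball1 F := ⟨ε, hε⟩
  obtain ⟨κ, hκ⟩ := p0.binomExpansion θ0 ε0
  refine ⟨κ, κ.2, ?_⟩
  have hev : ∀ (q : (Pool.Agent.Y791.BF.ball1 F)[X]) (x : Pool.Agent.Y791.BF.ball1 F), ((q.eval x : Pool.Agent.Y791.BF.ball1 F) : F) =
      (q.map (Pool.Agent.Y791.BF.ball1 F).subtype).eval (x : F) := by
    intro q x
    rw [eval_map]
    exact (hom_eval₂ q (RingHom.id _) (Pool.Agent.Y791.BF.ball1 F).subtype x)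
  have h1 := congrArg (fun x : Pool.Agent.Y791.BF.ball1 F => (x : F)) hκ
  have h2 : ((p0.eval (θ0 + ε0) : Pool.Agent.Y791.BF.ball1 F) : F) = ((p0.eval θ0 : Pool.Agent.Y791.BF.ball1 F) : F) +
      ((p0.derivative.eval θ0 : Pool.Agent.Y791.BF.ball1 F) : F) * ε + (κ : F) * ε ^ 2 := h1
  rw [hev, hev, hev, ← derivative_map, hmap] at h2
  rw [← eval_map, ← eval_map, ← eval_map, ← derivative_map]
  exact h2

end near

end Pool.Agent.Q308.BS
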