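import Pool.Agent.Q308.BS.Few

/-!
Polynomials which are squares up to constants outside finitely many closed points of the line.
-/

set_option autoImplicit false
set_option linter.unusedSectionVars false

open Polynomial IsDedekindDomain NumberField

namespace Pool.Agent.Q308.BS

open Pool.Agent.TH954 Pool.Agent.Y791.BS Pool.Agent.Y791.BF Pool.Agent.Y791.BF.Types
  Pool.Agent.Y791.BC Pool.Agent.Y791.BF.Level

variable {K : Type} [Field K] [CharZero K]

/-- the multiplicity of a root of an irreducible polynomial -/
theorem mu_irr {π : K[X]} (hπ : Irreducible π) {ρ : AlgebraicClosure K} (h : aeval ρ π = 0) :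
    mu π ρ = 1 := by
  have h0 : π.map (algebraMap K (AlgebraicClosure K)) ≠ 0 :=
    (Polynomial.map_ne_zero_iff (algebraMap K (AlgebraicClosure K)).injective).2 hπ.ne_zero
  have h1 : 0 < mu π ρ := by
    rw [mu, rootMultiplicity_pos h0, IsRoot.def, eval_map]
    exact h
  have h2 : mu π ρ ≤ 1 := by
    have h3 : (π.map (algebraMap K (AlgebraicClosure K))).Separable := hπ.separable.map
    exact rootMultiplicity_le_one_of_separable h3 ρ
  omega

theorem mu_pow (p : K[X]) (n : ℕ) (ρ : AlgebraicClosure K) : mu (p ^ n) ρ = n * mu p ρ := by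
  rw [mu, Polynomial.map_pow, rootMult_pow]
  rfl

/-- a polynomial whose roots have even multiplicities outside a finite set of closed points -/
theorem irr_supp (T : Finset K[X]) : (∀ π ∈ T, π.Monic ∧ Irreducible π) → ∀ (P : K[X]), P ≠ 0 →
    (∀ ρ : AlgebraicClosure K, (∀ π ∈ T, aeval ρ π ≠ 0) → 2 ∣ mu P ρ) →
    ∃ (e : K[X] → ℕ) (d : K) (h : K[X]), d ≠ 0 ∧ P * ∏ π ∈ T, π ^ e π = C d * h ^ 2 := by
  classical
  induction T using Finset.induction_on with
  | empty =>
    intro _ P hP h
    obtain ⟨d, h, hd, e⟩ := pow_const (l := 2) _ P hP rfl (fun ρ => h ρ (by simp))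
    exact ⟨fun _ => 0, d, h, hd, by rw [Finset.prod_empty, mul_one]; exact e⟩
  | insert a Z ha ih =>
    intro hT P hP h
    have hirr : Irreducible a := (hT a (Finset.mem_insert_self _ _)).2
    obtain ⟨ρa, hρa⟩ := IsAlgClosed.exists_aeval_eq_zero (AlgebraicClosure K) a
      (degree_pos_of_irreducible hirr).ne'
    set n : ℕ := mu P ρa with hn
    have ha0 : a ^ n ≠ 0 := pow_ne_zero _ hirr.ne_zero
    obtain ⟨e, d, q, hd, he⟩ := ih (fun π hπ => hT π (Finset.mem_insert_of_mem hπ)) (P * a ^ n)
      (mul_ne_zero hP ha0) (by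
      intro ρ hρ
      rw [mu_mul hP ha0, mu_pow]
      by_cases h1 : aeval ρ a = 0
      · have hcr : IsConjRoot K ρ ρa := by
          have h2 := minpoly.eq_of_irreducible_of_monic hirr h1
            (hT a (Finset.mem_insert_self _ _)).1
          have h3 := minpoly.eq_of_irreducible_of_monic hirr hρa
            (hT a (Finset.mem_insert_self _ _)).1
          exact h2.symm.trans h3
        rw [mu_irr hirr h1, mu_conj P hcr, ← hn, mul_one]
        exact ⟨n, by ring⟩
      · have h2 : mu a ρ = 0 := mu_eq_zero h1
        rw [h2, mul_zero, add_zero]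
        apply h
        intro b hb
        rcases Finset.mem_insert.1 hb with rfl | hb
        · exact h1
        · exact hρ b hb)
    refine ⟨fun b => if b = a then n else e b, d, q, hd, ?_⟩
    rw [Finset.prod_insert ha, ← he]
    have e1 : ∏ b ∈ Z, b ^ (fun b => if b = a then n else e b) b = ∏ b ∈ Z, b ^ e b := by
      refine Finset.prod_congr rfl (fun b hb => ?_)
      have h1 : b ≠ a := by
        rintro rfl
        exact ha hb
      simp only [if_neg h1]
    have e2 : (fun b => if b = a then n else e b) a = n := if_pos rfl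
    rw [e1, e2]
    ring

end Pool.Agent.Q308.BS
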