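import Pool.Agent.Q308.BS.Loc
import Pool.Agent.Q308.BS.Place
import Pool.Agent.Q308.BS.Supp
import Pool.Agent.TH115.SD.Fam2

/-!
The two-Selmer group of a quadratic twist of an elliptic curve over `K(S)` by a polynomial `D` for which
the bad places of the curve are independent modulo `D`.
-/

set_option autoImplicit false
set_option linter.unusedSectionVars false

open Polynomial IsDedekindDomain NumberField WeierstrassCurve

namespace Pool.Agent.Q308.BS

open Pool.Agent.TH954 Pool.Agent.Y791.BS Pool.Agent.Y791.BF Pool.Agent.Y791.BF.Types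
  Pool.Agent.Y791.BC Pool.Agent.Y791.BC.LegCls Pool.Agent.H918R3 Pool.Agent.H918R3.TB1
  Pool.Agent.Y791.BF.Level

section near

variable {K L : Type} [Field K] [Field L] [Algebra K L]

/-- the elements of the finite set `Y` are integral, and the nonzero ones are units -/
def UnitOn (Y : Finset L) (i0 : PlF L) : Prop :=
  ∀ c ∈ Y, ‖i0.φ c‖ ≤ 1 ∧ (c ≠ 0 → ‖i0.φ c‖ = 1)

/-- `φ` is an embedding of `K(S)` near `ρ` -/
structure Near (ρ : L) (i0 : PlF L) (φ : RatFunc K →+* i0.Lv) (ε : i0.Lv) : Prop where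
  ne : ε ≠ 0
  lt : ‖ε‖ < 1
  dv : ∀ w : i0.Lv, w ≠ 0 → ∃ n : ℤ, ‖w‖ = ‖ε‖ ^ n
  ev : ∀ p : K[X], φ (algebraMap K[X] (RatFunc K) p) =
    eval₂ (i0.φ.comp (algebraMap K L)) (i0.φ ρ + ε) p

open scoped Classical in
/-- the elements which have to be integral -/
noncomputable def Yp (ρ : L) (p : K[X]) : Finset L :=
  (Finset.range (p.natDegree + 1)).image (fun j => algebraMap K L (p.coeff j)) ∪
    {ρ, aeval ρ p, aeval ρ p.derivative}

theorem coeff_le {ρ : L} {p : K[X]} {i0 : PlF L} (h : UnitOn (Yp ρ p) i0) (j : ℕ) :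
    ‖(i0.φ.comp (algebraMap K L)) (p.coeff j)‖ ≤ 1 := by
  classical
  by_cases hj : j < p.natDegree + 1
  · refine (h (algebraMap K L (p.coeff j)) ?_).1
    exact Finset.mem_union_left _ (Finset.mem_image.2 ⟨j, Finset.mem_range.2 hj, rfl⟩)
  · rw [coeff_eq_zero_of_natDegree_lt (by omega), map_zero, norm_zero]
    exact zero_le_one

theorem near_exp {ρ : L} {p : K[X]} {i0 : PlF L} (h : UnitOn (Yp ρ p) i0)
    {φ : RatFunc K →+* i0.Lv} {ε : i0.Lv} (hn : Near ρ i0 φ ε) :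
    ∃ κ : i0.Lv, ‖κ‖ ≤ 1 ∧ φ (algebraMap K[X] (RatFunc K) p) =
      i0.φ (aeval ρ p) + i0.φ (aeval ρ p.derivative) * ε + κ * ε ^ 2 := by
  classical
  have hu := ultra i0.v
  have hρ : ‖i0.φ ρ‖ ≤ 1 := (h ρ (by simp [Yp])).1
  obtain ⟨κ, hκ, e⟩ := eval_near (i0.φ.comp (algebraMap K L)) p (coeff_le h) hρ hn.lt.le
  refine ⟨κ, hκ, ?_⟩
  have hev : ∀ q : K[X], eval₂ (i0.φ.comp (algebraMap K L)) (i0.φ ρ) q = i0.φ (aeval ρ q) := by
    intro q
    rw [aeval_def, hom_eval₂]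
  rw [hn.ev, e, hev, hev]

theorem near_small {ρ : L} {p : K[X]} {i0 : PlF L} (h : UnitOn (Yp ρ p) i0)
    {φ : RatFunc K →+* i0.Lv} {ε : i0.Lv} (hn : Near ρ i0 φ ε) :
    ∃ s : i0.Lv, ‖s‖ < 1 ∧ φ (algebraMap K[X] (RatFunc K) p) = i0.φ (aeval ρ p) + s := by
  classical
  have hu := ultra i0.v
  obtain ⟨κ, hκ, e⟩ := near_exp h hn
  refine ⟨i0.φ (aeval ρ p.derivative) * ε + κ * ε ^ 2, ?_, by rw [e]; ring⟩
  have hd : ‖i0.φ (aeval ρ p.derivative)‖ ≤ 1 := (h _ (by simp [Yp])).1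
  refine (IsUltrametricDist.norm_add_le_max _ _).trans_lt (max_lt ?_ ?_)
  · rw [norm_mul]
    exact mul_lt_one_of_nonneg_of_lt_one_right hd (norm_nonneg _) hn.lt
  · rw [norm_mul, norm_pow]
    exact mul_lt_one_of_nonneg_of_lt_one_right hκ (by positivity)
      (pow_lt_one₀ (norm_nonneg _) hn.lt two_ne_zero)

theorem near_le {ρ : L} {p : K[X]} {i0 : PlF L} (h : UnitOn (Yp ρ p) i0)
    {φ : RatFunc K →+* i0.Lv} {ε : i0.Lv} (hn : Near ρ i0 φ ε) :
    ‖φ (algebraMap K[X] (RatFunc K) p)‖ ≤ 1 := by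
  classical
  have hu := ultra i0.v
  obtain ⟨s, hs, e⟩ := near_small h hn
  rw [e]
  exact (IsUltrametricDist.norm_add_le_max _ _).trans (max_le (h _ (by simp [Yp])).1 hs.le)

theorem near_unit {ρ : L} {p : K[X]} {i0 : PlF L} (h : UnitOn (Yp ρ p) i0)
    {φ : RatFunc K →+* i0.Lv} {ε : i0.Lv} (hn : Near ρ i0 φ ε) (hp : aeval ρ p ≠ 0) :
    ‖φ (algebraMap K[X] (RatFunc K) p)‖ = 1 ∧
      Sq (φ (algebraMap K[X] (RatFunc K) p) * i0.φ (aeval ρ p)) := by
  classical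
  have hu := ultra i0.v
  obtain ⟨s, hs, e⟩ := near_small h hn
  have h1 : ‖i0.φ (aeval ρ p)‖ = 1 := (h _ (by simp [Yp])).2 hp
  rw [e]
  refine ⟨?_, ?_⟩
  · rw [IsUltrametricDist.norm_add_eq_max_of_norm_ne_norm (by rw [h1]; exact hs.ne'), h1]
    exact max_eq_left hs.le
  · rw [mul_comm]
    exact Sq.dom (by rw [h1]; exact hs)

theorem near_simple {ρ : L} {p : K[X]} {i0 : PlF L} (h : UnitOn (Yp ρ p) i0)
    {φ : RatFunc K →+* i0.Lv} {ε : i0.Lv} (hn : Near ρ i0 φ ε) (hp : aeval ρ p = 0)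
    (hp' : aeval ρ p.derivative ≠ 0) : ‖φ (algebraMap K[X] (RatFunc K) p)‖ = ‖ε‖ := by
  classical
  have hu := ultra i0.v
  obtain ⟨κ, hκ, e⟩ := near_exp h hn
  have h1 : ‖i0.φ (aeval ρ p.derivative)‖ = 1 := (h _ (by simp [Yp])).2 hp'
  rw [e, hp, map_zero, zero_add]
  have e2 : i0.φ (aeval ρ p.derivative) * ε + κ * ε ^ 2 =
      (i0.φ (aeval ρ p.derivative) + κ * ε) * ε := by ring
  rw [e2, norm_mul]
  have h2 : ‖κ * ε‖ < 1 := by
    rw [norm_mul]
    exact mul_lt_one_of_nonneg_of_lt_one_right hκ (norm_nonneg _) hn.lt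
  rw [IsUltrametricDist.norm_add_eq_max_of_norm_ne_norm (by rw [h1]; exact h2.ne'), h1,
    max_eq_left h2.le, one_mul]

end near

section sqf

variable {K : Type} [Field K] [CharZero K] [hess : Algebra.EssFiniteType ℚ K]

/-- products of classes -/
theorem sq_prod {F : Type} [NormedField F] [IsUltrametricDist F] {I : Type} (T : Finset I)
    (u w : I → F) (e : I → ℕ) (h : ∀ π ∈ T, Sq (u π * w π)) :
    Sq ((∏ π ∈ T, u π ^ e π) * ∏ π ∈ T, w π ^ e π) := by
  classical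
  rw [← Finset.prod_mul_distrib]
  induction T using Finset.induction_on with
  | empty =>
    rw [Finset.prod_empty]
    have := Sq.sq (L := F) (r := 1) one_ne_zero
    rwa [one_pow] at this
  | insert a Z ha ih =>
    rw [Finset.prod_insert ha]
    refine Sq.mul ?_ (ih fun π hπ => h π (Finset.mem_insert_of_mem hπ))
    rw [← mul_pow]
    have h1 := h a (Finset.mem_insert_self _ _)
    generalize e a = n
    induction n with
    | zero =>
      rw [pow_zero]
      have := Sq.sq (L := F) (r := 1) one_ne_zero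
      rwa [one_pow] at this
    | succ n ihn =>
      rw [pow_succ]
      exact ihn.mul h1

/-- **Squares from the residue field at `D`.** -/
theorem square_of_near (hF : S_FrobRes) {D : K[X]} [hDf : Fact (Irreducible D)]
    (hodd : Odd D.natDegree)
    {T : Finset K[X]} (hT : ∀ π ∈ T, π.Monic ∧ Irreducible π) (hDT : ∀ π ∈ T, ¬ D ∣ π)
    (hind : ∀ (c : K) (e : K[X] → ℕ) (z : K[X]), c ≠ 0 →
      D ∣ C c * ∏ π ∈ T, π ^ e π - z ^ 2 → ∀ π ∈ T, 2 ∣ e π) {Q : K[X]} (hQ : Q ≠ 0)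
    (hmu : ∀ ρ : AlgebraicClosure K, (∀ π ∈ T, aeval ρ π ≠ 0) → 2 ∣ mu Q ρ)
    (Y : Finset (AdjoinRoot D))
    (hsq : ∀ (i0 : PlF (AdjoinRoot D)) (φ : RatFunc K →+* i0.Lv) (ε : i0.Lv), UnitOn Y i0 →
      Near (AdjoinRoot.root D) i0 φ ε → Sq (φ (algebraMap K[X] (RatFunc K) Q))) :
    IsSquare (algebraMap K[X] (RatFunc K) Q) := by
  classical
  have hD : Irreducible D := hDf.out
  obtain ⟨e, d, h, hd, hQh⟩ := irr_supp T hT Q hQ hmu
  set ρ := AdjoinRoot.root D with hρ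
  haveI : CharZero (AdjoinRoot D) :=
    charZero_of_injective_algebraMap (AdjoinRoot.of D).injective
  have hmk : ∀ p : K[X], aeval ρ p = AdjoinRoot.mk D p := fun p => AdjoinRoot.aeval_eq p
  have hπρ : ∀ π ∈ T, aeval ρ π ≠ 0 := by
    intro π hπ h0
    rw [hmk, AdjoinRoot.mk_eq_zero] at h0
    exact hDT π hπ h0
  haveI : Module.Finite K (AdjoinRoot D) := (AdjoinRoot.powerBasis hD.ne_zero).finite
  have hessL : Algebra.EssFiniteType ℚ (AdjoinRoot D) := by
    have h1 : Algebra.EssFiniteType K (AdjoinRoot D) := inferInstance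
    exact Algebra.EssFiniteType.comp ℚ K (AdjoinRoot D)
  have hdL : algebraMap K (AdjoinRoot D) d ≠ 0 := (_root_.map_ne_zero _).2 hd
  have hprod : ∏ π ∈ T, (aeval ρ π) ^ e π ≠ 0 :=
    Finset.prod_ne_zero_iff.2 fun π hπ => pow_ne_zero _ (hπρ π hπ)
  have key : IsSquare (algebraMap K (AdjoinRoot D) d * ∏ π ∈ T, (aeval ρ π) ^ e π) := by
    refine isSquare_of hF (AdjoinRoot D) hessL (mul_ne_zero hdL hprod)
      (Y ∪ Yp ρ (C d) ∪ T.biUnion (fun π => Yp ρ π)) ?_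
    intro i0 hi0
    have hu := ultra i0.v
    obtain ⟨φ, ε, n1, n2, n3, n4⟩ := exists_near_root (K := K) i0 (i0.φ ρ)
    have hn : Near ρ i0 φ ε := ⟨n1, n2, n3, n4⟩
    have hY : UnitOn Y i0 := fun c hc => hi0 c (by simp [hc])
    have hYd : UnitOn (Yp ρ (C d)) i0 := fun c hc => hi0 c (by
      rw [Finset.mem_union, Finset.mem_union]
      exact Or.inl (Or.inr hc))
    have hYπ : ∀ π ∈ T, UnitOn (Yp ρ π) i0 := fun π hπ c hc => hi0 c (by
      rw [Finset.mem_union]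
      exact Or.inr (Finset.mem_biUnion.2 ⟨π, hπ, hc⟩))
    have s1 := hsq i0 φ ε hY hn
    have s2 := sq_prod T (fun π => φ (algebraMap K[X] (RatFunc K) π)) (fun π => i0.φ (aeval ρ π)) e
      (fun π hπ => (near_unit (hYπ π hπ) hn (hπρ π hπ)).2)
    have s3 : Sq (φ (algebraMap K[X] (RatFunc K) (C d)) * i0.φ (aeval ρ (C d : K[X]))) :=
      (near_unit hYd hn (by rw [aeval_C]; exact hdL)).2
    have e1 := congrArg (fun p => φ (algebraMap K[X] (RatFunc K) p)) hQh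
    simp only [map_mul, map_prod, map_pow] at e1
    rw [map_mul, map_prod]
    simp only [map_pow]
    rw [aeval_C] at s3
    set W := ∏ π ∈ T, φ (algebraMap K[X] (RatFunc K) π) ^ e π with hW
    set V := ∏ π ∈ T, i0.φ (aeval ρ π) ^ e π with hV
    set q := φ (algebraMap K[X] (RatFunc K) Q) with hq
    set c := φ (algebraMap K[X] (RatFunc K) (C d)) with hc
    set c' := i0.φ (algebraMap K (AdjoinRoot D) d) with hc'
    set g := φ (algebraMap K[X] (RatFunc K) h) with hg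
    have hW0 : W ≠ 0 := left_ne_zero_of_mul s2.ne_zero
    have hc0 : c ≠ 0 := left_ne_zero_of_mul s3.ne_zero
    have hg0 : g ≠ 0 := by
      intro h0
      rw [h0] at e1
      have : q * W = 0 := by rw [e1]; ring
      exact mul_ne_zero s1.ne_zero hW0 this
    -- `c' V = (q) (W V) (c c') (g / c)^2 / (q / ...)`
    have hgc : Sq (((c * W) * g)  ^ 2) := Sq.sq (mul_ne_zero (mul_ne_zero hc0 hW0) hg0)
    refine Sq.of_mul hgc ?_
    have e2 : c' * V * (c * W * g) ^ 2 = (q * (W * V)) * (c * c') * W ^ 2 := by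
      have e1' : c * g ^ 2 = q * W := e1.symm
      calc c' * V * (c * W * g) ^ 2 = c' * V * c * W ^ 2 * (c * g ^ 2) := by ring
        _ = (q * (W * V)) * (c * c') * W ^ 2 := by rw [e1']; ring
    rw [e2]
    exact ((s1.mul s2).mul s3).mul (Sq.sq hW0)
  obtain ⟨w, hw⟩ := key
  obtain ⟨z, rfl⟩ := AdjoinRoot.mk_surjective w
  have hdvd : D ∣ C d * ∏ π ∈ T, π ^ e π - z ^ 2 := by
    rw [← AdjoinRoot.mk_eq_zero, map_sub, map_mul, map_prod, map_pow]
    simp only [map_pow]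
    have e1 : AdjoinRoot.mk D (C d) = algebraMap K (AdjoinRoot D) d := rfl
    simp only [hmk] at hw
    rw [e1, hw]
    ring
  have heven := hind d e z hd hdvd
  set w : K[X] := ∏ π ∈ T, π ^ (e π / 2) with hw2
  have hww : ∏ π ∈ T, π ^ e π = w ^ 2 := by
    rw [hw2, ← Finset.prod_pow]
    refine Finset.prod_congr rfl fun π hπ => ?_
    rw [← pow_mul, Nat.div_mul_cancel (heven π hπ)]
  have hw0 : w ≠ 0 := Finset.prod_ne_zero_iff.2 fun π hπ => pow_ne_zero _ (hT π hπ).2.ne_zero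
  have hDw : AdjoinRoot.mk D w ≠ 0 := by
    intro h0
    rw [AdjoinRoot.mk_eq_zero] at h0
    obtain ⟨π, hπ, h4⟩ := (Prime.dvd_finsetProd_iff hD.prime _).1 h0
    exact hDT π hπ (hD.prime.dvd_of_dvd_pow h4)
  have hdsq : IsSquare d := by
    refine Pool.Agent.TH115.GD.const_sq hD hodd ?_
    rw [Pool.Agent.TH115.GD.sqMod_iff]
    refine ⟨AdjoinRoot.mk D z / AdjoinRoot.mk D w, ?_⟩
    have h5 : AdjoinRoot.mk D (C d) * AdjoinRoot.mk D w ^ 2 = AdjoinRoot.mk D z ^ 2 := by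
      have := (AdjoinRoot.mk_eq_mk).2 hdvd
      rw [hww, map_mul, map_pow, map_pow] at this
      exact this
    field_simp
    linear_combination h5
  obtain ⟨r, hr⟩ := hdsq
  rw [hww, hr] at hQh
  refine ⟨algebraMap K[X] (RatFunc K) (C r) * algebraMap K[X] (RatFunc K) h /
    algebraMap K[X] (RatFunc K) w, ?_⟩
  have hw0' : algebraMap K[X] (RatFunc K) w ≠ 0 :=
    (map_ne_zero_iff _ (RatFunc.algebraMap_injective K)).2 hw0
  have e1 := congrArg (algebraMap K[X] (RatFunc K)) hQh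
  rw [map_mul, map_pow, map_mul, map_pow, C_mul, map_mul] at e1
  field_simp
  linear_combination e1

end sqf

end Pool.Agent.Q308.BS
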