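import Pool.Agent.Q308.BS.Sel

/-!
The two-Selmer group of a quadratic twist of an elliptic curve over `K(S)`.
-/

set_option autoImplicit false
set_option linter.unusedSectionVars false

open Polynomial IsDedekindDomain NumberField WeierstrassCurve

namespace Pool.Agent.Q308.BS

open Pool.Agent.TH954 Pool.Agent.Y791.BS Pool.Agent.Y791.BF Pool.Agent.Y791.BF.Types
  Pool.Agent.Y791.BC Pool.Agent.Y791.BC.LegCls Pool.Agent.H918R3 Pool.Agent.H918R3.TB1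
  Pool.Agent.Y791.BF.Level

section loc

variable {K : Type} [Field K] [CharZero K]

/-- polynomial representatives -/
theorem num_form {c : RatFunc K} (hc : c ≠ 0) : ∃ Q w : K[X], Q ≠ 0 ∧ w ≠ 0 ∧
    c * (algebraMap K[X] (RatFunc K) w) ^ 2 = algebraMap K[X] (RatFunc K) Q := by
  have hd0 : c.denom ≠ 0 := c.denom_ne_zero
  have hd0' : algebraMap K[X] (RatFunc K) c.denom ≠ 0 :=
    (map_ne_zero_iff _ (RatFunc.algebraMap_injective K)).2 hd0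
  refine ⟨c.num * c.denom, c.denom, mul_ne_zero (RatFunc.num_ne_zero hc) hd0, hd0, ?_⟩
  have h1 := RatFunc.num_div_denom c
  rw [div_eq_iff hd0'] at h1
  rw [map_mul, h1]
  ring

variable {D : K[X]} [hDf : Fact (Irreducible D)]

/-- the norm of a polynomial near a root of `D` -/
theorem norm_near_pow {Q' : K[X]} {m : ℕ} (hQ' : ¬ D ∣ Q') {i0 : PlF (AdjoinRoot D)}
    {φ : RatFunc K →+* i0.Lv} {ε : i0.Lv} (hn : Near (AdjoinRoot.root D) i0 φ ε)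
    (hYD : UnitOn (Yp (AdjoinRoot.root D) D) i0) (hYQ : UnitOn (Yp (AdjoinRoot.root D) Q') i0) :
    ‖φ (algebraMap K[X] (RatFunc K) D)‖ = ‖ε‖ ∧
    ‖φ (algebraMap K[X] (RatFunc K) (D ^ m * Q'))‖ = ‖ε‖ ^ m := by
  have hD : Irreducible D := hDf.out
  have hmk : ∀ p : K[X], aeval (AdjoinRoot.root D) p = AdjoinRoot.mk D p :=
    fun p => AdjoinRoot.aeval_eq p
  have h1 : aeval (AdjoinRoot.root D) D = 0 := by rw [hmk, AdjoinRoot.mk_self]
  have h2 : aeval (AdjoinRoot.root D) D.derivative ≠ 0 := by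
    intro h
    rw [hmk, AdjoinRoot.mk_eq_zero] at h
    exact hD.not_isUnit (hD.separable.isUnit_of_dvd' dvd_rfl h)
  have h3 : aeval (AdjoinRoot.root D) Q' ≠ 0 := by
    intro h
    rw [hmk, AdjoinRoot.mk_eq_zero] at h
    exact hQ' h
  have h4 := near_simple hYD hn h1 h2
  refine ⟨h4, ?_⟩
  rw [map_mul, map_mul, map_pow, map_pow, norm_mul, norm_pow, h4, (near_unit hYQ hn h3).1, mul_one]

end loc

section main

variable {K : Type} [Field K] [CharZero K] [hess : Algebra.EssFiniteType ℚ K]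

/-- outside `D` and the bad places the exponents are even -/
theorem even_away (hEmb : S_EmbFG) {p12 p13 p23 : K[X]} (h12 : p12 ≠ 0) (h13 : p13 ≠ 0)
    (h23 : p23 ≠ 0) {f1 f2 f3 : RatFunc K} (e12 : f1 - f2 = algebraMap K[X] (RatFunc K) p12)
    (e13 : f1 - f3 = algebraMap K[X] (RatFunc K) p13)
    (e23 : f2 - f3 = algebraMap K[X] (RatFunc K) p23) {c1 c2 : RatFunc K}
    (hloc : ∀ i : PlF (RatFunc K), ∃ P : Pt (i.φ f1) (i.φ f2) (i.φ f3),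
      FromPt (i.φ f1) (i.φ f2) (i.φ f3) (i.φ c1) (i.φ c2) P) {Q1 w1 Q2 w2 : K[X]} (hQ1 : Q1 ≠ 0)
    (hQ2 : Q2 ≠ 0) (hw1 : w1 ≠ 0) (hw2 : w2 ≠ 0)
    (k1 : c1 * (algebraMap K[X] (RatFunc K) w1) ^ 2 = algebraMap K[X] (RatFunc K) Q1)
    (k2 : c2 * (algebraMap K[X] (RatFunc K) w2) ^ 2 = algebraMap K[X] (RatFunc K) Q2)
    {ρ : AlgebraicClosure K} (r12 : aeval ρ p12 ≠ 0) (r13 : aeval ρ p13 ≠ 0)
    (r23 : aeval ρ p23 ≠ 0) : 2 ∣ mu Q1 ρ ∧ 2 ∣ mu Q2 ρ := by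
  classical
  obtain ⟨i, ε, hε0, hε1, hεn, hpoly⟩ := exists_near_polys hEmb
    ({Q1, Q2, p12, p13, p23} : Finset K[X]) ρ
  have hult := ultra i.v
  have hε0' : 0 < ‖ε‖ := norm_pos_iff.2 hε0
  have n12 : ‖i.φ f1 - i.φ f2‖ = 1 := by
    rw [← map_sub, e12, hpoly p12 (by simp) h12, mu_eq_zero r12, pow_zero]
  have n13 : ‖i.φ f1 - i.φ f3‖ = 1 := by
    rw [← map_sub, e13, hpoly p13 (by simp) h13, mu_eq_zero r13, pow_zero]
  have n23 : ‖i.φ f2 - i.φ f3‖ = 1 := by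
    rw [← map_sub, e23, hpoly p23 (by simp) h23, mu_eq_zero r23, pow_zero]
  have n21 : ‖i.φ f2 - i.φ f1‖ = 1 := by rw [norm_sub_rev]; exact n12
  obtain ⟨P, hP1, hP2⟩ := hloc i
  have fin : ∀ {c : RatFunc K} {Q w : K[X]} {v : i.Lv}, Q ∈ ({Q1, Q2, p12, p13, p23} : Finset K[X]) →
      Q ≠ 0 → w ≠ 0 → c * (algebraMap K[X] (RatFunc K) w) ^ 2 = algebraMap K[X] (RatFunc K) Q →
      IsSquare (i.φ c * v) → (∃ w : i.Lv, w ≠ 0 ∧ ‖v‖ = ‖w‖ ^ 2) → 2 ∣ mu Q ρ := by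
    rintro c Q w v hmem hQ hw k ⟨s, hs⟩ ⟨w', hw', hv⟩
    have hwφ : i.φ (algebraMap K[X] (RatFunc K) w) ≠ 0 :=
      (_root_.map_ne_zero _).2 ((map_ne_zero_iff _ (RatFunc.algebraMap_injective K)).2 hw)
    have hQn := hpoly Q hmem hQ
    have e1 : i.φ c * i.φ (algebraMap K[X] (RatFunc K) w) ^ 2 =
        i.φ (algebraMap K[X] (RatFunc K) Q) := by
      rw [← map_pow, ← map_mul, k]
    have e2 : ‖i.φ c‖ * ‖w'‖ ^ 2 = ‖s‖ ^ 2 := by
      rw [← hv, ← norm_mul, hs, norm_mul, pow_two]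
    have e3 : ‖ε‖ ^ (mu Q ρ) * ‖w'‖ ^ 2 = (‖s‖ * ‖i.φ (algebraMap K[X] (RatFunc K) w)‖) ^ 2 := by
      rw [← hQn, ← e1, norm_mul, norm_pow, mul_pow, ← e2]
      ring
    have hs0 : s ≠ 0 := by
      rintro rfl
      rw [norm_zero, zero_mul, zero_pow two_ne_zero] at e3
      have : 0 < ‖w'‖ := norm_pos_iff.2 hw'
      exact (by positivity : ‖ε‖ ^ mu Q ρ * ‖w'‖ ^ 2 ≠ 0) e3
    obtain ⟨n, hn⟩ := hεn w' hw'
    obtain ⟨m, hm⟩ := hεn (s * i.φ (algebraMap K[X] (RatFunc K) w)) (mul_ne_zero hs0 hwφ)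
    rw [← norm_mul, hn, hm, ← zpow_natCast, ← zpow_natCast, ← zpow_natCast, ← zpow_mul,
      ← zpow_mul, ← zpow_add₀ hε0'.ne'] at e3
    have h4 := zpow_right_injective₀ hε0' hε1.ne e3
    have h5 : ((mu Q ρ : ℕ) : ℤ) = 2 * (m - n) := by
      push_cast at h4
      linarith
    have h6 : (2 : ℤ) ∣ ((mu Q ρ : ℕ) : ℤ) := ⟨_, h5⟩
    exact_mod_cast h6
  exact ⟨fin (by simp) hQ1 hw1 k1 hP1 (LegSel.even_dl (fun x => rfl) n12 n13 P),
    fin (by simp) hQ2 hw2 k2 hP2 (LegSel.even_dl (fun x => by ring) n21 n23 P)⟩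

end main

section tw

variable {K : Type} [Field K] [CharZero K]

/-- the alternatives near `D` -/
theorem near_alt {D : K[X]} [hDf : Fact (Irreducible D)] {a1 a2 a3 : K[X]}
    (h12 : ¬ D ∣ a1 - a2) (h13 : ¬ D ∣ a1 - a3) (h23 : ¬ D ∣ a2 - a3) {c1 c2 : RatFunc K}
    (hc1 : c1 ≠ 0) (hc2 : c2 ≠ 0) {f1 f2 f3 : RatFunc K}
    (e1 : f1 = algebraMap K[X] (RatFunc K) (D * a1)) (e2 : f2 = algebraMap K[X] (RatFunc K) (D * a2))
    (e3 : f3 = algebraMap K[X] (RatFunc K) (D * a3))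
    (hloc : ∀ i : PlF (RatFunc K), ∃ P : Pt (i.φ f1) (i.φ f2) (i.φ f3),
      FromPt (i.φ f1) (i.φ f2) (i.φ f3) (i.φ c1) (i.φ c2) P) {Q1 w1 Q2 w2 : K[X]}
    (hw1 : w1 ≠ 0) (hw2 : w2 ≠ 0)
    (k1 : c1 * (algebraMap K[X] (RatFunc K) w1) ^ 2 = algebraMap K[X] (RatFunc K) Q1)
    (k2 : c2 * (algebraMap K[X] (RatFunc K) w2) ^ 2 = algebraMap K[X] (RatFunc K) Q2)
    {m1 m2 : ℕ} {Q1' Q2' : K[X]} (q1 : Q1 = D ^ m1 * Q1') (q2 : Q2 = D ^ m2 * Q2')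
    (d1 : ¬ D ∣ Q1') (d2 : ¬ D ∣ Q2') :
    ∃ Y : Finset (AdjoinRoot D), ∀ (i0 : PlF (AdjoinRoot D)) (φ : RatFunc K →+* i0.Lv) (ε : i0.Lv),
      UnitOn Y i0 → Near (AdjoinRoot.root D) i0 φ ε →
      (Even m1 ∧ Even m2 ∧ Sq (φ (algebraMap K[X] (RatFunc K) Q1)) ∧
        Sq (φ (algebraMap K[X] (RatFunc K) Q2))) ∨
      (Even m1 ∧ Odd m2 ∧
        Sq (φ (algebraMap K[X] (RatFunc K) (Q1 * (D * (a1 - a2) * (D * (a1 - a3)))))) ∧
        Sq (φ (algebraMap K[X] (RatFunc K) (Q2 * (D * (a1 - a2)))))) ∨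
      (Odd m1 ∧ Even m2 ∧
        Sq (φ (algebraMap K[X] (RatFunc K) (Q1 * (D * (a2 - a1))))) ∧
        Sq (φ (algebraMap K[X] (RatFunc K) (Q2 * (D * (a2 - a1) * (D * (a2 - a3))))))) ∨
      (Odd m1 ∧ Odd m2 ∧
        Sq (φ (algebraMap K[X] (RatFunc K) (Q1 * (D * (a3 - a1))))) ∧
        Sq (φ (algebraMap K[X] (RatFunc K) (Q2 * (D * (a3 - a2)))))) := by
  classical
  have hD : Irreducible D := hDf.out
  set ρ := AdjoinRoot.root D with hρ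
  have hmk : ∀ p : K[X], aeval ρ p = AdjoinRoot.mk D p := fun p => AdjoinRoot.aeval_eq p
  refine ⟨Yp ρ D ∪ Yp ρ Q1' ∪ Yp ρ Q2' ∪ Yp ρ a1 ∪ Yp ρ a2 ∪ Yp ρ a3 ∪ Yp ρ (a1 - a2) ∪
    Yp ρ (a1 - a3) ∪ Yp ρ (a2 - a3), ?_⟩
  intro i0 φ ε hY hn
  have hu := ultra i0.v
  have sub : ∀ {Y' : Finset (AdjoinRoot D)}, Y' ⊆ Yp ρ D ∪ Yp ρ Q1' ∪ Yp ρ Q2' ∪ Yp ρ a1 ∪
      Yp ρ a2 ∪ Yp ρ a3 ∪ Yp ρ (a1 - a2) ∪ Yp ρ (a1 - a3) ∪ Yp ρ (a2 - a3) → UnitOn Y' i0 :=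
    fun h c hc => hY c (h hc)
  have yD : UnitOn (Yp ρ D) i0 := sub (fun c hc => by simp only [Finset.mem_union, hc, true_or, or_true])
  have yQ1 : UnitOn (Yp ρ Q1') i0 := sub (fun c hc => by simp only [Finset.mem_union, hc, true_or, or_true])
  have yQ2 : UnitOn (Yp ρ Q2') i0 := sub (fun c hc => by simp only [Finset.mem_union, hc, true_or, or_true])
  have y1 : UnitOn (Yp ρ a1) i0 := sub (fun c hc => by simp only [Finset.mem_union, hc, true_or, or_true])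
  have y2 : UnitOn (Yp ρ a2) i0 := sub (fun c hc => by simp only [Finset.mem_union, hc, true_or, or_true])
  have y3 : UnitOn (Yp ρ a3) i0 := sub (fun c hc => by simp only [Finset.mem_union, hc, true_or, or_true])
  have y12 : UnitOn (Yp ρ (a1 - a2)) i0 := sub (fun c hc => by simp only [Finset.mem_union, hc, true_or, or_true])
  have y13 : UnitOn (Yp ρ (a1 - a3)) i0 := sub (fun c hc => by simp only [Finset.mem_union, hc, true_or, or_true])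
  have y23 : UnitOn (Yp ρ (a2 - a3)) i0 := sub (fun c hc => by simp only [Finset.mem_union, hc, true_or, or_true])
  obtain ⟨nD, nQ1⟩ := norm_near_pow (m := m1) d1 hn yD yQ1
  obtain ⟨-, nQ2⟩ := norm_near_pow (m := m2) d2 hn yD yQ2
  rw [← q1] at nQ1
  rw [← q2] at nQ2
  set cx : K[X] →+* RatFunc K := algebraMap K[X] (RatFunc K) with hcx
  have hne : ∀ {p : K[X]}, ¬ D ∣ p → aeval ρ p ≠ 0 := by
    intro p hp h
    rw [hmk, AdjoinRoot.mk_eq_zero] at h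
    exact hp h
  have hδ0 : φ (cx D) ≠ 0 := by
    rw [← norm_ne_zero_iff, nD]
    exact norm_ne_zero_iff.2 hn.ne
  have hδ1 : ‖φ (cx D)‖ < 1 := by rw [nD]; exact hn.lt
  have hdv : ∀ w : i0.Lv, w ≠ 0 → ∃ n : ℤ, ‖w‖ = ‖φ (cx D)‖ ^ n := by
    intro w hw
    rw [nD]
    exact hn.dv w hw
  obtain ⟨P, hP1, hP2⟩ := hloc ⟨i0.L, i0.v, φ⟩
  have hf : ∀ {f : RatFunc K} {a : K[X]}, f = cx (D * a) → φ f = φ (cx D) * φ (cx a) := by
    rintro f a rfl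
    rw [map_mul, map_mul]
  have hdiff : ∀ {a b : K[X]}, ¬ D ∣ a - b → UnitOn (Yp ρ (a - b)) i0 →
      ‖φ (cx a) - φ (cx b)‖ = 1 := by
    intro a b hab hy
    rw [← map_sub, ← map_sub]
    exact (near_unit hy hn (hne hab)).1
  have key := cl_twist hδ0 hδ1 hdv (near_le y1 hn) (near_le y2 hn) (near_le y3 hn)
    (hdiff h12 y12) (hdiff h13 y13) (hdiff h23 y23) (hf e1) (hf e2) (hf e3) P
    (c1 := φ c1) (c2 := φ c2) ((_root_.map_ne_zero _).2 hc1) ((_root_.map_ne_zero _).2 hc2) hP1 hP2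
  have g12 : φ f1 - φ f2 = φ (cx (D * (a1 - a2))) := by
    rw [← map_sub, e1, e2, ← map_sub, mul_sub]
  have g13 : φ f1 - φ f3 = φ (cx (D * (a1 - a3))) := by
    rw [← map_sub, e1, e3, ← map_sub, mul_sub]
  have g23 : φ f2 - φ f3 = φ (cx (D * (a2 - a3))) := by
    rw [← map_sub, e2, e3, ← map_sub, mul_sub]
  have g21 : φ f2 - φ f1 = φ (cx (D * (a2 - a1))) := by
    rw [← map_sub, e2, e1, ← map_sub, mul_sub]
  have g31 : φ f3 - φ f1 = φ (cx (D * (a3 - a1))) := by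
    rw [← map_sub, e3, e1, ← map_sub, mul_sub]
  have g32 : φ f3 - φ f2 = φ (cx (D * (a3 - a2))) := by
    rw [← map_sub, e3, e2, ← map_sub, mul_sub]
  -- from `c` to `Q`
  have conv : ∀ {c : RatFunc K} {w Q : K[X]} {A : K[X]}, w ≠ 0 → c * (cx w) ^ 2 = cx Q →
      Sq (φ c * φ (cx A)) → Sq (φ (cx (Q * A))) := by
    intro c w Q A hw k hS
    have hwφ : φ (cx w) ≠ 0 :=
      (_root_.map_ne_zero _).2 ((map_ne_zero_iff _ (RatFunc.algebraMap_injective K)).2 hw)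
    have e : φ (cx (Q * A)) = φ c * φ (cx A) * φ (cx w) ^ 2 := by
      rw [map_mul, map_mul, ← k, map_mul, map_pow]
      ring
    rw [e]
    exact hS.mul (Sq.sq hwφ)
  -- the orders
  have nd : ∀ {a b : K[X]}, ¬ D ∣ a - b → UnitOn (Yp ρ (a - b)) i0 →
      ‖φ (cx (D * (a - b)))‖ = ‖ε‖ := by
    intro a b hab hy
    rw [map_mul, map_mul, norm_mul, nD, (near_unit hy hn (hne hab)).1, mul_one]
  have n12 := nd h12 y12
  have n13 := nd h13 y13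
  have n23 := nd h23 y23
  have n21 : ‖φ (cx (D * (a2 - a1)))‖ = ‖ε‖ := by
    rw [← g21, norm_sub_rev, g12]; exact n12
  have n31 : ‖φ (cx (D * (a3 - a1)))‖ = ‖ε‖ := by
    rw [← g31, norm_sub_rev, g13]; exact n13
  have n32 : ‖φ (cx (D * (a3 - a2)))‖ = ‖ε‖ := by
    rw [← g32, norm_sub_rev, g23]; exact n23
  have ev : ∀ {Q A : K[X]} {m s : ℕ}, ‖φ (cx Q)‖ = ‖ε‖ ^ m → ‖φ (cx A)‖ = ‖ε‖ ^ s →
      Sq (φ (cx (Q * A))) → Even (m + s) := by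
    intro Q A m s h h' hS
    have h1 := sq_even hn.ne hn.lt hn.dv hS (n := ((m + s : ℕ) : ℤ)) (by
      rw [map_mul, map_mul, norm_mul, h, h', zpow_natCast, pow_add])
    exact_mod_cast h1
  have p1 : ∀ {A : K[X]}, ‖φ (cx A)‖ = ‖ε‖ → ‖φ (cx A)‖ = ‖ε‖ ^ 1 := fun h => by rw [h, pow_one]
  have p2 : ∀ {A B : K[X]}, ‖φ (cx A)‖ = ‖ε‖ → ‖φ (cx B)‖ = ‖ε‖ → ‖φ (cx (A * B))‖ = ‖ε‖ ^ 2 := by
    intro A B h h'
    rw [map_mul, map_mul, norm_mul, h, h', pow_two]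
  rcases key with ⟨s1, s2⟩ | ⟨s1, s2⟩ | ⟨s1, s2⟩ | ⟨s1, s2⟩
  · left
    have t1 : Sq (φ (cx (Q1 * 1))) := conv hw1 k1 (by rw [map_one, map_one, mul_one]; exact s1)
    have t2 : Sq (φ (cx (Q2 * 1))) := conv hw2 k2 (by rw [map_one, map_one, mul_one]; exact s2)
    have z1 := ev (s := 0) nQ1 (by rw [map_one, map_one, norm_one, pow_zero]) t1
    have z2 := ev (s := 0) nQ2 (by rw [map_one, map_one, norm_one, pow_zero]) t2
    rw [mul_one] at t1 t2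
    rw [add_zero] at z1 z2
    exact ⟨z1, z2, t1, t2⟩
  · right; left
    rw [g12] at s2
    have s1' : Sq (φ c1 * φ (cx (D * (a1 - a2) * (D * (a1 - a3))))) := by
      rw [map_mul cx, map_mul φ, ← g12, ← g13]
      exact s1
    have t1 := conv hw1 k1 s1'
    have t2 := conv hw2 k2 s2
    have z1 := ev nQ1 (p2 n12 n13) t1
    have z2 := ev nQ2 (p1 n12) t2
    refine ⟨?_, ?_, t1, t2⟩
    · rw [Nat.even_add] at z1
      exact z1.2 even_two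
    · rw [Nat.even_add_one, Nat.not_even_iff_odd] at z2
      exact z2
  · right; right; left
    rw [g21] at s1
    have s2' : Sq (φ c2 * φ (cx (D * (a2 - a1) * (D * (a2 - a3))))) := by
      rw [map_mul cx, map_mul φ, ← g21, ← g23]
      exact s2
    have t1 := conv hw1 k1 s1
    have t2 := conv hw2 k2 s2'
    have z1 := ev nQ1 (p1 n21) t1
    have z2 := ev nQ2 (p2 n21 n23) t2
    refine ⟨?_, ?_, t1, t2⟩
    · rw [Nat.even_add_one, Nat.not_even_iff_odd] at z1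
      exact z1
    · rw [Nat.even_add] at z2
      exact z2.2 even_two
  · right; right; right
    rw [g31] at s1
    rw [g32] at s2
    have t1 := conv hw1 k1 s1
    have t2 := conv hw2 k2 s2
    have z1 := ev nQ1 (p1 n31) t1
    have z2 := ev nQ2 (p1 n32) t2
    refine ⟨?_, ?_, t1, t2⟩
    · rw [Nat.even_add_one, Nat.not_even_iff_odd] at z1
      exact z1
    · rw [Nat.even_add_one, Nat.not_even_iff_odd] at z2
      exact z2

end tw

end Pool.Agent.Q308.BS
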