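import Pool.Agent.Q308.BS.SelT

/-!
The two-Selmer group of a quadratic twist of an elliptic curve over `K(S)` by a polynomial `D` for which
the bad places of the curve are independent modulo `D`.
-/

set_option autoImplicit false
set_option linter.unusedSectionVars false

open Polynomial IsDedekindDomain NumberField WeierstrassCurve

namespace Pool.Agent.Q308.BS

open Pool.Agent.TH954 Pool.Agent.Y791.BS Pool.Agent.Y791.BF Pool.Agent.Y791.BF.Types
  Pool.Agent.Y791.BC Pool.Agent.Y791.BC.LegCls Pool.Agent.H918R3 Pool.Agent.H918R3.TB1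
  Pool.Agent.Y791.BF.Level

variable {K : Type} [Field K] [CharZero K]

/-- the multiplicities of a twisted class are even away from the bad places -/
theorem mu_par {D : K[X]} (hD : Irreducible D) {T : Finset K[X]} {Q Q' : K[X]} {m s : ℕ}
    (q : Q = D ^ m * Q') (d : ¬ D ∣ Q') (hQ : Q ≠ 0)
    (hev : ∀ ρ : AlgebraicClosure K, aeval ρ D ≠ 0 → (∀ π ∈ T, aeval ρ π ≠ 0) → 2 ∣ mu Q ρ)
    (hms : Even (m + s)) {A : K[X]} (hA : A ≠ 0)
    (hAm : ∀ ρ : AlgebraicClosure K, (∀ π ∈ T, aeval ρ π ≠ 0) → mu A ρ = s * mu D ρ)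
    (ρ : AlgebraicClosure K) (hρ : ∀ π ∈ T, aeval ρ π ≠ 0) : 2 ∣ mu (Q * A) ρ := by
  rw [mu_mul hQ hA, hAm ρ hρ]
  by_cases h : aeval ρ D = 0
  · have h1 : mu D ρ = 1 := mu_irr hD h
    have h2 : aeval ρ Q' ≠ 0 := by
      intro h0
      have h3 : minpoly K ρ ∣ Q' := minpoly.dvd K ρ h0
      have h4 : minpoly K ρ ∣ D := minpoly.dvd K ρ h
      have h5 : Irreducible (minpoly K ρ) := minpoly.irreducible
        (Algebra.IsIntegral.isIntegral ρ)
      have h6 : Associated (minpoly K ρ) D := h5.associated_of_dvd hD h4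
      exact d (h6.symm.dvd.trans h3)
    have h3 : mu Q' ρ = 0 := mu_eq_zero h2
    have hD0 : D ^ m ≠ 0 := pow_ne_zero _ hD.ne_zero
    have hQ'0 : Q' ≠ 0 := by
      rintro rfl
      exact d (dvd_zero _)
    have h4 : mu Q ρ = m := by
      rw [q, mu_mul hD0 hQ'0, mu_pow, h1, h3, mul_one, add_zero]
    rw [h4, h1, mul_one]
    exact hms.two_dvd
  · have h1 : mu D ρ = 0 := mu_eq_zero h
    rw [h1, mul_zero, add_zero]
    exact hev ρ h hρ

variable [hess : Algebra.EssFiniteType ℚ K]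

/-- **The two-Selmer group of a generic quadratic twist.** -/
theorem sel_twist {D : K[X]} (hD : Irreducible D) (hodd : Odd D.natDegree) {a1 a2 a3 : K[X]}
    (h12 : ¬ D ∣ a1 - a2) (h13 : ¬ D ∣ a1 - a3) (h23 : ¬ D ∣ a2 - a3)
    (n12 : a1 ≠ a2) (n13 : a1 ≠ a3) (n23 : a2 ≠ a3)
    {T : Finset K[X]} (hT : ∀ π ∈ T, π.Monic ∧ Irreducible π) (hDT : ∀ π ∈ T, ¬ D ∣ π)
    (hTs : ∀ π : K[X], π.Monic → Irreducible π →
      (π ∣ a1 - a2 ∨ π ∣ a1 - a3 ∨ π ∣ a2 - a3) → π ∈ T)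
    (hind : ∀ (c : K) (e : K[X] → ℕ) (z : K[X]), c ≠ 0 →
      D ∣ C c * ∏ π ∈ T, π ^ e π - z ^ 2 → ∀ π ∈ T, 2 ∣ e π) :
    SelTor (RatFunc K) 1 (algebraMap K[X] (RatFunc K) (D * a1))
      (algebraMap K[X] (RatFunc K) (D * a2)) (algebraMap K[X] (RatFunc K) (D * a3)) := by
  classical
  intro c1 c2 hc1 hc2 hloc
  have hF : S_FrobRes := FrobRes.main
  have hEmb : S_EmbFG := EmbFG.main hF
  haveI : Fact (Irreducible D) := ⟨hD⟩
  have hchR : CharZero (RatFunc K) :=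
    charZero_of_injective_algebraMap (algebraMap K (RatFunc K)).injective
  have h2R : (2 : RatFunc K) ≠ 0 := two_ne_zero
  have hinj := RatFunc.algebraMap_injective K
  set cx : K[X] →+* RatFunc K := algebraMap K[X] (RatFunc K) with hcx
  have hD0 := hD.ne_zero
  have m12 : cx (D * a1) ≠ cx (D * a2) := fun h => n12 (mul_left_cancel₀ hD0 (hinj h))
  have m13 : cx (D * a1) ≠ cx (D * a3) := fun h => n13 (mul_left_cancel₀ hD0 (hinj h))
  have m23 : cx (D * a2) ≠ cx (D * a3) := fun h => n23 (mul_left_cancel₀ hD0 (hinj h))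
  obtain ⟨Q1, w1, hQ1, hw1, k1⟩ := num_form hc1
  obtain ⟨Q2, w2, hQ2, hw2, k2⟩ := num_form hc2
  obtain ⟨Q1', q1, d1⟩ :=
    (FiniteMultiplicity.of_prime_left hD.prime hQ1).exists_eq_pow_mul_and_not_dvd
  obtain ⟨Q2', q2, d2⟩ :=
    (FiniteMultiplicity.of_prime_left hD.prime hQ2).exists_eq_pow_mul_and_not_dvd
  set m1 := multiplicity D Q1 with hm1
  set m2 := multiplicity D Q2 with hm2
  obtain ⟨Y, hY⟩ := near_alt h12 h13 h23 hc1 hc2 rfl rfl rfl hloc hw1 hw2 k1 k2 q1 q2 d1 d2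
  have s12 : a1 - a2 ≠ 0 := sub_ne_zero.2 n12
  have s13 : a1 - a3 ≠ 0 := sub_ne_zero.2 n13
  have s23 : a2 - a3 ≠ 0 := sub_ne_zero.2 n23
  -- values away from the bad places
  have away : ∀ {a b : K[X]}, (∀ π : K[X], π.Monic → Irreducible π → π ∣ a - b → π ∈ T) →
      ∀ ρ : AlgebraicClosure K, (∀ π ∈ T, aeval ρ π ≠ 0) → aeval ρ (a - b) ≠ 0 := by
    intro a b hab ρ hρ h0
    have hint : IsIntegral K ρ := Algebra.IsIntegral.isIntegral ρ
    exact hρ _ (hab _ (minpoly.monic hint) (minpoly.irreducible hint) (minpoly.dvd K ρ h0))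
      (minpoly.aeval K ρ)
  have v12 := away (a := a1) (b := a2) (fun π h h' h'' => hTs π h h' (Or.inl h''))
  have v13 := away (a := a1) (b := a3) (fun π h h' h'' => hTs π h h' (Or.inr (Or.inl h'')))
  have v23 := away (a := a2) (b := a3) (fun π h h' h'' => hTs π h h' (Or.inr (Or.inr h'')))
  have ev : ∀ ρ : AlgebraicClosure K, aeval ρ D ≠ 0 → (∀ π ∈ T, aeval ρ π ≠ 0) →
      2 ∣ mu Q1 ρ ∧ 2 ∣ mu Q2 ρ := by
    intro ρ h hρ
    refine even_away hEmb (p12 := D * (a1 - a2)) (p13 := D * (a1 - a3)) (p23 := D * (a2 - a3))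
      (mul_ne_zero hD0 s12) (mul_ne_zero hD0 s13) (mul_ne_zero hD0 s23) ?_ ?_ ?_ hloc hQ1 hQ2
      hw1 hw2 k1 k2 ?_ ?_ ?_
    · rw [mul_sub, map_sub]
    · rw [mul_sub, map_sub]
    · rw [mul_sub, map_sub]
    · rw [map_mul]; exact mul_ne_zero h (v12 ρ hρ)
    · rw [map_mul]; exact mul_ne_zero h (v13 ρ hρ)
    · rw [map_mul]; exact mul_ne_zero h (v23 ρ hρ)
  -- multiplicities of the factors
  have mA : ∀ {a b : K[X]}, a - b ≠ 0 →
      (∀ ρ : AlgebraicClosure K, (∀ π ∈ T, aeval ρ π ≠ 0) → aeval ρ (a - b) ≠ 0) →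
      ∀ ρ : AlgebraicClosure K, (∀ π ∈ T, aeval ρ π ≠ 0) → mu (D * (a - b)) ρ = 1 * mu D ρ := by
    intro a b hab h ρ hρ
    rw [mu_mul hD0 hab, mu_eq_zero (h ρ hρ), add_zero, one_mul]
  have mAB : ∀ {A B : K[X]}, A ≠ 0 → B ≠ 0 →
      (∀ ρ : AlgebraicClosure K, (∀ π ∈ T, aeval ρ π ≠ 0) → mu A ρ = 1 * mu D ρ) →
      (∀ ρ : AlgebraicClosure K, (∀ π ∈ T, aeval ρ π ≠ 0) → mu B ρ = 1 * mu D ρ) →
      ∀ ρ : AlgebraicClosure K, (∀ π ∈ T, aeval ρ π ≠ 0) → mu (A * B) ρ = 2 * mu D ρ := by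
    intro A B hA hB h h' ρ hρ
    rw [mu_mul hA hB, h ρ hρ, h' ρ hρ]
    ring
  have rev : ∀ {a b : K[X]},
      (∀ ρ : AlgebraicClosure K, (∀ π ∈ T, aeval ρ π ≠ 0) → aeval ρ (a - b) ≠ 0) →
      ∀ ρ : AlgebraicClosure K, (∀ π ∈ T, aeval ρ π ≠ 0) → aeval ρ (b - a) ≠ 0 := by
    intro a b h ρ hρ h0
    apply h ρ hρ
    rw [← neg_sub, map_neg, h0, neg_zero]
  have s21 : a2 - a1 ≠ 0 := sub_ne_zero.2 n12.symm
  have s31 : a3 - a1 ≠ 0 := sub_ne_zero.2 n13.symm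
  have s32 : a3 - a2 ≠ 0 := sub_ne_zero.2 n23.symm
  have A12 := mA s12 v12
  have A13 := mA s13 v13
  have A23 := mA s23 v23
  have A21 := mA s21 (rev v12)
  have A31 := mA s31 (rev v13)
  have A32 := mA s32 (rev v23)
  have z12 := mul_ne_zero hD0 s12
  have z13 := mul_ne_zero hD0 s13
  have z23 := mul_ne_zero hD0 s23
  have z21 := mul_ne_zero hD0 s21
  have z31 := mul_ne_zero hD0 s31
  have z32 := mul_ne_zero hD0 s32
  -- the final step
  have fin : ∀ {c : RatFunc K} {w Q A : K[X]}, w ≠ 0 → c * (cx w) ^ 2 = cx Q →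
      IsSquare (cx (Q * A)) → IsSquare (c * cx A) := by
    rintro c w Q A hw k ⟨r, hr⟩
    have hw' : cx w ≠ 0 := (map_ne_zero_iff _ hinj).2 hw
    refine ⟨r / cx w, ?_⟩
    rw [map_mul, ← k] at hr
    field_simp
    linear_combination hr
  have f12 : cx (D * a1) - cx (D * a2) = cx (D * (a1 - a2)) := by rw [mul_sub, map_sub]
  have f13 : cx (D * a1) - cx (D * a3) = cx (D * (a1 - a3)) := by rw [mul_sub, map_sub]
  have f23 : cx (D * a2) - cx (D * a3) = cx (D * (a2 - a3)) := by rw [mul_sub, map_sub]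
  have f21 : cx (D * a2) - cx (D * a1) = cx (D * (a2 - a1)) := by rw [mul_sub, map_sub]
  have f31 : cx (D * a3) - cx (D * a1) = cx (D * (a3 - a1)) := by rw [mul_sub, map_sub]
  have f32 : cx (D * a3) - cx (D * a2) = cx (D * (a3 - a2)) := by rw [mul_sub, map_sub]
  have ev1 := fun ρ h hρ => (ev ρ h hρ).1
  have ev2 := fun ρ h hρ => (ev ρ h hρ).2
  have sq : ∀ {Q Q' : K[X]} {m s : ℕ}, Q = D ^ m * Q' → ¬ D ∣ Q' → Q ≠ 0 →
      (∀ ρ : AlgebraicClosure K, aeval ρ D ≠ 0 → (∀ π ∈ T, aeval ρ π ≠ 0) → 2 ∣ mu Q ρ) →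
      Even (m + s) → ∀ {A : K[X]}, A ≠ 0 →
      (∀ ρ : AlgebraicClosure K, (∀ π ∈ T, aeval ρ π ≠ 0) → mu A ρ = s * mu D ρ) →
      (∀ (i0 : PlF (AdjoinRoot D)) (φ : RatFunc K →+* i0.Lv) (ε : i0.Lv), UnitOn Y i0 →
        Near (AdjoinRoot.root D) i0 φ ε → Sq (φ (cx (Q * A)))) → IsSquare (cx (Q * A)) := by
    intro Q Q' m s q d hQ he hms A hA hAm hsq
    exact square_of_near hF hodd hT hDT hind (mul_ne_zero hQ hA)
      (mu_par hD q d hQ he hms hA hAm) Y hsq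
  rcases Nat.even_or_odd m1 with e1 | o1 <;> rcases Nat.even_or_odd m2 with e2 | o2
  · have t1 := sq q1 d1 hQ1 ev1 (s := 0) (by simpa using e1) (A := 1) one_ne_zero
      (fun ρ _ => by rw [zero_mul]; exact mu_eq_zero (by rw [map_one]; exact one_ne_zero)) (by
        intro i0 φ ε hu hn
        rcases hY i0 φ ε hu hn with ⟨-, -, r1, -⟩ | ⟨-, h, -⟩ | ⟨h, -⟩ | ⟨h, -⟩
        · rw [mul_one]; exact r1
        · exact absurd e2 (Nat.not_even_iff_odd.2 h)
        · exact absurd e1 (Nat.not_even_iff_odd.2 h)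
        · exact absurd e1 (Nat.not_even_iff_odd.2 h))
    have t2 := sq q2 d2 hQ2 ev2 (s := 0) (by simpa using e2) (A := 1) one_ne_zero
      (fun ρ _ => by rw [zero_mul]; exact mu_eq_zero (by rw [map_one]; exact one_ne_zero)) (by
        intro i0 φ ε hu hn
        rcases hY i0 φ ε hu hn with ⟨-, -, -, r1⟩ | ⟨-, h, -⟩ | ⟨h, -⟩ | ⟨h, -⟩
        · rw [mul_one]; exact r1
        · exact absurd e2 (Nat.not_even_iff_odd.2 h)
        · exact absurd e1 (Nat.not_even_iff_odd.2 h)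
        · exact absurd e1 (Nat.not_even_iff_odd.2 h))
    refine ⟨0, LegSel.two_tor_zero, ?_, ?_⟩
    · have := fin hw1 k1 t1
      rwa [map_one] at this
    · have := fin hw2 k2 t2
      rwa [map_one] at this
  · have t1 := sq q1 d1 hQ1 ev1 (s := 2) (by rw [Nat.even_add]; exact ⟨fun _ => even_two, fun _ => e1⟩)
      (mul_ne_zero z12 z13) (mAB z12 z13 A12 A13) (by
        intro i0 φ ε hu hn
        rcases hY i0 φ ε hu hn with ⟨-, h, -⟩ | ⟨-, -, r1, -⟩ | ⟨h, -⟩ | ⟨h, -⟩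
        · exact absurd h (Nat.not_even_iff_odd.2 o2)
        · exact r1
        · exact absurd e1 (Nat.not_even_iff_odd.2 h)
        · exact absurd e1 (Nat.not_even_iff_odd.2 h))
    have t2 := sq q2 d2 hQ2 ev2 (s := 1) (by
        rw [Nat.even_add_one, Nat.not_even_iff_odd]; exact o2) z12 A12 (by
        intro i0 φ ε hu hn
        rcases hY i0 φ ε hu hn with ⟨-, h, -⟩ | ⟨-, -, -, r1⟩ | ⟨h, -⟩ | ⟨h, -⟩
        · exact absurd h (Nat.not_even_iff_odd.2 o2)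
        · exact r1
        · exact absurd e1 (Nat.not_even_iff_odd.2 h)
        · exact absurd e1 (Nat.not_even_iff_odd.2 h))
    have hns : (crv (cx (D * a1)) (cx (D * a2)) (cx (D * a3))).toAffine.Nonsingular
        (cx (D * a1)) 0 := crv_nonsing h2R m12 m13 m23 (by ring)
    refine ⟨Affine.Point.some _ 0 hns, LegSel.two_tor hns, ?_, ?_⟩
    · rw [dl_eq, dlW_some, if_pos rfl, f12, f13, ← map_mul]
      exact fin hw1 k1 t1
    · rw [dl_eq, dlW_some, if_neg m12, f12]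
      exact fin hw2 k2 t2
  · have t1 := sq q1 d1 hQ1 ev1 (s := 1) (by
        rw [Nat.even_add_one, Nat.not_even_iff_odd]; exact o1) z21 A21 (by
        intro i0 φ ε hu hn
        rcases hY i0 φ ε hu hn with ⟨h, -⟩ | ⟨h, -⟩ | ⟨-, -, r1, -⟩ | ⟨-, h, -⟩
        · exact absurd h (Nat.not_even_iff_odd.2 o1)
        · exact absurd h (Nat.not_even_iff_odd.2 o1)
        · exact r1
        · exact absurd e2 (Nat.not_even_iff_odd.2 h))
    have t2 := sq q2 d2 hQ2 ev2 (s := 2) (by rw [Nat.even_add]; exact ⟨fun _ => even_two, fun _ => e2⟩)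
      (mul_ne_zero z21 z23) (mAB z21 z23 A21 A23) (by
        intro i0 φ ε hu hn
        rcases hY i0 φ ε hu hn with ⟨h, -⟩ | ⟨h, -⟩ | ⟨-, -, -, r1⟩ | ⟨-, h, -⟩
        · exact absurd h (Nat.not_even_iff_odd.2 o1)
        · exact absurd h (Nat.not_even_iff_odd.2 o1)
        · exact r1
        · exact absurd e2 (Nat.not_even_iff_odd.2 h))
    have hns : (crv (cx (D * a1)) (cx (D * a2)) (cx (D * a3))).toAffine.Nonsingular
        (cx (D * a2)) 0 := crv_nonsing h2R m12 m13 m23 (by ring)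
    refine ⟨Affine.Point.some _ 0 hns, LegSel.two_tor hns, ?_, ?_⟩
    · rw [dl_eq, dlW_some, if_neg m12.symm, f21]
      exact fin hw1 k1 t1
    · rw [dl_eq, dlW_some, if_pos rfl, f21, f23, ← map_mul]
      exact fin hw2 k2 t2
  · have t1 := sq q1 d1 hQ1 ev1 (s := 1) (by
        rw [Nat.even_add_one, Nat.not_even_iff_odd]; exact o1) z31 A31 (by
        intro i0 φ ε hu hn
        rcases hY i0 φ ε hu hn with ⟨h, -⟩ | ⟨h, -⟩ | ⟨-, h, -⟩ | ⟨-, -, r1, -⟩
        · exact absurd h (Nat.not_even_iff_odd.2 o1)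
        · exact absurd h (Nat.not_even_iff_odd.2 o1)
        · exact absurd h (Nat.not_even_iff_odd.2 o2)
        · exact r1)
    have t2 := sq q2 d2 hQ2 ev2 (s := 1) (by
        rw [Nat.even_add_one, Nat.not_even_iff_odd]; exact o2) z32 A32 (by
        intro i0 φ ε hu hn
        rcases hY i0 φ ε hu hn with ⟨h, -⟩ | ⟨h, -⟩ | ⟨-, h, -⟩ | ⟨-, -, -, r1⟩
        · exact absurd h (Nat.not_even_iff_odd.2 o1)
        · exact absurd h (Nat.not_even_iff_odd.2 o1)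
        · exact absurd h (Nat.not_even_iff_odd.2 o2)
        · exact r1)
    have hns : (crv (cx (D * a1)) (cx (D * a2)) (cx (D * a3))).toAffine.Nonsingular
        (cx (D * a3)) 0 := crv_nonsing h2R m12 m13 m23 (by ring)
    refine ⟨Affine.Point.some _ 0 hns, LegSel.two_tor hns, ?_, ?_⟩
    · rw [dl_eq, dlW_some, if_neg m13.symm, f31]
      exact fin hw1 k1 t1
    · rw [dl_eq, dlW_some, if_neg m23.symm, f32]
      exact fin hw2 k2 t2

end Pool.Agent.Q308.BS
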